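import Pool.Agent.Lib.MP_8865d3_nt.Mk.Val

/-! The greatest common divisor of values of polynomials. -/

namespace Pool.Agent.Lib.MP_8865d3_nt.Mk

open Finset MvPolynomial NumberField Filter
open scoped NNReal

section alg

/-- Every complex point of the second cubic comes from a point of the first one. -/
def Onto (C C' : Co) (x y z : A3) : Prop := ∀ a b c : ℂ, C'.F a b c = 0 →
  ∃ φ : A3 →ₐ[ℚ] ℂ, φ x = a ∧ φ y = b ∧ φ z = c ∧ φ (C.F (X 0) (X 1) (X 2)) = 0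

theorem gcd_onto (C : Co) : Onto C C (X 0) (X 1) (X 2) := fun a b c h =>
  ⟨aeval ![a, b, c], by simp, by simp, by simp, by rw [C.map_F]; simpa using h⟩

variable {C C' : Co} {x y z : A3}

theorem Onto.sw (h : Onto C C' x y z) : Onto C C'.sw y x z := fun a b c e =>
  let ⟨φ, h1, h2, h3⟩ := h b a c ((C'.F_sw ..).symm.trans e); ⟨φ, h2, h1, h3⟩

theorem Onto.rot (h : Onto C C' x y z) : Onto C C'.rot x z y := fun a b c e =>
  let ⟨φ, h1, h2, h3, h4⟩ := h a c b ((C'.F_rot ..).symm.trans e); ⟨φ, h1, h3, h2, h4⟩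

theorem Onto.mv (h : Onto C C' x y z) : Onto C C'.rot x (C'.vt x y z) y := fun a b c e => by
  obtain ⟨φ, h1, h2, h3, h4⟩ := h a c (C'.vt a c b) ((C'.F_vt ..).trans ((C'.F_rot ..).symm.trans e))
  exact ⟨φ, h1, by rw [C'.map_vt, h1, h2, h3, C'.vt_vt], h2, h4⟩

theorem Onto.not_dvd (h : Onto C C' x y z) {Q : Polynomial ℚ} (hQ : Q ≠ 0) :
    ¬ C.F (X 0) (X 1) (X 2) ∣ Polynomial.aeval x Q := by
  rintro ⟨H, hH⟩
  obtain ⟨t, ht⟩ : ∃ t : ℚ, Q.eval t ≠ 0 := by
    by_contra hc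
    exact hQ (Polynomial.funext fun t => by simpa using not_exists.1 hc t)
  obtain ⟨c, hc⟩ : ∃ c : ℂ, (C'.c : ℂ) * (c * c) + (C'.m * t + C'.g) * c +
      (C'.a * t ^ 2 + C'.e * t + C'.k) = 0 :=
    exists_quadratic_eq_zero (by exact_mod_cast C'.hc) (IsAlgClosed.exists_eq_mul_self _)
  obtain ⟨φ, h1, -, -, h4⟩ := h t 0 c (by
    simp only [Co.F, Rat.smul_def]
    linear_combination hc)
  have h5 := congrArg φ hH
  rw [map_mul, h4, zero_mul, ← Polynomial.aeval_algHom_apply, h1, ← eq_ratCast (algebraMap ℚ ℂ),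
    Polynomial.aeval_algebraMap_apply_eq_algebraMap_eval, map_eq_zero] at h5
  exact ht h5

end alg

theorem gcd_norm {p : Fin 3 → ℤ} (h : p ≠ 0) : 1 ≤ ‖p‖ := by
  obtain ⟨i, hi⟩ := Function.ne_iff.1 h
  refine le_trans ?_ (norm_le_pi_norm p i)
  rw [Int.norm_eq_abs]
  exact_mod_cast Int.one_le_abs hi

theorem gcd_log (p : Fin 3 → ℤ) : 0 ≤ Real.log ‖p‖ := by
  rcases eq_or_ne p 0 with rfl | h
  · simp
  · exact Real.log_nonneg (gcd_norm h)

theorem gcd_size (G : A3) : ∃ c d : ℝ, 0 ≤ d ∧ 1 ≤ c ∧ ∀ (p : Fin 3 → ℤ) (q : ℕ), 0 < q →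
    |((eval (fun i => (p i / q : ℚ)) G : ℚ) : ℝ)| ≤ c * Real.exp (d * Real.log ‖p‖) := by
  induction G using MvPolynomial.induction_on with
  | C c => exact ⟨|(c : ℝ)| + 1, 0, le_rfl, le_add_of_nonneg_left (abs_nonneg _), fun _ _ _ => by simp⟩
  | add a b ha hb =>
    obtain ⟨c, d, h1, h2, h3⟩ := ha
    obtain ⟨c', d', h4, h5, h6⟩ := hb
    refine ⟨c + c', d + d', by positivity, by linarith, fun p q hq => ?_⟩
    have := gcd_log p
    rw [map_add, Rat.cast_add, add_mul c]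
    refine (abs_add_le _ _).trans (add_le_add ((h3 p q hq).trans ?_) ((h6 p q hq).trans ?_)) <;>
      gcongr <;> linarith
  | mul_X a i ha =>
    obtain ⟨c, d, h1, h2, h3⟩ := ha
    refine ⟨c, d + 1, by positivity, h2, fun p q hq => ?_⟩
    rw [map_mul, Rat.cast_mul, abs_mul, add_mul, Real.exp_add, ← mul_assoc, eval_X, one_mul]
    refine mul_le_mul (h3 p q hq) ?_ (abs_nonneg _) (by positivity)
    refine le_trans ?_ (Real.le_exp_log _)
    refine le_trans ?_ (norm_le_pi_norm p i)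
    rw [Int.norm_eq_abs]
    push_cast
    rw [abs_div, Nat.abs_cast]
    exact div_le_self (abs_nonneg _) (by exact_mod_cast hq)

variable {K : Type} [Field K] [NumberField K]

theorem gcd_den (a : MvPolynomial (Fin 3) K) : ∀ᶠ m : ℕ in atTop, ∀ (p : Fin 3 → ℤ) (q : ℕ), 0 < q →
    IsIntegral ℤ (((m.factorial * q ^ m : ℕ) : K) * eval (fun i => (p i / q : K)) a) := by
  induction a using MvPolynomial.induction_on with
  | C c =>
    obtain ⟨d, h1, h2⟩ := ((IsFractionRing.isAlgebraic_iff ℤ ℚ K).2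
      (Algebra.IsAlgebraic.isAlgebraic c)).exists_integral_multiple
    filter_upwards [eventually_ge_atTop d.natAbs] with m hm p q _
    obtain ⟨e, he⟩ := Int.natAbs_dvd.1 (Int.natCast_dvd_natCast.2
      (Nat.dvd_factorial (Int.natAbs_pos.2 h1) hm))
    have e1 : ((m.factorial * q ^ m : ℕ) : K) * eval (fun i => (p i / q : K)) (C c) =
        (e * q ^ m : ℤ) • d • c := by
      have e2 : (m.factorial : K) = d * e := by exact_mod_cast congrArg (Int.cast : ℤ → K) he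
      simp only [eval_C, zsmul_eq_mul]
      push_cast
      rw [e2]; ring
    exact e1 ▸ h2.smul _
  | add a b ha hb =>
    filter_upwards [ha, hb] with m h1 h2 p q hq
    rw [map_add, mul_add]
    exact (h1 p q hq).add (h2 p q hq)
  | mul_X a i ha =>
    obtain ⟨m0, hm⟩ := eventually_atTop.1 ha
    filter_upwards [eventually_ge_atTop (m0 + 1)] with m h1 p q hq
    obtain ⟨m, rfl⟩ := Nat.exists_eq_add_of_le' (le_of_add_le_right h1)
    have e1 : (((m + 1).factorial * q ^ (m + 1) : ℕ) : K) * eval (fun i => (p i / q : K)) (a * X i) =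
        ((m + 1) * p i : ℤ) • (((m.factorial * q ^ m : ℕ) : K) * eval (fun i => (p i / q : K)) a) := by
      have : (q : K) ≠ 0 := by exact_mod_cast hq.ne'
      simp only [map_mul, eval_X, zsmul_eq_mul, Nat.factorial_succ]
      push_cast
      field_simp
      ring
    exact e1 ▸ (hm m (by omega) p q hq).smul _

theorem gcd_ev (p : Fin 3 → ℤ) (q : ℕ) (G : A3) :
    eval (fun i => (p i / q : K)) (aeval X G) = ((eval (fun i => (p i / q : ℚ)) G : ℚ) : K) := by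
  induction G using MvPolynomial.induction_on with
  | C c => simp
  | add a b ha hb => simp only [map_add, ha, hb, Rat.cast_add]
  | mul_X a i ha => simp only [map_mul, ha, aeval_X, eval_X]; push_cast; rfl

theorem gcd_one (w : FinitePlace K) {x : K} (h : IsIntegral ℤ x) : w x ≤ 1 := by
  rw [← FinitePlace.norm_embedding_eq]
  exact FinitePlace.norm_le_one (R := 𝓞 K) K _ ⟨x, h⟩

theorem gcd_prod {r : ℚ} (h0 : r ≠ 0) (h : IsIntegral ℤ (r : K)) (S : Finset (FinitePlace K)) :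
    ∑ w ∈ S, Real.log (w (r : K))⁻¹ ≤ Module.finrank ℚ K * Real.log |(r : ℝ)| := by
  classical
  have h1 : (r : K) ≠ 0 := by exact_mod_cast h0
  have h2 := FinitePlace.prod_eq_inv_abs_norm h1
  obtain ⟨S', h3⟩ := Set.Finite.exists_finset_coe (FinitePlace.hasFiniteMulSupport h1)
  have e : Algebra.norm ℚ (r : K) = r ^ Module.finrank ℚ K := Algebra.norm_algebraMap r
  rw [finprod_eq_prod_of_mulSupport_subset (s := S ∪ S') _ (by rw [← h3]; simp), e] at h2
  have h4 := prod_le_prod_of_subset_of_le_one (subset_union_left : S ⊆ S ∪ S')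
    (f := fun w : FinitePlace K => w (r : K)) (fun w _ => apply_nonneg _ _) fun w _ _ => gcd_one w h
  have h5 : (0 : ℝ) < |(r : ℝ)| := abs_pos.2 (by exact_mod_cast h0)
  rw [h2] at h4
  push_cast at h4
  rw [abs_pow] at h4
  have h6 := Real.log_le_log (by positivity) h4
  rw [Real.log_prod fun w _ => (FinitePlace.pos_iff.2 h1).ne', Real.log_inv, Real.log_pow] at h6
  simp only [Real.log_inv, sum_neg_distrib]
  linarith

variable {J : Type} [Fintype J] {f : J → MvPolynomial (Fin 3) K} {C : Co}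

theorem gcd_sum (w : FinitePlace K) {x : J → K} {B : ℝ} (h0 : 0 ≤ B) (h : ∀ j, w (x j) ≤ B) :
    w (∑ j, x j) ≤ B :=
  sum_induction x (fun y => w y ≤ B) (fun a b ha hb => (w.add_le a b).trans (max_le ha hb))
    (by simpa using h0) fun j _ => h j

theorem gcd_F (P : Fin 3 → ℚ) : eval P (C.F (X 0) (X 1) (X 2)) = C.F (P 0) (P 1) (P 2) := by
  simpa using C.map_F (aeval P : A3 →ₐ[ℚ] ℚ) (X 0) (X 1) (X 2)

theorem gcd_bnd {G : A3} (hG : aeval X G ∈ Ideal.span (insert (C.F (X 0) (X 1) (X 2)) (Set.range f))) :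
    ∃ c₁ c₂ : ℝ, ∀ (p : Fin 3 → ℤ) (q : ℕ), 0 < q → C.F (p 0 / q : ℚ) (p 1 / q) (p 2 / q) = 0 →
      eval (fun i => (p i / q : ℚ)) G ≠ 0 →
      (∃ j, eval (fun i => (p i / q : K)) (f j) ≠ 0) ∧ ∀ S : Finset (FinitePlace K),
        ∑ w ∈ S, Real.log (⨆ j, w (eval (fun i => (p i / q : K)) (f j)))⁻¹ ≤
          Module.finrank ℚ K * Real.log |((eval (fun i => (p i / q : ℚ)) G : ℚ) : ℝ)| +
            c₁ * Real.log q + c₂ := by
  obtain ⟨a, z, hz, e⟩ := Ideal.mem_span_insert.1 hG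
  obtain ⟨b, rfl⟩ := Ideal.mem_span_range_iff_exists_fun.1 hz
  obtain ⟨m, h1, h2⟩ := ((gcd_den (aeval X G : MvPolynomial (Fin 3) K)).and
    (eventually_all.2 fun j => gcd_den (b j))).exists
  refine ⟨Module.finrank ℚ K * m, Module.finrank ℚ K * Real.log m.factorial, fun p q hq h3 h4 => ?_⟩
  have e1 := congrArg (eval fun i => (p i / q : K)) e
  have e2 := gcd_ev (K := K) p q (C.F (X 0) (X 1) (X 2))
  rw [C.map_F, gcd_F, h3] at e2
  simp only [aeval_X, Rat.cast_zero] at e2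
  rw [map_add, map_mul, e2, mul_zero, zero_add, map_sum, gcd_ev] at e1
  simp only [map_mul] at e1
  have h5 : ((eval (fun i => (p i / q : ℚ)) G : ℚ) : K) ≠ 0 := by exact_mod_cast h4
  have h6 : (0 : ℝ) < q := by exact_mod_cast hq
  have h7 : (0 : ℝ) < m.factorial := by exact_mod_cast m.factorial_pos
  refine ⟨by_contra fun hc => h5 (e1.trans (sum_eq_zero fun j _ =>
    mul_eq_zero_of_right _ (not_not.1 (not_exists.1 hc j)))), fun S => ?_⟩
  set r : ℚ := (m.factorial * q ^ m : ℕ) * eval (fun i => (p i / q : ℚ)) G with hr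
  have h8 : r ≠ 0 := mul_ne_zero (by exact_mod_cast by positivity) h4
  have h9 := h1 p q hq
  rw [gcd_ev, ← Rat.cast_natCast, ← Rat.cast_mul] at h9
  refine le_trans (sum_le_sum fun w _ => ?_) ((gcd_prod h8 h9 S).trans (le_of_eq ?_))
  · have h10 : 0 < w (r : K) := FinitePlace.pos_iff.2 (by exact_mod_cast h8)
    have h11 : w (r : K) ≤ ⨆ j, w (eval (fun i => (p i / q : K)) (f j)) := by
      rw [hr, Rat.cast_mul, Rat.cast_natCast, e1, mul_sum]
      refine gcd_sum w (Real.iSup_nonneg fun j => apply_nonneg _ _) fun j => ?_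
      rw [← mul_assoc, map_mul]
      exact (mul_le_of_le_one_left (apply_nonneg _ _) (gcd_one w (h2 j p q hq))).trans
        (le_ciSup (f := fun j => w (eval (fun i => (p i / q : K)) (f j))) (Finite.bddAbove_range _) j)
    exact Real.log_le_log (inv_pos.2 (h10.trans_le h11)) (inv_anti₀ h10 h11)
  · rw [hr]
    push_cast
    rw [abs_mul, abs_of_pos (by positivity), Real.log_mul (by positivity)
      (abs_ne_zero.2 (by exact_mod_cast h4)), Real.log_mul h7.ne' (by positivity), Real.log_pow]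
    ring

omit [Fintype J] in
theorem gcd_poly (hf : Module.Finite K (MvPolynomial (Fin 3) K ⧸
      Ideal.span (insert (C.F (X 0) (X 1) (X 2)) (Set.range f)))) :
    ∃ N : ℕ, ∀ x : A3, ∃ Q : Polynomial ℚ, Q ≠ 0 ∧ Q.natDegree ≤ N ∧
      aeval X (Polynomial.aeval x Q) ∈ Ideal.span (insert (C.F (X 0) (X 1) (X 2)) (Set.range f)) := by
  set I := Ideal.span (insert (C.F (X 0) (X 1) (X 2)) (Set.range f))
  have : Module.Finite ℚ (MvPolynomial (Fin 3) K ⧸ I) := Module.Finite.trans K _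
  refine ⟨Module.finrank ℚ (MvPolynomial (Fin 3) K ⧸ I), fun x =>
    ⟨minpoly ℚ (Ideal.Quotient.mkₐ ℚ I (aeval X x)),
      (minpoly.monic (Algebra.IsIntegral.isIntegral _)).ne_zero_of_ne one_ne_zero.symm,
      minpoly.natDegree_le _, Ideal.Quotient.eq_zero_iff_mem.1 ?_⟩⟩
  rw [← Polynomial.aeval_algHom_apply, ← Ideal.Quotient.mkₐ_eq_mk ℚ, ← Polynomial.aeval_algHom_apply,
    minpoly.aeval]

theorem gcd_val {R : Type} [CommRing R] [Algebra ℚ R] {v : Valuation R ℝ≥0} (hv : Sz v) {x : R}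
    {θ : ℝ≥0} (h1 : 1 ≤ θ) (hx : v x ≤ θ) {Q : Polynomial ℚ} {N : ℕ} (hQ : Q.natDegree ≤ N) :
    v (Polynomial.aeval x Q) ≤ θ ^ N := by
  rw [Polynomial.aeval_eq_sum_range]
  refine v.map_sum_le fun i hi => (hv.smul_le _ _).trans ?_
  rw [map_pow]
  exact (pow_le_pow_left₀ zero_le hx i).trans
    (pow_le_pow_right₀ h1 ((Nat.lt_succ_iff.1 (mem_range.1 hi)).trans hQ))

theorem gcd_main (C : Co) (K : Type) [Field K] [NumberField K] {J : Type} [Fintype J]
    (f : J → MvPolynomial (Fin 3) K) (hf : Module.Finite K (MvPolynomial (Fin 3) K ⧸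
      Ideal.span (insert (C.F (X 0) (X 1) (X 2)) (Set.range f)))) {ε : ℝ} (hε : 0 < ε) :
    ∃ (T : Finset A3) (c₁ c₂ : ℝ), (∀ g ∈ T, ¬ C.F (X 0) (X 1) (X 2) ∣ g) ∧
      ∀ (p : Fin 3 → ℤ) (q : ℕ), 0 < q → C.F (p 0 / q : ℚ) (p 1 / q) (p 2 / q) = 0 →
        (∀ g ∈ T, eval (fun i => (p i / q : ℚ)) g ≠ 0) →
        (∃ j, eval (fun i => (p i / q : K)) (f j) ≠ 0) ∧ ∀ S : Finset (FinitePlace K),
          ∑ w ∈ S, Real.log (⨆ j, w (eval (fun i => (p i / q : K)) (f j)))⁻¹ ≤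
            ε * Real.log ‖p‖ + c₁ * Real.log q + c₂ := by
  classical
  by_contra hc
  push Not at hc
  obtain ⟨N, hN⟩ := gcd_poly hf
  choose p q h1 h2 h3 h4 using fun b : Finset {g : A3 // ¬ C.F (X 0) (X 1) (X 2) ∣ g} × ℕ =>
    hc (b.1.image Subtype.val) b.2 b.2 fun g hg => by
      obtain ⟨g, -, rfl⟩ := mem_image.1 hg
      exact g.2
  have hq : ∀ b, 0 ≤ Real.log (q b) := fun b => Real.log_natCast_nonneg _
  have key : ∀ {C' : Co} {x y z : A3}, Onto C C' x y z → ∃ Q : Polynomial ℚ, Q.natDegree ≤ N ∧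
      ∃ c₁ c₂ : ℝ, ∀ᶠ b in atTop, eval (fun i => (p b i / q b : ℚ)) (Polynomial.aeval x Q) ≠ 0 ∧
        ε * Real.log ‖p b‖ + (b.2 - c₁) * Real.log (q b) + (b.2 - c₂) < Module.finrank ℚ K *
          Real.log |((eval (fun i => (p b i / q b : ℚ)) (Polynomial.aeval x Q) : ℚ) : ℝ)| := by
    intro C' x y z h
    obtain ⟨Q, h5, h6, h7⟩ := hN x
    obtain ⟨c₁, c₂, h8⟩ := gcd_bnd h7
    refine ⟨Q, h6, c₁, c₂, ?_⟩
    filter_upwards [eventually_ge_atTop ({⟨_, h.not_dvd h5⟩}, 0)] with b hb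
    have h9 := h3 b _ (mem_image_of_mem _ (singleton_subset_iff.1 hb.1))
    obtain ⟨h10, h11⟩ := h8 _ _ (h1 b) (h2 b) h9
    obtain ⟨S, hS⟩ := h4 b h10
    exact ⟨h9, by linarith [h11 S]⟩
  have hm : ∀ t : ℝ, ∀ᶠ b : Finset {g : A3 // ¬ C.F (X 0) (X 1) (X 2) ∣ g} × ℕ in atTop, t ≤ b.2 :=
    fun t => by
      filter_upwards [eventually_ge_atTop (∅, ⌈t⌉₊)] with b hb
      exact Nat.ceil_le.1 hb.2
  obtain ⟨e, c₁, c₂, he, h5⟩ : ∃ e c₁ c₂ : ℝ, 0 < e ∧ ∀ᶠ b in atTop,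
      (b.2 - c₁) * Real.log (q b) + (b.2 - c₂) ≤ e * Real.log ‖p b‖ := by
    obtain ⟨Q, -, c₁, c₂, h5⟩ := key (gcd_onto C)
    obtain ⟨c, d, h6, h7, h8⟩ := gcd_size (Polynomial.aeval (X 0) Q)
    refine ⟨Module.finrank ℚ K * d + 1, c₁, c₂ + Module.finrank ℚ K * Real.log c, by positivity,
      h5.mono fun b hb => ?_⟩
    have h9 := Real.log_le_log (abs_pos.2 (by exact_mod_cast hb.1)) (h8 (p b) (q b) (h1 b))
    rw [Real.log_mul (by positivity) (Real.exp_ne_zero _), Real.log_exp] at h9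
    have h10 := mul_le_mul_of_nonneg_left h9 (Nat.cast_nonneg (Module.finrank ℚ K))
    have h11 := gcd_log (p b)
    nlinarith [hb.2, mul_nonneg hε.le h11]
  have hU := Ultrafilter.of_le
    (atTop : Filter (Finset {g : A3 // ¬ C.F (X 0) (X 1) (X 2) ∣ g} × ℕ))
  let D : Sq (Finset {g : A3 // ¬ C.F (X 0) (X 1) (X 2) ∣ g} × ℕ) :=
    ⟨Ultrafilter.of atTop, p, q, h1, (tendsto_atTop.2 fun B => by
      filter_upwards [h5, hm c₁, hm (c₂ + e * B)] with b h6 h7 h8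
      exact le_of_mul_le_mul_left (by nlinarith [hq b]) he).mono_left hU, fun δ hδ => hU (by
      filter_upwards [h5, hm (c₁ + e / δ), hm c₂] with b h6 h7 h8
      have h9 : e / δ * Real.log (q b) ≤ e * Real.log ‖p b‖ := by nlinarith [hq b]
      rw [div_mul_eq_mul_div, div_le_iff₀ hδ] at h9
      exact le_of_mul_le_mul_left (by linarith) he)⟩
  have hD : D.On C := Eventually.of_forall fun b => (gcd_F _).trans (h2 b)
  let Inv : Tri D.R → Prop := fun τ => ∃ x y z : A3, τ.x = D.cl x ∧ τ.y = D.cl y ∧ τ.z = D.cl z ∧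
    Onto C τ.co x y z
  have i0 : Inv (D.tri hD) := ⟨_, _, _, rfl, rfl, rfl, gcd_onto C⟩
  have i1 : ∀ τ, Inv τ → Inv τ.sw := fun τ ⟨x, y, z, a, b, c, d⟩ => ⟨y, x, z, b, a, c, d.sw⟩
  have i2 : ∀ τ, Inv τ → Inv τ.rot := fun τ ⟨x, y, z, a, b, c, d⟩ => ⟨x, z, y, a, c, b, d.rot⟩
  have i3 : ∀ τ, Inv τ → Inv τ.mv := fun τ ⟨x, y, z, a, b, c, d⟩ =>
    ⟨x, _, y, a, by rw [τ.co.map_vt, ← a, ← b, ← c]; rfl, b, d.mv⟩
  obtain ⟨τ, i4, i5⟩ : ∃ τ, Inv τ ∧ τ.Good D.w := by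
    rcases (D.tri hD).exists_good (D.tri_big hD) with h | h | h
    exacts [⟨_, i0, h⟩, ⟨_, i2 _ i0, h⟩, ⟨_, i2 _ (i1 _ i0), h⟩]
  set s : ℝ := ε / ((Module.finrank ℚ K + 1) * (N + 1)) with hs
  let θ : ℝ≥0 := ⟨Real.exp s, (Real.exp_pos s).le⟩
  have hθ : 1 < θ := Real.one_lt_exp_iff.2 (by positivity)
  obtain ⟨L, hL⟩ := pow_unbounded_of_one_lt 2 hθ
  obtain ⟨σ, ⟨x, y, z, a, -, -, d⟩, -, i6⟩ :=
    Tri.desc_small D.sz Inv i1 (fun τ h _ _ _ => i3 τ h) i4 i5 L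
  obtain ⟨Q, h6, c₃, c₄, h7⟩ := key d
  have h8 := gcd_val D.sz hθ.le (lt_of_pow_lt_pow_left₀ L zero_le (i6.trans_lt hL)).le h6
  rw [a, Polynomial.aeval_algHom_apply, D.w_cl] at h8
  have h9 := D.v_lt (h8.trans_lt (pow_lt_pow_right₀ hθ N.lt_succ_self))
  obtain ⟨b, ⟨h10, h11⟩, h12, h13, h14⟩ :=
    ((h7.filter_mono hU).and (((hm c₃).filter_mono hU).and (((hm c₄).filter_mono hU).and h9))).exists
  have h15 := Real.log_le_log (abs_pos.2 (Rat.cast_ne_zero.2 h10)) h14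
  rw [Real.log_exp, NNReal.coe_pow, Real.log_pow,
    show Real.log θ = s from Real.log_exp s] at h15
  have h16 := mul_le_mul_of_nonneg_left h15 (Nat.cast_nonneg (Module.finrank ℚ K))
  have h17 : ε = (Module.finrank ℚ K + 1) * ((N + 1) * s) := by rw [hs]; field_simp
  have h18 := mul_nonneg (by positivity : 0 ≤ ((N : ℝ) + 1) * s) (gcd_log (p b))
  have h19 := mul_nonneg (sub_nonneg.2 h12) (hq b)
  change _ ≤ _ * (_ * Real.log ‖p b‖) at h16
  push_cast at h16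
  rw [h17] at h11
  have := h11.trans_le h16
  nlinarith

end Pool.Agent.Lib.MP_8865d3_nt.Mk
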