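import Pool.Agent.Lib.MP_8865d3_nt.Mk.Main
import Pool.Agent.Lib.MP_8865d3_nt.Mk.Gcd

/-! All the polynomials at each place, and the common divisor term, in one inequality. -/

namespace Pool.Agent.Lib.MP_8865d3_nt.Mk

open Finset MvPolynomial NumberField Module

variable (C : Co) (K : Type) [Field K] [NumberField K]

theorem pair (u v : MvPolynomial (Fin 3) K) {ε : ℝ} (hε : 0 < ε) :
    ∃ (T : Finset A3) (c₁ c₂ : ℝ), (∀ g ∈ T, ¬ C.F (X 0) (X 1) (X 2) ∣ g) ∧ 0 ≤ c₁ ∧ 0 ≤ c₂ ∧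
      ∀ (p : Fin 3 → ℤ) (q : ℕ), 0 < q → C.F (p 0 / q : ℚ) (p 1 / q) (p 2 / q) = 0 →
        (∀ g ∈ T, eval (fun i => (p i / q : ℚ)) g ≠ 0) → ∀ S : Finset (FinitePlace K),
        (∀ w ∈ S, Module.Finite K (MvPolynomial (Fin 3) K ⧸
          Ideal.span {C.F (X 0) (X 1) (X 2), u, v}) ∧
          w (eval (fun i => (p i / q : K)) u) ≤ w (eval (fun i => (p i / q : K)) v)) →
        ∑ w ∈ S, Real.log (w (eval (fun i => (p i / q : K)) v))⁻¹ ≤
          ε * Real.log ‖p‖ + c₁ * Real.log q + c₂ := by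
  by_cases hf : Module.Finite K (MvPolynomial (Fin 3) K ⧸
    Ideal.span {C.F (X 0) (X 1) (X 2), u, v})
  · obtain ⟨T, c₁, c₂, h1, h2⟩ := gcd_main C K ![u, v] (by
      rwa [Matrix.range_cons, Matrix.range_cons, Matrix.range_empty, Set.union_empty,
        Set.singleton_union]) hε
    refine ⟨T, |c₁|, |c₂|, h1, abs_nonneg _, abs_nonneg _, fun p q hq hF hT S hS => ?_⟩
    refine le_of_eq_of_le (sum_congr rfl fun w hw => ?_) (((h2 p q hq hF hT).2 S).trans ?_)
    · congr 2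
      refine le_antisymm (le_ciSup (f := fun j => w (eval (fun i => (p i / q : K)) (![u, v] j)))
        (Finite.bddAbove_range _) 1) (ciSup_le fun j => ?_)
      fin_cases j
      · exact (hS w hw).2
      · exact le_rfl
    · have := mul_le_mul_of_nonneg_right (le_abs_self c₁) (Real.log_natCast_nonneg q)
      linarith [le_abs_self c₂]
  · refine ⟨∅, 0, 0, by simp, le_rfl, le_rfl, fun p q _ _ _ S hS => ?_⟩
    rw [eq_empty_of_forall_notMem fun w hw => hf (hS w hw).1, sum_empty, zero_mul, add_zero,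
      add_zero]
    exact mul_nonneg hε.le (log_norm_nonneg p)

theorem comb (B J : Finset (MvPolynomial (Fin 3) K))
    (hJ : Module.Finite K (MvPolynomial (Fin 3) K ⧸
      Ideal.span (insert (C.F (X 0) (X 1) (X 2)) (J : Set (MvPolynomial (Fin 3) K)))))
    {ε : ℝ} (hε : 0 < ε) :
    ∃ T : Finset A3, (∀ t ∈ T, ¬ C.F (X 0) (X 1) (X 2) ∣ t) ∧
      ∀ (S : Finset (FinitePlace K)) (A : FinitePlace K → Finset (MvPolynomial (Fin 3) K)),
      (∀ w ∈ S, A w ⊆ B ∧ ∀ u ∈ A w, ∀ v ∈ A w, u ≠ v → Module.Finite K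
        (MvPolynomial (Fin 3) K ⧸ Ideal.span {C.F (X 0) (X 1) (X 2), u, v})) →
      ∃ c₁ c₂ : ℝ, ∀ (p : Fin 3 → ℤ) (q : ℕ) (H : ℝ), 0 < q →
        C.F (p 0 / q : ℚ) (p 1 / q) (p 2 / q) = 0 → 1 ≤ H →
        (∀ w ∈ S, ∀ u ∈ A w, eval (fun i => (p i / q : K)) u ≠ 0 ∧
          house (eval (fun i => (p i / q : K)) u) ≤ H) →
        ((∀ t ∈ T, eval (fun i => (p i / q : ℚ)) t ≠ 0) ∨ (1 ∈ J ∧ ∀ w ∈ S, (A w).card ≤ 1)) →
        (∃ j ∈ J, eval (fun i => (p i / q : K)) j ≠ 0) ∧ ∀ S' : Finset (FinitePlace K),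
          ∑ w ∈ S', Real.log (⨆ j : J, w (eval (fun i => (p i / q : K)) j))⁻¹ +
            ∑ w ∈ S, ∑ u ∈ A w, Real.log (w (eval (fun i => (p i / q : K)) u))⁻¹ ≤
          finrank ℚ K * Real.log H + ε * Real.log ‖p‖ + c₁ * Real.log q + c₂ := by
  classical
  obtain ⟨η, hη⟩ : ∃ η : ℝ, η = ε / (B.card * B.card + 2) := ⟨_, rfl⟩
  have η0 : 0 < η := hη ▸ by positivity
  have e1 : ε = (B.card * B.card + 2) * η := by
    rw [hη]
    exact (mul_div_cancel₀ _ (by positivity)).symm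
  obtain ⟨T₀, a₁, a₂, h1, h2⟩ := gcd_main C K (Subtype.val : J → _) (by
    rwa [Subtype.range_coe_subtype]) η0
  choose T b₁ b₂ g1 g2 g3 g4 using fun u v => pair C K u v η0
  refine ⟨T₀ ∪ B.biUnion fun v => B.biUnion fun u => T u v, fun t ht => ?_, fun S A hA => ?_⟩
  · simp only [mem_union, mem_biUnion] at ht
    rcases ht with ht | ⟨v, -, u, -, ht⟩
    exacts [h1 t ht, g1 u v t ht]
  choose d₁ d₂ hd using fun s : S → ↥(insert 1 B) =>
    main C K S (fun w => if h : w ∈ S then s ⟨w, h⟩ else 0) η0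
  refine ⟨|a₁| + ∑ s, |d₁ s| + ∑ v ∈ B, ∑ u ∈ B, b₁ u v, |a₂| + ∑ s, |d₂ s| + ∑ v ∈ B, ∑ u ∈ B, b₂ u v,
    fun p q H hq hF hH hu hT => ?_⟩
  have l1 := log_norm_nonneg p
  have l2 := Real.log_natCast_nonneg q
  have l3 := mul_nonneg η0.le l1
  have k1 : (∃ j ∈ J, eval (fun i => (p i / q : K)) j ≠ 0) ∧ ∀ S' : Finset (FinitePlace K),
      ∑ w ∈ S', Real.log (⨆ j : J, w (eval (fun i => (p i / q : K)) j))⁻¹ ≤
        η * Real.log ‖p‖ + |a₁| * Real.log q + |a₂| := by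
    rcases hT with hT | ⟨hT, -⟩
    · obtain ⟨⟨j, hj⟩, h3⟩ := h2 p q hq hF fun t ht => hT t (mem_union_left _ ht)
      refine ⟨⟨j, j.2, hj⟩, fun S' => (h3 S').trans ?_⟩
      have := mul_le_mul_of_nonneg_right (le_abs_self a₁) l2
      linarith [le_abs_self a₂]
    · refine ⟨⟨1, hT, by simp⟩, fun S' => (sum_nonpos fun w _ => ?_).trans (by positivity)⟩
      rw [Real.log_inv, neg_nonpos]
      refine Real.log_nonneg (le_trans ?_ (le_ciSup (f := fun j : J =>
        w (eval (fun i => (p i / q : K)) j)) (Finite.bddAbove_range _) ⟨1, hT⟩))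
      simp
  refine ⟨k1.1, fun S' => ?_⟩
  have : ∀ w, ∃ s : MvPolynomial (Fin 3) K, (A w = ∅ ∧ s = 1) ∨ (s ∈ A w ∧ ∀ v ∈ A w,
      w (eval (fun i => (p i / q : K)) s) ≤ w (eval (fun i => (p i / q : K)) v)) := fun w => by
    rcases (A w).eq_empty_or_nonempty with h | h
    · exact ⟨1, .inl ⟨h, rfl⟩⟩
    · obtain ⟨s, hs⟩ := exists_min_image (A w) (fun v => w (eval (fun i => (p i / q : K)) v)) h
      exact ⟨s, .inr hs⟩
  choose s hs using this
  have k2 : ∑ w ∈ S, Real.log (w (eval (fun i => (p i / q : K)) (s w)))⁻¹ ≤ finrank ℚ K *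
      Real.log H + η * Real.log ‖p‖ + (∑ s, |d₁ s|) * Real.log q + ∑ s, |d₂ s| := by
    obtain ⟨σ, hσ⟩ : ∃ σ : S → ↥(insert 1 B), ∀ w, (σ w).1 = s w := ⟨fun w => ⟨s w, by
      rcases hs w with h | h
      · exact h.2 ▸ mem_insert_self _ _
      · exact mem_insert_of_mem ((hA w w.2).1 h.1)⟩, fun _ => rfl⟩
    have e : ∀ w ∈ S, (if h : w ∈ S then (σ ⟨w, h⟩ : MvPolynomial (Fin 3) K) else 0) = s w :=
      fun w hw => by rw [dif_pos hw, hσ]
    refine le_of_eq_of_le (sum_congr rfl fun w hw => by rw [e w hw])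
      ((hd σ p q H hq hF hH fun w hw => ?_).trans ?_)
    · rw [e w hw]
      rcases hs w with h | h
      · rw [h.2, map_one]
        refine ⟨one_ne_zero, le_trans ?_ hH⟩
        simpa using (house_intCast (K := K) 1).le
      · exact hu w hw _ h.1
    · have := mul_le_mul_of_nonneg_right ((le_abs_self _).trans
        (single_le_sum (f := fun s => |d₁ s|) (fun _ _ => abs_nonneg _) (mem_univ σ))) l2
      have := (le_abs_self _).trans
        (single_le_sum (f := fun s => |d₂ s|) (fun _ _ => abs_nonneg _) (mem_univ σ))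
      linarith
  have k3 : ∑ w ∈ S, ∑ v ∈ (A w).erase (s w), Real.log (w (eval (fun i => (p i / q : K)) v))⁻¹ ≤
      ∑ v ∈ B, ∑ u ∈ B, (η * Real.log ‖p‖ + b₁ u v * Real.log q + b₂ u v) := by
    rcases hT with hT | ⟨-, hT⟩
    · rw [sum_comm' (s' := fun v => S.filter fun w => v ∈ (A w).erase (s w)) (t' := B)
        fun w v => by
          rw [mem_filter]
          exact ⟨fun h => ⟨h, (hA w h.1).1 (mem_of_mem_erase h.2)⟩, fun h => h.1⟩]
      refine sum_le_sum fun v hv => ?_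
      have m : ∀ w ∈ S.filter fun w => v ∈ (A w).erase (s w), s w ∈ A w ∧ ∀ v ∈ A w,
          w (eval (fun i => (p i / q : K)) (s w)) ≤ w (eval (fun i => (p i / q : K)) v) :=
        fun w hw => (hs w).resolve_left fun h => by simp [h.1] at hw
      rw [← sum_fiberwise_of_maps_to (g := s) (t := B) fun w hw =>
        (hA w (mem_filter.1 hw).1).1 (m w hw).1]
      refine sum_le_sum fun u hu' => g4 u v p q hq hF (fun t ht => hT t (mem_union_right _
        (mem_biUnion.2 ⟨v, hv, mem_biUnion.2 ⟨u, hu', ht⟩⟩))) _ fun w hw => ?_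
      obtain ⟨hx, rfl⟩ := mem_filter.1 hw
      have h3 := mem_erase.1 (mem_filter.1 hx).2
      exact ⟨(hA w (mem_filter.1 hx).1).2 _ (m w hx).1 _ h3.2 h3.1.symm, (m w hx).2 v h3.2⟩
    · refine (sum_nonpos fun w hw => (sum_eq_zero fun v hv => ?_).le).trans
        (sum_nonneg fun v _ => sum_nonneg fun u _ =>
          add_nonneg (add_nonneg l3 (mul_nonneg (g2 u v) l2)) (g3 u v))
      have h3 := mem_erase.1 hv
      rcases hs w with h | h
      · simp [h.1] at h3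
      · exact absurd (card_le_one.1 (hT w hw) _ h3.2 _ h.1) h3.1
  have k4 : ∑ w ∈ S, ∑ u ∈ A w, Real.log (w (eval (fun i => (p i / q : K)) u))⁻¹ =
      ∑ w ∈ S, Real.log (w (eval (fun i => (p i / q : K)) (s w)))⁻¹ +
      ∑ w ∈ S, ∑ v ∈ (A w).erase (s w), Real.log (w (eval (fun i => (p i / q : K)) v))⁻¹ := by
    rw [← sum_add_distrib]
    refine sum_congr rfl fun w _ => ?_
    rcases hs w with h | h
    · simp [h.1, h.2]
    · exact (add_sum_erase _ _ h.1).symm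
  simp only [sum_add_distrib, sum_const, ← sum_mul, nsmul_eq_mul] at k3
  have k5 := k1.2 S'
  rw [k4, e1]
  linarith

end Pool.Agent.Lib.MP_8865d3_nt.Mk
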