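import Pool.Agent.Lib.MP_8865d3_nt.Mk.DimA

/-! The choice of the level. -/

namespace Pool.Agent.Lib.MP_8865d3_nt.Mk

open Finset Filter Module
open scoped NNReal

theorem harm {η : ℝ} (hη : 0 < η) (C : ℝ) (j₀ : ℕ) : ∃ T₁ : ℕ, ∀ (a : ℕ → ℝ) (g : ℝ), 0 < g →
    (∀ j, 0 ≤ a j) → g ≤ a j₀ → (∀ j ≤ T₁, a j ≤ C * g * (j + 1)) →
    ∃ T, j₀ < T ∧ T ≤ T₁ ∧ T * a T ≤ (2 + η) * ∑ j ∈ range T, a j := by
  have h0 : Tendsto (fun n => ∑ i ∈ range n, (1 / ((i + (j₀ + 3) : ℕ) : ℝ))) atTop atTop := by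
    refine (not_summable_iff_tendsto_nat_atTop_of_nonneg fun n => by positivity).1 fun h => ?_
    exact Real.not_summable_one_div_natCast
      ((summable_nat_add_iff (f := fun n : ℕ => (1 / (n : ℝ))) (j₀ + 3)).1 h)
  obtain ⟨n, hn⟩ := (h0.eventually_gt_atTop (C * (j₀ + 1) * (j₀ + 2) / η)).exists
  refine ⟨j₀ + n + 1, fun a g hg ha h1 h2 => ?_⟩
  by_contra hc
  push Not at hc
  have key : ∀ m ≤ n, g * (1 + η * ∑ i ∈ range m, (1 / ((i + (j₀ + 3) : ℕ) : ℝ))) *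
      ((j₀ + 1 + m) * (j₀ + 2 + m)) ≤ (∑ j ∈ range (j₀ + 1 + m), a j) * ((j₀ + 1) * (j₀ + 2)) := by
    intro m hm
    induction m with
    | zero =>
      simp only [range_zero, sum_empty, mul_zero, add_zero, mul_one, Nat.cast_zero, sum_range_succ]
      have := sum_nonneg fun j (_ : j ∈ range j₀) => ha j
      exact mul_le_mul_of_nonneg_right (by linarith) (by positivity)
    | succ m ih =>
      have h3 := ih (by omega)
      have h4 := (hc (j₀ + 1 + m) (by omega) (by omega)).le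
      rw [← add_assoc, sum_range_succ a, sum_range_succ]
      have h5 : 0 ≤ ∑ i ∈ range m, (1 / ((i + (j₀ + 3) : ℕ) : ℝ)) := by positivity
      generalize ∑ i ∈ range m, (1 / ((i + (j₀ + 3) : ℕ) : ℝ)) = σ at h3 h5
      generalize ∑ j ∈ range (j₀ + 1 + m), a j = s at h3 h4
      generalize a (j₀ + 1 + m) = b at h4
      push_cast at h4 ⊢
      obtain ⟨T, hT⟩ : ∃ T : ℝ, T = j₀ + 1 + m := ⟨_, rfl⟩
      have hT0 : 0 < T := by rw [hT]; positivity
      rw [show (j₀ + 2 + m : ℝ) = T + 1 by rw [hT]; ring, ← hT] at h3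
      rw [← hT] at h4
      rw [show (m + (j₀ + 3) : ℝ) = T + 2 by rw [hT]; ring,
        show (j₀ + 1 + (m + 1) : ℝ) = T + 1 by rw [hT]; ring,
        show (j₀ + 2 + (m + 1) : ℝ) = T + 2 by rw [hT]; ring]
      have hD : (0 : ℝ) < (j₀ + 1) * (j₀ + 2) := by positivity
      generalize ((j₀ : ℝ) + 1) * (j₀ + 2) = D at h3 hD
      refine le_of_mul_le_mul_left ?_ hT0
      have e : T * (g * (1 + η * (σ + 1 / (T + 2))) * ((T + 1) * (T + 2))) =
          (T + 2) * (g * (1 + η * σ) * (T * (T + 1))) + η * (g * (T * (T + 1))) := by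
        field_simp
        ring
      have h6 : g * (T * (T + 1)) ≤ s * D := le_trans (by
        have : 0 ≤ g * (η * σ) * (T * (T + 1)) := by positivity
        linarith) h3
      have h7 := mul_le_mul_of_nonneg_left h3 (show 0 ≤ T + 2 by positivity)
      have h8 := mul_le_mul_of_nonneg_left h6 hη.le
      have h9 := mul_le_mul_of_nonneg_right h4 hD.le
      rw [e]
      nlinarith
  have h3 := key n le_rfl
  have h4 : ∀ m ≤ j₀ + n + 1, ∑ j ∈ range m, a j ≤ C * g * (m * (m + 1)) := fun m hm => by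
    have hC : 0 ≤ C * g := by
      have := (ha 0).trans (h2 0 (by omega))
      simpa using this
    refine (sum_le_card_nsmul _ _ (C * g * (m + 1)) fun j hj => (h2 j ?_).trans ?_).trans ?_
    · have := mem_range.1 hj
      omega
    · have : (j : ℝ) ≤ m := Nat.cast_le.2 (mem_range.1 hj).le
      exact mul_le_mul_of_nonneg_left (by linarith) hC
    · rw [card_range, nsmul_eq_mul]
      exact le_of_eq (by ring)
  have h5 := h4 (j₀ + 1 + n) (by omega)
  push_cast at h5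
  rw [div_lt_iff₀ hη] at hn
  generalize ∑ i ∈ range n, (1 / ((i + (j₀ + 3) : ℕ) : ℝ)) = σ at h3 hn
  have h6 := h3.trans (mul_le_mul_of_nonneg_right h5 (by positivity))
  rw [show (j₀ + 2 + n : ℝ) = j₀ + 1 + n + 1 by ring] at h6
  have hE : (0 : ℝ) < g * ((j₀ + 1 + n) * (j₀ + 1 + n + 1)) := by positivity
  have h7 : (1 + η * σ) * (g * ((j₀ + 1 + n) * (j₀ + 1 + n + 1))) ≤
      C * (j₀ + 1) * (j₀ + 2) * (g * ((j₀ + 1 + n) * (j₀ + 1 + n + 1))) := by linarith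
  have := le_of_mul_le_mul_right h7 hE
  linarith

variable {R : Type} [CommRing R] [Algebra ℚ R] {v : Valuation R ℝ≥0}
  {hv : ∀ q : ℚ, v (algebraMap ℚ R q) ≤ 1} {x y z : R}

theorem exists_T (h1 : ∀ g, g ≠ 0 → 1 ≤ v g) (hy : 1 < v y) {C : ℕ}
    (hC : ∀ L, ∃ A, L ≤ A ∧
      finrank ℚ (Pd x (2 * A)) ≤ C * finrank ℚ ↥(Wd x y z A ⊓ Vb v hv 4))
    {θ : ℝ≥0} (hθ : 1 < θ) (d : ℕ) {η : ℝ} (hη : 0 < η) : ∃ A T : ℕ, 0 < T ∧
      (T : ℝ) * finrank ℚ ↥(Wd x y z (A + T * d) ⊓ Vb v hv (θ ^ T)) ≤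
        (2 + η) * ∑ j ∈ range T, (finrank ℚ ↥(Wd x y z (A + j * d) ⊓ Vb v hv (θ ^ j)) : ℝ) := by
  obtain ⟨κ, hκ⟩ := pow_unbounded_of_one_lt θ hy
  obtain ⟨j₀, hj⟩ := pow_unbounded_of_one_lt 4 hθ
  obtain ⟨T₁, hT⟩ := harm hη (2 * κ * C) j₀
  obtain ⟨A, a1, a2⟩ := hC (T₁ * d)
  have h0 : 0 < finrank ℚ ↥(Wd x y z A ⊓ Vb v hv 4) := by
    refine Module.finrank_pos_iff_exists_ne_zero.2 ⟨⟨1, W_one A, ?_⟩, fun e => ?_⟩
    · change v 1 ≤ 4
      rw [map_one]
      norm_num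
    · have := congrArg (fun g => v g.val) e
      simp at this
  obtain ⟨T, b1, -, b2⟩ := hT (fun j => finrank ℚ ↥(Wd x y z (A + j * d) ⊓ Vb v hv (θ ^ j)))
    (finrank ℚ ↥(Wd x y z A ⊓ Vb v hv 4)) (Nat.cast_pos.2 h0) (fun _ => Nat.cast_nonneg _)
    (Nat.cast_le.2 (Submodule.finrank_mono (inf_le_inf (W_mono (by omega))
      fun g hg => le_trans hg hj.le))) fun j hj' => by
      have c1 : θ ^ j < v y ^ (κ * (j + 1)) := by
        rw [pow_mul, pow_succ]
        exact (pow_le_pow_left₀ zero_le hκ.le j).trans_lt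
          (lt_mul_of_one_lt_right (by positivity) (hθ.trans hκ))
      have c2 := dim_le (x := x) (z := z) (hv := hv) h1 (zero_lt_one.trans hy) (2 * A) _ _ c1
      have c3 := Submodule.finrank_mono (inf_le_inf_right (Vb v hv (θ ^ j))
        (W_mono (x := x) (y := y) (z := z) (show A + j * d ≤ 2 * A by
          have := Nat.mul_le_mul_right d hj'
          omega)))
      have c4 := (c3.trans c2).trans (Nat.mul_le_mul_left _ a2)
      have c5 : ((finrank ℚ ↥(Wd x y z (A + j * d) ⊓ Vb v hv (θ ^ j)) : ℕ) : ℝ) ≤ _ :=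
        Nat.cast_le.2 c4
      push_cast at c5
      linarith
  exact ⟨A, T, by omega, b2⟩

end Pool.Agent.Lib.MP_8865d3_nt.Mk
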