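import Pool.Agent.Lib.MP_8865d3_nt.Mk.Tri
import Pool.Agent.Lib.MP_8865d3_nt.Mk.Lev

/-! The chain of subspaces in a thin strip. -/

namespace Pool.Agent.Lib.MP_8865d3_nt.Mk

open Finset Module
open scoped NNReal

variable {R : Type} [CommRing R] [Algebra ℚ R] {v : Valuation R ℝ≥0}

theorem W_mem {x y z : R} {A : ℕ} (i j l : ℕ) (hi : i ≤ A) (hj : j ≤ A) (hl : l ≤ 1) :
    x ^ i * y ^ j * z ^ l ∈ Wd x y z A := Submodule.subset_span ⟨i, hi, j, hj, l, hl, rfl⟩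

theorem Tri.sq_mem (τ : Tri R) : τ.z ^ 2 ∈ Wd τ.x τ.y τ.z 2 := by
  obtain ⟨C, x, y, z, h⟩ := τ
  have e1 : C.c • z ^ 2 = -(C.a • (x ^ 2 * y ^ 0 * z ^ 0) + C.b • (x ^ 0 * y ^ 2 * z ^ 0) +
      C.d • (x ^ 1 * y ^ 1 * z ^ 1) + C.l • (x ^ 0 * y ^ 1 * z ^ 1) +
      C.m • (x ^ 1 * y ^ 0 * z ^ 1) + C.n • (x ^ 1 * y ^ 1 * z ^ 0) +
      C.e • (x ^ 1 * y ^ 0 * z ^ 0) + C.f • (x ^ 0 * y ^ 1 * z ^ 0) +
      C.g • (x ^ 0 * y ^ 0 * z ^ 1) + C.k • (x ^ 0 * y ^ 0 * z ^ 0)) := by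
    simp only [pow_zero, pow_one, mul_one, one_mul]
    rw [Co.F] at h
    linear_combination h
  change z ^ 2 ∈ Wd x y z 2
  rw [← (Wd x y z 2).smul_mem_iff C.hc, e1]
  refine neg_mem (add_mem (add_mem (add_mem (add_mem (add_mem (add_mem (add_mem (add_mem
    (add_mem ?_ ?_) ?_) ?_) ?_) ?_) ?_) ?_) ?_) ?_) <;>
    exact Submodule.smul_mem _ _ (W_mem _ _ _ (by omega) (by omega) (by omega))

theorem Tri.Gen.mem {τ : Tri R} (h : τ.Gen) (g : R) : ∃ A, g ∈ Wd τ.x τ.y τ.z A := by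
  have hg : g ∈ Algebra.adjoin ℚ {τ.x, τ.y, τ.z} := h ▸ Algebra.mem_top
  induction hg using Algebra.adjoin_induction with
  | mem g hg =>
    rcases hg with rfl | rfl | rfl
    · exact ⟨1, by simpa using W_mem (x := τ.x) (y := τ.y) (z := τ.z) (A := 1) 1 0 0⟩
    · exact ⟨1, by simpa using W_mem (x := τ.x) (y := τ.y) (z := τ.z) (A := 1) 0 1 0⟩
    · exact ⟨1, by simpa using W_mem (x := τ.x) (y := τ.y) (z := τ.z) (A := 1) 0 0 1⟩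
  | algebraMap q =>
    exact ⟨0, by rw [Algebra.algebraMap_eq_smul_one]; exact Submodule.smul_mem _ _ (W_one 0)⟩
  | add g g' _ _ k k' =>
    obtain ⟨A, k⟩ := k
    obtain ⟨B, k'⟩ := k'
    exact ⟨A + B, add_mem (W_mono (by omega) k) (W_mono (by omega) k')⟩
  | mul g g' _ _ k k' =>
    obtain ⟨A, k⟩ := k
    obtain ⟨B, k'⟩ := k'
    exact ⟨_, W_mul τ.sq_mem k k'⟩

/-- A generating triple for which the spaces of small value are large. -/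
theorem frame (hv : Sz v) {τ : Tri R} (hτ : τ.Good v) (hg : τ.Gen) :
    ∃ (σ : Tri R) (C : ℕ), σ.Gen ∧ 1 < v σ.y ∧ ∀ L, ∃ A, L ≤ A ∧
      finrank ℚ (Pd σ.x (2 * A)) ≤ C * finrank ℚ ↥(Wd σ.x σ.y σ.z A ⊓ Vb v hv.cst 4) := by
  have B : ∀ σ : Tri R, σ.Gen → σ.Good v → v σ.x ≤ 1 → ∃ (σ : Tri R) (C : ℕ), σ.Gen ∧
      1 < v σ.y ∧ ∀ L, ∃ A, L ≤ A ∧
      finrank ℚ (Pd σ.x (2 * A)) ≤ C * finrank ℚ ↥(Wd σ.x σ.y σ.z A ⊓ Vb v hv.cst 4) :=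
    fun σ a b c => ⟨σ, 2, a, b.one_lt' hv c, fun L => ⟨L, le_rfl, flat c L⟩⟩
  by_cases hy : v τ.y ≤ 1
  · exact B τ.sw hg.sw hτ.sw hy
  obtain ⟨J, hJ⟩ := pow_unbounded_of_one_lt (v τ.x ^ 3 * v τ.y ^ 3) (one_lt_two (α := ℝ≥0))
  rcases Tri.desc hv (fun σ => σ.Gen ∧ ∃ A₁ A₂, σ.x ∈ Wd τ.x τ.y τ.z A₁ ∧
    σ.y ∈ Wd τ.x τ.y τ.z A₂ ∧ σ.z ∈ Wd τ.x τ.y τ.z (A₁ + A₂ + 2) ∧
    v σ.x ^ (A₂ + 2) * v σ.y ^ (A₁ + 2) ≤ 2 ^ J)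
    (fun σ ⟨a, A₁, A₂, a1, a2, a3, a4⟩ =>
      ⟨a.sw, A₂, A₁, a2, a1, by rwa [add_comm A₂], by rwa [mul_comm]⟩)
    (fun σ ⟨a, A₁, A₂, a1, a2, a3, a4⟩ b c d => ⟨a.mv, A₁, A₁ + A₂ + 2, a1,
      sub_mem (neg_mem (Submodule.smul_mem _ _ (add_mem (add_mem (add_mem
        (Submodule.smul_mem _ _ (W_mul τ.sq_mem a1 a2))
        (Submodule.smul_mem _ _ (W_mono (by omega) a2)))
        (Submodule.smul_mem _ _ (W_mono (by omega) a1))) (Submodule.smul_mem _ _ (W_one _))))) a3,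
      W_mono (by omega) a2, le_trans (by
        rw [show A₁ + A₂ + 2 + 2 = A₂ + 2 + (A₁ + 2) by omega, pow_add, mul_assoc, ← mul_pow]
        exact mul_le_mul_right (pow_le_pow_left₀ zero_le (b.mv_le hv c.le d) _) _) a4⟩)
    ⟨hg, 1, 1, by simpa using W_mem (x := τ.x) (y := τ.y) (z := τ.z) (A := 1) 1 0 0,
      by simpa using W_mem (x := τ.x) (y := τ.y) (z := τ.z) (A := 1) 0 1 0,
      by simpa using W_mem (x := τ.x) (y := τ.y) (z := τ.z) (A := 4) 0 0 1, hJ.le⟩ hτ with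
    ⟨σ, a, b, c⟩ | h
  · exact B σ a.1 b c
  · refine ⟨τ, 4 * J + 5, hg, not_le.1 hy, fun L => ?_⟩
    obtain ⟨σ, ⟨-, A₁, A₂, a1, a2, -, a4⟩, -, b1, b2, b3, b4⟩ := h L
    exact strip τ.sq_mem a2 a1 b2 b1 (fun m n e => b4 n m e.symm) (by rwa [mul_comm]) (.inr b3)

theorem chain (hv : Sz v) {τ : Tri R} (hτ : τ.Good v) (hg : τ.Gen) (Φ : Finset R) {θ : ℝ≥0}
    (hθ : 1 < θ) (hΦ : ∀ φ ∈ Φ, v φ ≤ θ) {η : ℝ} (hη : 0 < η) :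
    ∃ (T : ℕ) (U : ℕ → Submodule ℚ R), (∀ j, FiniteDimensional ℚ (U j)) ∧ Monotone U ∧
      (∀ j, ∀ g ∈ U j, v g ≤ θ ^ j) ∧ (∀ j, ∀ φ ∈ Φ, ∀ g ∈ U j, φ * g ∈ U (j + 1)) ∧
      0 < ∑ j ∈ range T, finrank ℚ (U j) ∧
      (T * finrank ℚ (U T) : ℝ) ≤ (2 + η) * ∑ j ∈ range T, (finrank ℚ (U j) : ℝ) := by
  obtain ⟨σ, C, a1, a2, a3⟩ := frame hv hτ hg
  choose D hD using a1.mem
  obtain ⟨A, T, b1, b2⟩ := exists_T (hv := hv.cst) hv.ge a2 a3 hθ (Φ.sup D + 2) hη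
  refine ⟨T, fun j => Wd σ.x σ.y σ.z (A + j * (Φ.sup D + 2)) ⊓ Vb v hv.cst (θ ^ j),
    fun j => finV _ _, fun i j h => inf_le_inf (W_mono (by gcongr))
      fun g hg => le_trans hg (pow_le_pow_right₀ hθ.le h), fun j g hg => hg.2,
    fun j φ hφ g hg => ⟨W_mono ?_ (W_mul σ.sq_mem (hD φ) hg.1), ?_⟩, ?_, b2⟩
  · have := le_sup (f := D) hφ
    rw [add_mul]
    omega
  · change v _ ≤ _
    rw [map_mul, pow_succ']
    exact mul_le_mul' (hΦ φ hφ) hg.2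
  · refine sum_pos (fun j _ => ?_) (nonempty_range_iff.2 b1.ne')
    refine Module.finrank_pos_iff_exists_ne_zero.2 ⟨⟨1, W_one _, ?_⟩, fun e => ?_⟩
    · change v 1 ≤ _
      rw [map_one]
      exact one_le_pow₀ hθ.le
    · have := congrArg (fun g => v g.val) e
      simp at this

end Pool.Agent.Lib.MP_8865d3_nt.Mk
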