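import Pool.Agent.Lib.MP_8865d3_nt.Mk.CoreA
import Pool.Agent.Lib.MP_8865d3_nt.Mk.Dim

/-! The inequality along an ultrafilter. -/

namespace Pool.Agent.Lib.MP_8865d3_nt.Mk

open Finset Module NumberField Filter Matrix Pool.Agent.Lib.MP_651af7_nt Av
open scoped NNReal

namespace Sq

variable {β : Type} (D : Sq β) (K : Type) [Field K] [NumberField K]

theorem pow_mul_mem {U : ℕ → Submodule ℚ D.R} {J : Type} [Fintype J] (ω : J → K) (φ : J → D.R)
    (h : ∀ j i, ∀ g ∈ U j, φ i * g ∈ U (j + 1)) (n j : ℕ) {g : D.R} (hg : g ∈ U j) :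
    (∑ i, ω i • D.io K (φ i)) ^ n * D.io K g ∈ Submodule.span K (D.io K '' U (j + n)) := by
  induction n with
  | zero => exact Submodule.subset_span ⟨g, hg, by simp⟩
  | succ n ih =>
    rw [pow_succ', mul_assoc]
    generalize (∑ i, ω i • D.io K (φ i)) ^ n * D.io K g = s at ih
    induction ih using Submodule.span_induction with
    | mem s hs =>
      obtain ⟨g', hg', rfl⟩ := hs
      rw [sum_mul]
      refine sum_mem fun i _ => ?_
      rw [smul_mul_assoc, ← map_mul]
      exact Submodule.smul_mem _ _ (Submodule.subset_span ⟨_, h _ i _ hg', rfl⟩)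
    | zero => simp
    | add a b _ _ ha hb => rw [mul_add]; exact add_mem ha hb
    | smul c a _ ha => rw [mul_smul_comm]; exact Submodule.smul_mem _ _ ha

theorem exists_coord {V : Submodule ℚ D.R} {N : ℕ} (e : Basis (Fin N) ℚ V) {s : Up D.U K}
    (hs : s ∈ Submodule.span K (D.io K '' V)) : ∃ u : Fin N → K, ∑ l, u l • D.io K (e l) = s := by
  refine (Submodule.mem_span_range_iff_exists_fun K).1 (Submodule.span_le.2 ?_ hs)
  rintro _ ⟨g, hg, rfl⟩
  have := congrArg (fun z : V => D.io K z) (e.sum_repr ⟨g, hg⟩)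
  simp only [Submodule.coe_sum, Submodule.coe_smul, map_sum, io_smul] at this
  exact (Submodule.mem_span_range_iff_exists_fun K).2 ⟨_, this⟩

theorem core {C : Co} (h : D.On C) (S : Finset (FinitePlace K)) {θ : ℝ≥0} (hθ : 1 < θ) {J : Type}
    [Fintype J] (ω : S → J → K) (φ : S → J → A3) (hφ : ∀ w j, D.v (φ w j) ≤ θ)
    (hne : ∀ w, ∀ᶠ b in D.U, ∑ j, ω w j * (D.ev b (φ w j) : K) ≠ 0) {η : ℝ} (hη : 0 < η) :
    ∀ᶠ b in D.U, -∑ w : S, Real.log (w.1 (∑ j, ω w j * (D.ev b (φ w j) : K))) ≤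
      (finrank ℚ K * Real.log θ + η) * D.h b := by
  classical
  obtain ⟨τ, hτ, hg⟩ := D.exists_tri h
  set n : ℝ := (finrank ℚ K : ℝ) with hn
  set L := Real.log θ with hL
  have n0 : 0 ≤ n := Nat.cast_nonneg _
  have L0 : 0 < L := Real.log_pos hθ
  obtain ⟨T, U, hfd, hm, hv, hmul, h0, h1⟩ := chain D.sz hτ hg
    (univ.image fun u : S × J => D.cl (φ u.1 u.2)) hθ (fun g hg => by
      obtain ⟨u, -, rfl⟩ := mem_image.1 hg
      exact hφ _ _) (η := η / 4 / (n * L + 1)) (by positivity)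
  set N := finrank ℚ (U T) with hN
  set s := ∑ j ∈ range T, finrank ℚ (U j) with hs
  have hs' : ∑ j ∈ range T, finrank ℚ (U (T - (j + 1))) = s := by
    rw [hs, ← sum_range_reflect]
    exact sum_congr rfl fun j hj => by rw [show T - (T - 1 - j + 1) = j by grind]
  have N0 : 0 < N := by
    obtain ⟨j, hj, h2⟩ := exists_ne_zero_of_sum_ne_zero h0.ne'
    exact (Nat.pos_of_ne_zero h2).trans_le (Submodule.finrank_mono (hm (mem_range.1 hj).le))
  obtain ⟨e, o, e1, e2, e3⟩ := adapt (fun m => (U (T - m)).comap (U T).subtype)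
    (fun i j hij => Submodule.comap_mono (hm (Nat.sub_le_sub_left hij T)))
    (Submodule.comap_subtype_self _) T hN.symm
  rw [sum_congr rfl fun j _ => (Submodule.comapSubtypeEquivOfLe
    (hm (Nat.sub_le T (j + 1)))).finrank_eq, hs'] at e3
  choose B hB using fun l => D.cl_surj (e l)
  obtain ⟨c, M, hc, hz⟩ := D.int_fam B
  choose z hz using hz
  let t : β → Fin N → K := fun b l => z b l
  have hs0 : ∀ b, (c * (D.q b : K) ^ M) ≠ 0 := fun b =>
    mul_ne_zero (Nat.cast_ne_zero.2 hc.ne') (pow_ne_zero _ (Nat.cast_ne_zero.2 (D.q0 b).ne'))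
  have ht : ∀ b u, u ⬝ᵥ t b = c * (D.q b : K) ^ M * ∑ l, u l * (D.ev b (B l) : K) := fun b u => by
    rw [mul_sum]
    refine sum_congr rfl fun l _ => ?_
    have := congrArg (Rat.cast : ℚ → K) (hz b l)
    push_cast at this
    rw [mul_left_comm, this]
  have hI := D.indep K (e.linearIndependent.map' (U T).subtype (U T).ker_subtype)
  have hio : ∀ u : Fin N → K, ∑ l, u l • D.io K (e l) =
      germ D.U fun b => ∑ l, u l * (D.ev b (B l) : K) := fun u => by
    simp only [← hB, io_sum]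
  have hex : ∀ w : S, _ := fun w => exists_forms w.1.1 D.U t
    (fun b l => Es.fin_le_oneA _ (isIntegral_algebraMap (x := z b l))) _ (hne w) T
    (fun m => finrank ℚ (U (T - (m + 1)))) fun m hm' => by
      let g := finBasis ℚ (U (T - (m + 1)))
      have hf : ∑ i, ω w i • D.io K (D.cl (φ w i)) = _ := D.io_sum K _ _
      choose u hu using fun i => D.exists_coord K e (s := (∑ i, ω w i • D.io K (D.cl (φ w i))) ^
        (m + 1) * D.io K (g i)) (by
          have := D.pow_mul_mem K (ω w) (fun i => D.cl (φ w i)) (fun j i => hmul j _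
            (mem_image.2 ⟨(w, i), mem_univ _, rfl⟩)) (m + 1) _ (g i).2
          rwa [Nat.sub_add_cancel hm'] at this)
      choose u' hu' using fun i => D.exists_coord K e (s := D.io K (g i))
        (Submodule.subset_span ⟨_, hm (Nat.sub_le _ _) (g i).2, rfl⟩)
      refine ⟨u, u', ?_, fun i => ?_⟩
      · refine LinearIndependent.of_comp (Fintype.linearCombination K fun l => D.io K (e l)) ?_
        have := (D.indep K (g.linearIndependent.map' _ (Submodule.ker_subtype _))).map'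
          (LinearMap.mulLeft K ((∑ i, ω w i • D.io K (D.cl (φ w i))) ^ (m + 1)))
          (LinearMap.ker_eq_bot.2 (mul_right_injective₀
            (pow_ne_zero _ (hf ▸ germ_ne_zero.2 (hne w)))))
        exact (funext hu : ⇑(Fintype.linearCombination K fun l => D.io K (e l)) ∘ u = _) ▸ this
      · have := hu i
        rw [← hu', hf, hio, hio, ← map_pow, ← map_mul, germ_eq] at this
        refine this.mono fun b hb => ?_
        rw [ht, ht, hb, mul_left_comm]
        rfl
  choose G C₁ hG hC₁ using hex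
  rw [hs'] at hC₁
  obtain ⟨δ, hδ, hδ'⟩ : ∃ δ : ℝ, 0 < δ ∧ n * (2 * N * δ) ≤ η / 4 :=
    ⟨η / 4 / (2 * n * N + 1), by positivity, by
      rw [← mul_assoc, ← mul_div_assoc, div_le_iff₀ (by positivity)]
      nlinarith⟩
  obtain ⟨ε, hε, hε'⟩ : ∃ ε : ℝ, 0 < ε ∧ ε * (n * (T * L + δ + δ)) ≤ η / 4 :=
    ⟨η / 4 / (n * (T * L + δ + δ) + 1), by positivity, by
      rw [div_mul_eq_mul_div, div_le_iff₀ (by positivity)]
      nlinarith⟩
  have hb : ∀ᶠ b in D.U, ∀ l (w : InfinitePlace K),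
      w (t b l) ≤ Real.exp ((((T - o l : ℕ) : ℝ) * L + δ + δ) * D.h b) := by
    filter_upwards [D.den_le hc M hδ, eventually_all.2 fun l => D.le_pow hθ (g := B l)
      (j := T - o l) ((congrArg D.w (hB l)).le.trans (hv _ _ (e1 l))) hδ] with b a1 a2 l w
    have := congrArg (Rat.cast : ℚ → ℝ) (hz b l)
    push_cast at this
    rw [show w (t b l) = |(z b l : ℝ)| by simp [t, Int.norm_eq_abs], ← this, abs_mul, abs_of_nonneg (by positivity),
      add_mul, Real.exp_add, mul_comm]
    exact mul_le_mul (a2 l) a1 (by positivity) (Real.exp_pos _).le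
  obtain ⟨C₂, hC₂⟩ := subI D.U N0 t (fun u hu => funext (Fintype.linearIndependent_iff.1 hI u
      ((hio u).trans (germ_eq_zero.2 (hu.mono fun b hb => by
        rw [ht] at hb
        exact (mul_eq_zero.1 hb).resolve_left (hs0 b))))))
    (fun b => (T * L + δ + δ) * D.h b) (by
      filter_upwards [hb, D.h_big.eventually_ge_atTop 0] with b a1 a2 l
      refine ⟨isIntegral_algebraMap (x := z b l), fun w => (a1 l w).trans
        (Real.exp_le_exp.2 (mul_le_mul_of_nonneg_right ?_ a2))⟩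
      have : ((T - o l : ℕ) : ℝ) ≤ T := Nat.cast_le.2 (Nat.sub_le _ _)
      nlinarith) S G hG hε
  filter_upwards [hb, hC₂, eventually_all.2 hC₁, eventually_all.2 hne,
    D.h_big.eventually_ge_atTop 0, D.h_big.eventually_ge_atTop ((∑ w, C₁ w + C₂) / (η / 4))]
    with b a1 ⟨a2, a3, a4⟩ a5 a6 a7 a8
  rw [div_le_iff₀ (by positivity)] at a8
  have b1 : ∀ w : InfinitePlace K, ∑ l, Real.log (w (t b l)) ≤
      ((T * N - s) * L + 2 * N * δ) * D.h b := fun w => by
    refine (sum_le_sum fun l _ => (Real.log_le_iff_le_exp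
      (InfinitePlace.pos_iff.2 (a3 l))).2 (a1 l w)).trans ?_
    rw [← sum_mul]
    refine mul_le_mul_of_nonneg_right ?_ a7
    simp only [sum_add_distrib, Nat.cast_sub (e2 _), ← sum_mul, sum_sub_distrib, sum_const,
      card_univ, Fintype.card_fin, nsmul_eq_mul]
    have : (s : ℝ) ≤ ∑ l, (o l : ℝ) := by exact_mod_cast e3
    nlinarith
  have b2 : ∑ w : InfinitePlace K, w.mult * ∑ l, Real.log (w (t b l)) ≤
      n * (((T * N - s) * L + 2 * N * δ) * D.h b) := by
    rw [hn, ← InfinitePlace.sum_mult_eq, Nat.cast_sum, sum_mul]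
    exact sum_le_sum fun w _ => mul_le_mul_of_nonneg_left (b1 w) (Nat.cast_nonneg _)
  have b3 := sum_le_sum fun w (_ : w ∈ univ) => a5 w (a2 w)
  rw [sum_add_distrib, ← mul_sum] at b3
  have b4 : ∑ w : S, Real.log (min 1 (w.1.1 (∑ j, ω w j * (D.ev b (φ w j) : K)))) ≤
      ∑ w : S, Real.log (w.1 (∑ j, ω w j * (D.ev b (φ w j) : K))) := sum_le_sum fun w _ =>
    Real.log_le_log (lt_min one_pos (w.1.1.pos (a6 w))) (min_le_right _ _)
  set m := ∑ w : S, Real.log (min 1 (w.1.1 (∑ j, ω w j * (D.ev b (φ w j) : K)))) with hm'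
  have s1 : (1 : ℝ) ≤ s := Nat.one_le_cast.2 h0
  rw [← Nat.cast_sum, ← hs] at h1
  have b5 : n * L * (η / 4 / (n * L + 1)) ≤ η / 4 := by
    rw [← mul_div_assoc, div_le_iff₀ (by positivity)]
    nlinarith
  have b6 : n * ((T * N - s) * L) ≤ s * (n * L + η / 4) := by
    have c1 := mul_le_mul_of_nonneg_left h1 (mul_nonneg n0 L0.le)
    have c2 := mul_le_mul_of_nonneg_left b5 (zero_le_one.trans s1)
    nlinarith
  have b7 := mul_le_mul_of_nonneg_right b6 a7
  have b8 := mul_le_mul_of_nonneg_right hδ' a7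
  have b9 := mul_le_mul_of_nonneg_right hε' a7
  have c1 : (s : ℝ) * -m ≤ s * ((n * L + η) * D.h b) := by
    have c2 := mul_le_mul_of_nonneg_right s1 (mul_nonneg hη.le a7)
    change _ ≤ ∑ w, C₁ w + s * m at b3
    change 0 ≤ _ + ∑ w : S, ∑ l, Real.log (w.1.1 ((G w *ᵥ t b) l)) + _ + _ at a4
    nlinarith
  linarith [le_of_mul_le_mul_left c1 (zero_lt_one.trans_le s1)]

end Sq

end Pool.Agent.Lib.MP_8865d3_nt.Mk
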