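import Pool.Agent.Lib.MP_651af7_nt.Fc.Eng

/-! The subspace theorem over a number field along an ultrafilter. -/

namespace Pool.Agent.Lib.MP_8865d3_nt.Mk

open MvPolynomial Finset Height NumberField Matrix Filter Pool.Agent.Lib.MP_651af7_nt Av As
open Rt (Pl av mu)
open Es (vol)
open Ex (lx)

variable {k : Type} [Field k]

theorem prj_sub (R : Type) [CommRing R] [Algebra k R] :
    Subsingleton (Prj (⊥ : Ideal (MvPolynomial Unit k)) R) := by
  refine ⟨fun a b => ?_⟩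
  induction a using Quotient.inductionOn with | _ a => ?_
  induction b using Quotient.inductionOn with | _ b => ?_
  obtain ⟨⟨⟩, u, hu⟩ := a.unit
  obtain ⟨⟨⟩, w, hw⟩ := b.unit
  exact Quotient.sound ⟨w * u⁻¹, fun ⟨⟩ => by rw [← hu, ← hw]; simp⟩

theorem prj_unit {R : Type} [CommRing R] [Algebra k R]
    (p : Prj (⊥ : Ideal (MvPolynomial Unit k)) R) : ∃ u : Rˣ, ∀ a, p.co a = u := by
  obtain ⟨⟨⟩, u, hu⟩ := (Quotient.out p : Vec _ R).unit
  exact ⟨u, fun ⟨⟩ => hu.symm⟩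

/-- The one point set of points. -/
@[reducible] noncomputable def prjU (R : Type) [CommRing R] [Algebra k R] :
    Unique (Prj (⊥ : Ideal (MvPolynomial Unit k)) R) :=
  @uniqueOfSubsingleton _ (prj_sub R) (Quotient.mk _ ⟨fun _ => 1, ⟨(), isUnit_one⟩, fun P hP => by
    rw [Ideal.mem_bot.1 hP, map_zero]⟩)

variable (k) in
/-- The abelian variety of dimension zero. -/
noncomputable def av0 : AV k Unit where
  I := ⊥
  hom P hP d := by rw [Ideal.mem_bot.1 hP, map_zero]; exact zero_mem _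
  prime M _ _ := by rw [Ideal.map_bot]; exact Ideal.isPrime_bot
  Φ _ _ := X (Sum.inl ()) * X (Sum.inl ()) * (X (Sum.inr ()) * X (Sum.inr ()))
  bih _ _ := ((isWeightedHomogeneous_X k (bw Unit Unit) _).mul (isWeightedHomogeneous_X k _ _)).mul
    ((isWeightedHomogeneous_X k _ _).mul (isWeightedHomogeneous_X k _ _))
  ao := ()
  o _ := 1
  o_ao := rfl
  grp R _ _ _ := (@Equiv.ofUnique _ PUnit.{1} (prjU R) _).addCommGroup
  law₀ R _ _ _ := by
    let _ := (@Equiv.ofUnique _ PUnit.{1} (prjU (k := k) R) _).addCommGroup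
    refine ⟨?_, fun p q => ?_⟩
    · obtain ⟨u, hu⟩ := prj_unit (0 : Prj (⊥ : Ideal (MvPolynomial Unit k)) R)
      exact ⟨u⁻¹, fun a => by rw [hu]; simp⟩
    · obtain ⟨a, ha⟩ := prj_unit p
      obtain ⟨b, hb⟩ := prj_unit q
      obtain ⟨c, hc⟩ := prj_unit (p + q)
      obtain ⟨d, hd⟩ := prj_unit (p - q)
      refine ⟨a * a * (b * b) * (c * d)⁻¹, fun _ _ => ?_⟩
      rw [hc, hd, ← Units.val_mul c d, ← Units.val_mul, inv_mul_cancel_right]
      simp [ha, hb]

theorem const_of_alg {α : Type} {U : Ultrafilter α} {u : Up U k} (h : IsAlgebraic k u) :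
    ∃ c : k, u = germ U fun _ => c := by
  classical
  obtain ⟨f, rfl⟩ := germ_surj U u
  obtain ⟨P, h0, h1⟩ := h
  rw [← germA_apply, Polynomial.aeval_algHom_apply, germA_apply, germ_eq_zero] at h1
  have h2 : ∀ᶠ n in U, ∃ c ∈ P.roots.toFinset, f n = c := h1.mono fun n hn =>
    ⟨f n, Multiset.mem_toFinset.2 ((Polynomial.mem_roots h0).2 (by
      have := Polynomial.aeval_algHom_apply (Pi.evalAlgHom k (fun _ : α => k) n) f P
      simpa [hn] using this)), rfl⟩
  obtain ⟨c, -, hc⟩ := (Ultrafilter.eventually_exists_mem_iff (Finset.finite_toSet _)).1 h2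
  exact ⟨c, (germ_eq U).2 hc⟩

variable [NumberField k]

theorem subK {β : Type} (U : Ultrafilter β) {r : ℕ} (t : β → Fin r → k)
    (hI : ∀ w : Fin r → k, (∀ᶠ b in U, w ⬝ᵥ t b = 0) → w = 0) (S : Finset (FinitePlace k))
    (G : Pl S → Matrix (Fin r) (Fin r) k) (hG : ∀ p, (G p).det ≠ 0) {ε : ℝ} (hε : 0 < ε) :
    ∃ C : ℝ, ∀ᶠ b in U, (∀ p l, (G p *ᵥ t b) l ≠ 0) ∧
      vol (fun p l => lx (av p) (t b) ((G p *ᵥ t b) l)) ≤
        r * logHeight (t b) + ε * logHeight (t b) + C := by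
  classical
  have H : Fc.HI (U : Filter β) (fun _ (_ : Unit) => (1 : k)) t := fun α V j hj w hw h0 => by
    choose c hc using fun l => const_of_alg (U := V) (u := w l) (by
      have : Algebra.IsAlgebraic k (IntermediateField.adjoin k
          (Set.range (gv V fun _ (_ : Unit) => (1 : k)))) :=
        IntermediateField.isAlgebraic_adjoin (by
          rintro _ ⟨a, rfl⟩
          exact isIntegral_algebraMap (x := (1 : k)))
      exact (mem_cl'.1 (hw l)).restrictScalars k)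
    obtain rfl : w = gv V fun _ => c := funext hc
    rw [gv_dot, germ_eq_zero] at h0
    obtain rfl : c = 0 := hI c (by
      by_contra h
      exact (h0.and (hj.eventually (Ultrafilter.eventually_not.2 h))).exists.elim
        fun m hm => hm.2 hm.1)
    funext l
    exact germ_eq_zero.2 (Eventually.of_forall fun _ => rfl)
  obtain ⟨W, hW, h⟩ := Fc.mainT (av0 k) ()
    (univ.image fun u : Pl S × Fin r => fun i => C (G u.1 u.2 i)) H hε
  obtain ⟨C₀, hC⟩ := h S (fun p => (G p).map C) fun p l => mem_image.2 ⟨(p, l), mem_univ _, rfl⟩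
  have e : ∀ p, ((G p).map (C : k → MvPolynomial Unit k)).map (eval fun _ => (1 : k)) = G p :=
    fun p => by ext i j; simp
  have hne : ∀ᶠ b in U, ∀ p l, (G p *ᵥ t b) l ≠ 0 := by
    refine eventually_all.2 fun p => eventually_all.2 fun l => Ultrafilter.eventually_not.2
      fun h => hG p (det_eq_zero_of_row_eq_zero l (congrFun (hI (G p l) h)))
  refine ⟨C₀, (hne.and hW).mono fun b hb => ⟨hb.1, ?_⟩⟩
  have h1 := hC b hb.2 ⟨rfl, fun f hf => by rw [Ideal.mem_bot.1 hf, map_zero]⟩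
  simp only [e] at h1
  have h2 := h1 hG hb.1
  rwa [show (fun _ : Unit => (1 : k)) = 1 from rfl, logHeight_one, zero_add] at h2

theorem ht_le_sum (S : Finset (FinitePlace k)) {ι : Type} [Fintype ι] {x : ι → k} (hx : x ≠ 0)
    (hi : ∀ i, IsIntegral ℤ (x i)) :
    logHeight x ≤ ∑ p : Pl S, mu p * Real.log (⨆ i, av p (x i)) := by
  have : Nonempty ι := (Function.ne_iff.1 hx).nonempty
  have h := Es.gsum_le_S S (Es.finS_sup x) Vj.pf_finS_zero (fun p => Real.log (⨆ i, av p (x i)))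
    (fun p => by simp) fun v _ => Real.log_nonpos (Es.sup_pos v.1 hx).le
      (ciSup_le fun i => Es.fin_le_oneA v (hi i))
  rwa [Es.gsum_sup hx, Vj.pf_gsum_zero, zero_add] at h

theorem sum_mu_inf (S : Finset (FinitePlace k)) (f : Pl S → ℝ) :
    ∑ p, mu p * f p = ∑ w : InfinitePlace k, w.mult * f (.inl w) + ∑ w : S, f (.inr w) := by
  rw [Fintype.sum_sum_type]
  simp [mu]

/-- The form used later: integral points of controlled size. -/
theorem subI {β : Type} (U : Ultrafilter β) {r : ℕ} (hr : 0 < r) (t : β → Fin r → k)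
    (hI : ∀ w : Fin r → k, (∀ᶠ b in U, w ⬝ᵥ t b = 0) → w = 0) (B : β → ℝ)
    (ht : ∀ᶠ b in U, ∀ i, IsIntegral ℤ (t b i) ∧ ∀ w : InfinitePlace k, w (t b i) ≤ Real.exp (B b))
    (S : Finset (FinitePlace k)) (G : S → Matrix (Fin r) (Fin r) k) (hG : ∀ p, (G p).det ≠ 0)
    {ε : ℝ} (hε : 0 < ε) :
    ∃ C : ℝ, ∀ᶠ b in U, (∀ p l, (G p *ᵥ t b) l ≠ 0) ∧ (∀ l, t b l ≠ 0) ∧
      0 ≤ ∑ w : InfinitePlace k, w.mult * ∑ l, Real.log (w (t b l)) +
        ∑ w : S, ∑ l, Real.log (w.1 ((G w *ᵥ t b) l)) + ε * (Module.finrank ℚ k * B b) + C := by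
  obtain ⟨C, hC⟩ := subK U t hI S (Sum.elim (fun _ => 1) G) (by
    rintro (w | w)
    · simp
    · exact hG w) hε
  refine ⟨C, (hC.and ht).mono fun b ⟨⟨h1, h2⟩, h3⟩ => ?_⟩
  obtain ⟨w₀⟩ : Nonempty (InfinitePlace k) := inferInstance
  have h4 : ∀ l, t b l ≠ 0 := fun l => by simpa using h1 (.inl w₀) l
  have h5 : t b ≠ 0 := fun h => h4 ⟨0, hr⟩ (congrFun h _)
  have : Nonempty (Fin r) := ⟨⟨0, hr⟩⟩
  refine ⟨fun p => h1 (.inr p), h4, ?_⟩
  have h6 := ht_le_sum S h5 fun i => (h3 i).1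
  have h7 := ht_le_sum ∅ h5 fun i => (h3 i).1
  have h8 : logHeight (t b) ≤ Module.finrank ℚ k * B b := by
    refine h7.trans ?_
    rw [sum_mu_inf, ← InfinitePlace.sum_mult_eq, Nat.cast_sum, sum_mul]
    simp only [univ_eq_empty, sum_empty, add_zero]
    refine sum_le_sum fun w _ => mul_le_mul_of_nonneg_left ?_ (Nat.cast_nonneg _)
    rw [Real.log_le_iff_le_exp (Es.sup_pos _ h5)]
    exact ciSup_le fun i => (h3 i).2 w
  have h9 : vol (fun (p : Pl S) l => lx (av p) (t b) ((Sum.elim (fun _ => 1) G p *ᵥ t b) l)) =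
      r * ∑ p : Pl S, mu p * Real.log (⨆ i, av p (t b i)) -
        ∑ p : Pl S, mu p * ∑ l, Real.log (av p ((Sum.elim (fun _ => 1) G p *ᵥ t b) l)) := by
    rw [vol, mul_sum, ← sum_sub_distrib]
    refine sum_congr rfl fun p _ => ?_
    rw [sum_congr rfl fun l _ => show lx (av p) (t b) _ = _ from
      Real.log_div (Es.sup_pos _ h5).ne' ((av p).pos (h1 p l)).ne', sum_sub_distrib]
    simp only [sum_const, card_univ, Fintype.card_fin, nsmul_eq_mul]
    ring
  rw [h9, sum_mu_inf S fun p => ∑ l, Real.log (av p ((Sum.elim (fun _ => 1) G p *ᵥ t b) l))] at h2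
  simp only [Sum.elim_inl, Sum.elim_inr, one_mulVec, av] at h2 h6
  change _ - (∑ w : InfinitePlace k, w.mult * ∑ l, Real.log (w (t b l)) +
    ∑ w : S, ∑ l, Real.log (w.1 ((G w *ᵥ t b) l))) ≤ _ at h2
  have a1 := mul_le_mul_of_nonneg_left h6 (Nat.cast_nonneg (α := ℝ) r)
  have a2 := mul_le_mul_of_nonneg_left h8 hε.le
  linarith

end Pool.Agent.Lib.MP_8865d3_nt.Mk
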