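import Mathlib

/-! Growth rates along an ultrafilter. -/

open Filter Topology
open scoped NNReal

namespace Pool.Agent.Lib.MP_8865d3_nt.Mk

variable {β A : Type*} [CommRing A] {U : Ultrafilter β} {h : β → ℝ}

theorem tend_const (hh : Tendsto h U atTop) {c : ℝ} (hc : 0 < c) :
    Tendsto (fun b => c ^ (h b)⁻¹) U (𝓝 1) := by
  have := (tendsto_const_nhds (x := c)).rpow hh.inv_tendsto_atTop (Or.inl hc.ne')
  rwa [Real.rpow_zero] at this

/-- The growth rate along an ultrafilter is a valuation. -/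
theorem exists_val (e : β → A →+* ℝ) (hh : Tendsto h U atTop)
    (hb : ∀ g, ∃ M : ℝ, ∀ᶠ b in U, |e b g| ≤ Real.exp (M * h b)) :
    ∃ v : Valuation A ℝ≥0, ∀ g, Tendsto (fun b => |e b g| ^ (h b)⁻¹) U (𝓝 (v g)) := by
  have h0 : ∀ᶠ b in U, 0 < h b := hh.eventually_gt_atTop 0
  have hn : ∀ b g, 0 ≤ |e b g| ^ (h b)⁻¹ := fun b g => Real.rpow_nonneg (abs_nonneg _) _
  have key : ∀ g, ∃ r : ℝ≥0, Tendsto (fun b => |e b g| ^ (h b)⁻¹) U (𝓝 r) := fun g => by
    obtain ⟨M, hM⟩ := hb g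
    obtain ⟨r, h1, h2⟩ := (isCompact_Icc (a := (0 : ℝ)) (b := Real.exp M)).ultrafilter_le_nhds
      (U.map fun b => |e b g| ^ (h b)⁻¹) (le_principal_iff.2 (by
        rw [Ultrafilter.coe_map, mem_map]
        filter_upwards [hM, h0] with b k1 k2
        refine ⟨hn b g, (Real.rpow_le_rpow (abs_nonneg _) k1 (inv_pos.2 k2).le).trans_eq ?_⟩
        rw [← Real.exp_mul, mul_inv_cancel_right₀ k2.ne']))
    exact ⟨⟨r, h1.1⟩, h2⟩
  choose v hv using key
  refine ⟨⟨⟨⟨v, ?_⟩, ?_, fun f g => ?_⟩, fun f g => ?_⟩, hv⟩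
  · refine NNReal.eq (tendsto_nhds_unique_of_eventuallyEq (hv 0) tendsto_const_nhds ?_)
    filter_upwards [h0] with b k
    rw [map_zero, abs_zero, Real.zero_rpow (inv_pos.2 k).ne', NNReal.coe_zero]
  · refine NNReal.eq (tendsto_nhds_unique_of_eventuallyEq (hv 1) tendsto_const_nhds ?_)
    filter_upwards with b
    rw [map_one, abs_one, Real.one_rpow, NNReal.coe_one]
  · refine NNReal.eq (tendsto_nhds_unique_of_eventuallyEq (hv (f * g)) ((hv f).mul (hv g)) ?_)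
    filter_upwards with b
    rw [map_mul, abs_mul, Real.mul_rpow (abs_nonneg _) (abs_nonneg _)]
  · have k := (tend_const hh two_pos).mul ((hv f).max (hv g))
    rw [one_mul, ← NNReal.coe_max] at k
    refine NNReal.coe_le_coe.1 (le_of_tendsto_of_tendsto (hv (f + g)) k ?_)
    filter_upwards [h0] with b k
    have k1 := (inv_pos.2 k).le
    have k2 : ∀ {s t : ℝ}, |s| ≤ |t| → |s + t| ^ (h b)⁻¹ ≤ 2 ^ (h b)⁻¹ * |t| ^ (h b)⁻¹ :=
      fun {s t} l => by
        rw [← Real.mul_rpow zero_le_two (abs_nonneg _)]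
        exact Real.rpow_le_rpow (abs_nonneg _) ((abs_add_le s t).trans (by linarith)) k1
    rw [map_add]
    rcases le_total |e b f| |e b g| with l | l
    · exact (k2 l).trans (mul_le_mul_of_nonneg_left (le_max_right _ _) (by positivity))
    · rw [add_comm]
      exact (k2 l).trans (mul_le_mul_of_nonneg_left (le_max_left _ _) (by positivity))

section
open MvPolynomial

variable {σ : Type*} {P : β → σ → ℚ}

theorem val_grow (hh : Tendsto h U atTop) (hP : ∀ i, ∀ᶠ b in U, |(P b i : ℝ)| ≤ Real.exp (h b))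
    (g : MvPolynomial σ ℚ) : ∃ M : ℝ, ∀ᶠ b in U, |(eval (P b) g : ℝ)| ≤ Real.exp (M * h b) := by
  have h1 : ∀ᶠ b in U, 1 ≤ h b := hh.eventually_ge_atTop 1
  induction g using MvPolynomial.induction_on with
  | C a =>
    refine ⟨|(a : ℝ)|, h1.mono fun b k => ?_⟩
    rw [eval_C]
    have := abs_nonneg (a : ℝ)
    linarith [Real.add_one_le_exp (|(a : ℝ)| * h b), le_mul_of_one_le_right this k]
  | add f g hf hg =>
    obtain ⟨M, hM⟩ := hf
    obtain ⟨N, hN⟩ := hg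
    refine ⟨max M N + 1, ?_⟩
    filter_upwards [h1, hM, hN] with b k k1 k2
    have k3 := Real.exp_le_exp.2 (mul_le_mul_of_nonneg_right (le_max_left M N) (by linarith : 0 ≤ h b))
    have k4 := Real.exp_le_exp.2 (mul_le_mul_of_nonneg_right (le_max_right M N) (by linarith : 0 ≤ h b))
    have k5 := Real.add_one_le_exp (h b)
    have k6 := Real.exp_pos (max M N * h b)
    rw [map_add, Rat.cast_add, add_mul, one_mul, Real.exp_add]
    refine (abs_add_le _ _).trans ?_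
    nlinarith
  | mul_X f i hf =>
    obtain ⟨M, hM⟩ := hf
    refine ⟨M + 1, ?_⟩
    filter_upwards [hM, hP i] with b k1 k2
    rw [map_mul, eval_X, Rat.cast_mul, abs_mul, add_mul, one_mul, Real.exp_add]
    exact mul_le_mul k1 k2 (abs_nonneg _) (Real.exp_pos _).le

theorem val_den (g : MvPolynomial σ ℚ) : ∃ c M : ℕ, 0 < c ∧ ∀ (x : σ → ℚ) (q : ℕ),
    (∀ i, ∃ z : ℤ, q * x i = z) → ∃ z : ℤ, c * q ^ M * eval x g = z := by
  induction g using MvPolynomial.induction_on with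
  | C a => exact ⟨a.den, 0, a.den_pos, fun x q _ => ⟨a.num, by simp⟩⟩
  | add f g hf hg =>
    obtain ⟨c, M, hc, hf⟩ := hf
    obtain ⟨d, N, hd, hg⟩ := hg
    refine ⟨c * d, M + N, mul_pos hc hd, fun x q hx => ?_⟩
    obtain ⟨z, hz⟩ := hf x q hx
    obtain ⟨w, hw⟩ := hg x q hx
    refine ⟨d * q ^ N * z + c * q ^ M * w, ?_⟩
    push_cast
    rw [← hz, ← hw, map_add]
    ring
  | mul_X f i hf =>
    obtain ⟨c, M, hc, hf⟩ := hf
    refine ⟨c, M + 1, hc, fun x q hx => ?_⟩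
    obtain ⟨z, hz⟩ := hf x q hx
    obtain ⟨w, hw⟩ := hx i
    refine ⟨z * w, ?_⟩
    push_cast
    rw [← hz, ← hw, map_mul, eval_X]
    ring

theorem tend_den {q : β → ℕ} (hq : ∀ b, 0 < q b)
    (hl : Tendsto (fun b => Real.log (q b) / h b) U (𝓝 0)) :
    Tendsto (fun b => (q b : ℝ) ^ (h b)⁻¹) U (𝓝 1) := by
  have := (Real.continuous_exp.tendsto 0).comp hl
  rw [Real.exp_zero] at this
  refine this.congr fun b => ?_
  rw [Real.rpow_def_of_pos (Nat.cast_pos.2 (hq b)), Function.comp_apply, div_eq_mul_inv]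

theorem val_low {q : β → ℕ} (hh : Tendsto h U atTop) (hq : ∀ b, 0 < q b)
    (hl : Tendsto (fun b => Real.log (q b) / h b) U (𝓝 0)) (hP : ∀ b i, ∃ z : ℤ, q b * P b i = z)
    {g : MvPolynomial σ ℚ} {r : ℝ}
    (hr : Tendsto (fun b => |(eval (P b) g : ℝ)| ^ (h b)⁻¹) U (𝓝 r))
    (h0 : ¬ ∀ᶠ b in U, eval (P b) g = 0) : 1 ≤ r := by
  obtain ⟨c, M, hc, k⟩ := val_den g
  have k1 := ((tend_const hh (Nat.cast_pos.2 hc)).mul ((tend_den hq hl).pow M)).mul hr
  rw [one_pow, one_mul, one_mul] at k1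
  refine ge_of_tendsto k1 ?_
  filter_upwards [Ultrafilter.eventually_not.2 h0, hh.eventually_gt_atTop 0] with b l1 l2
  obtain ⟨z, hz⟩ := k (P b) (q b) (hP b)
  have l3 : z ≠ 0 := fun e => mul_ne_zero (mul_ne_zero (Nat.cast_ne_zero.2 hc.ne')
    (pow_ne_zero M (Nat.cast_ne_zero.2 (hq b).ne'))) l1 (hz.trans (by rw [e, Int.cast_zero]))
  have l4 : (c : ℝ) * q b ^ M * |(eval (P b) g : ℝ)| = |(z : ℝ)| := by
    have := congrArg (fun u : ℚ => |(u : ℝ)|) hz
    simpa [abs_mul] using this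
  rw [← Real.rpow_natCast, ← Real.rpow_mul (Nat.cast_nonneg _), mul_comm (h b)⁻¹,
    Real.rpow_mul (Nat.cast_nonneg _), ← Real.mul_rpow (by positivity) (by positivity),
    ← Real.mul_rpow (by positivity) (abs_nonneg _), Real.rpow_natCast, l4]
  exact Real.one_le_rpow (by exact_mod_cast Int.one_le_abs l3) (inv_pos.2 l2).le

end

end Pool.Agent.Lib.MP_8865d3_nt.Mk
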