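import Pool.Agent.Lib.MP_8865d3_nt.Mk.Tri
import Pool.Agent.Lib.MP_8865d3_nt.Mk.ValA

/-! The size of the values of polynomials along an ultrafilter. -/

namespace Pool.Agent.Lib.MP_8865d3_nt.Mk

open Filter MvPolynomial Topology
open scoped NNReal

/-- Polynomials in three variables. -/
abbrev A3 : Type := MvPolynomial (Fin 3) ℚ

/-- A family of rational points with small denominators. -/
structure Sq (β : Type) where
  U : Ultrafilter β
  p : β → Fin 3 → ℤ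
  q : β → ℕ
  q0 : ∀ b, 0 < q b
  big : Tendsto (fun b => Real.log ‖p b‖) U atTop
  small : ∀ δ : ℝ, 0 < δ → ∀ᶠ b in U, Real.log (q b) ≤ δ * Real.log ‖p b‖

namespace Sq

variable {β : Type} (D : Sq β)

/-- The height. -/
noncomputable def h (b : β) : ℝ := Real.log ‖D.p b‖

/-- The value of a polynomial. -/
noncomputable def ev (b : β) : A3 →ₐ[ℚ] ℚ := aeval fun i => (D.p b i : ℚ) / D.q b

theorem ev_eq (b : β) (g : A3) : D.ev b g = eval (fun i => (D.p b i : ℚ) / D.q b) g :=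
  RingHom.congr_fun (coe_aeval_eq_eval _) g

theorem den (b : β) (i : Fin 3) : ∃ z : ℤ, (D.q b : ℚ) * ((D.p b i : ℚ) / D.q b) = z :=
  ⟨D.p b i, mul_div_cancel₀ _ (Nat.cast_ne_zero.2 (D.q0 b).ne')⟩

theorem h_top : Tendsto D.h D.U atTop := D.big

theorem h_pos : ∀ᶠ b in D.U, 0 < D.h b := D.h_top.eventually_gt_atTop 0

theorem exp_h : ∀ᶠ b in D.U, Real.exp (D.h b) = ‖D.p b‖ := D.h_pos.mono fun b k =>
  Real.exp_log ((norm_nonneg _).lt_of_ne fun e => by simp [h, ← e] at k)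

theorem q_small : Tendsto (fun b => Real.log (D.q b) / D.h b) D.U (𝓝 0) := by
  refine tendsto_order.2 ⟨fun a ha => D.h_pos.mono fun b k => ha.trans_le
    (div_nonneg (Real.log_natCast_nonneg _) k.le), fun a ha => ?_⟩
  filter_upwards [D.h_pos, D.small (a / 2) (half_pos ha)] with b k1 k2
  exact ((div_le_iff₀ k1).2 k2).trans_lt (half_lt_self ha)

theorem exists_int (g : A3) : ∃ c M : ℕ, 0 < c ∧ ∀ b, ∃ z : ℤ, c * (D.q b : ℚ) ^ M * D.ev b g = z := by
  obtain ⟨c, M, hc, k⟩ := val_den g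
  exact ⟨c, M, hc, fun b => D.ev_eq b g ▸ k _ _ (D.den b)⟩

theorem exists_val : ∃ v : Valuation A3 ℝ≥0,
    ∀ g, Tendsto (fun b => ‖D.ev b g‖₊ ^ (D.h b)⁻¹) D.U (𝓝 (v g)) := by
  obtain ⟨v, hv⟩ := Mk.exists_val (fun b => (Rat.castHom ℝ).comp (D.ev b : A3 →+* ℚ)) D.h_top
    fun g => by
      simpa only [RingHom.comp_apply, RingHom.coe_coe, ev_eq, eq_ratCast] using val_grow D.h_top
        (P := fun b i => (D.p b i : ℚ) / D.q b) (fun i => D.exp_h.mono fun b k => by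
          rw [k, Rat.cast_div, abs_div, Rat.cast_intCast, Rat.cast_natCast, Nat.abs_cast]
          exact (div_le_self (abs_nonneg _) (Nat.one_le_cast.2 (D.q0 b))).trans
            (norm_le_pi_norm (D.p b) i)) g
  exact ⟨v, fun g => NNReal.tendsto_coe.1 (hv g)⟩

/-- The size. -/
noncomputable def v : Valuation A3 ℝ≥0 := D.exists_val.choose

theorem v_tend (g : A3) :
    Tendsto (fun b => |(D.ev b g : ℝ)| ^ (D.h b)⁻¹) D.U (𝓝 (D.v g)) :=
  NNReal.tendsto_coe.2 (D.exists_val.choose_spec g)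

theorem v_one {g : A3} (hg : ¬ ∀ᶠ b in D.U, D.ev b g = 0) : 1 ≤ D.v g := by
  have k := D.v_tend g
  simp only [ev_eq] at k hg
  exact NNReal.coe_le_coe.1 (val_low D.h_top D.q0 D.q_small D.den k hg)

theorem v_zero {g : A3} : D.v g = 0 ↔ ∀ᶠ b in D.U, D.ev b g = 0 := by
  refine ⟨fun k => by_contra fun n => ?_, fun k => NNReal.eq
    (tendsto_nhds_unique_of_eventuallyEq (D.v_tend g) tendsto_const_nhds ?_)⟩
  · exact absurd (k ▸ D.v_one n) (not_le.2 zero_lt_one)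
  · filter_upwards [k, D.h_pos] with b k1 k2
    rw [k1, Rat.cast_zero, abs_zero, Real.zero_rpow (inv_pos.2 k2).ne', NNReal.coe_zero]

theorem v_ge {g : A3} (hg : D.v g ≠ 0) : 1 ≤ D.v g := by
  exact D.v_one (mt D.v_zero.2 hg)

theorem v_C (c : ℚ) : D.v (C c) ≤ 1 := by
  rcases eq_or_ne c 0 with rfl | hc
  · simp
  · refine (NNReal.eq (tendsto_nhds_unique (D.v_tend _) ?_)).le
    simp only [ev_eq, eval_C]
    exact tend_const D.h_top (abs_pos.2 (Rat.cast_ne_zero.2 hc))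

theorem v_lt {g : A3} {θ : ℝ≥0} (hg : D.v g < θ) :
    ∀ᶠ b in D.U, |(D.ev b g : ℝ)| ≤ Real.exp (Real.log θ * D.h b) := by
  have k0 : (0 : ℝ) < θ := NNReal.coe_pos.2 (zero_le.trans_lt hg)
  filter_upwards [(D.v_tend g).eventually_lt_const (NNReal.coe_lt_coe.2 hg), D.h_pos] with b k1 k2
  rw [← Real.rpow_def_of_pos k0]
  exact ((Real.rpow_inv_lt_iff_of_pos (abs_nonneg _) k0.le k2).1 k1).le

theorem v_le {g : A3} {c s : ℝ} (hg : ∀ᶠ b in D.U, |(D.ev b g : ℝ)| ≤ c * Real.exp (s * D.h b)) :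
    (D.v g : ℝ) ≤ Real.exp s := by
  have k := (tend_const D.h_top (lt_max_of_lt_right one_pos : 0 < max c 1)).mul_const (Real.exp s)
  rw [one_mul] at k
  refine le_of_tendsto_of_tendsto (D.v_tend g) k ?_
  filter_upwards [hg, D.h_pos] with b k1 k2
  refine (Real.rpow_le_rpow (abs_nonneg _) (k1.trans (mul_le_mul_of_nonneg_right (le_max_left c 1)
    (Real.exp_pos _).le)) (inv_pos.2 k2).le).trans_eq ?_
  rw [Real.mul_rpow (by positivity) (Real.exp_pos _).le, ← Real.exp_mul,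
    mul_inv_cancel_right₀ k2.ne']

theorem v_X : ∃ i, 1 < D.v (X i) := by
  obtain ⟨i, hi⟩ : ∃ i, ∀ᶠ b in D.U, ‖D.p b‖ = ‖D.p b i‖ :=
    Ultrafilter.eventually_exists_iff.1 (Eventually.of_forall fun b => by
      obtain ⟨i, hi⟩ := Finite.exists_max fun i => ‖D.p b i‖
      exact ⟨i, le_antisymm ((pi_norm_le_iff_of_nonneg (norm_nonneg _)).2 hi)
        (norm_le_pi_norm _ i)⟩)
  have k := (tend_den D.q0 D.q_small).mul (D.v_tend (X i))
  rw [one_mul] at k
  refine ⟨i, NNReal.coe_lt_coe.1 (lt_of_lt_of_eq (Real.one_lt_exp_iff.2 one_pos)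
    (tendsto_nhds_unique_of_eventuallyEq tendsto_const_nhds k ?_))⟩
  filter_upwards [hi, D.h_pos, D.exp_h] with b k1 k2 k3
  rw [← Real.mul_rpow (Nat.cast_nonneg _) (abs_nonneg _), ev_eq, eval_X, Rat.cast_div, abs_div,
    Rat.cast_intCast, Rat.cast_natCast, Nat.abs_cast,
    mul_div_cancel₀ _ (Nat.cast_ne_zero.2 (D.q0 b).ne'), ← Int.norm_eq_abs, ← k1, ← k3,
    ← Real.exp_mul, mul_inv_cancel₀ k2.ne']

theorem v_sq (a b : A3) : D.v a ^ 2 ≤ D.v (a ^ 2 + b ^ 2) := by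
  rw [← map_pow]
  refine NNReal.coe_le_coe.1 (le_of_tendsto_of_tendsto (D.v_tend _) (D.v_tend _) ?_)
  filter_upwards [D.h_pos] with t k
  refine Real.rpow_le_rpow (abs_nonneg _) ?_ (inv_pos.2 k).le
  simp only [map_add, map_pow, Rat.cast_add, Rat.cast_pow]
  rw [abs_of_nonneg (sq_nonneg _), abs_of_nonneg (by positivity)]
  exact le_add_of_nonneg_right (sq_nonneg _)

/-- The ring of values. -/
abbrev R : Type := A3 ⧸ D.v.supp

/-- The class of a polynomial. -/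
noncomputable abbrev cl : A3 →ₐ[ℚ] D.R := Ideal.Quotient.mkₐ ℚ D.v.supp

/-- The size on the ring of values. -/
noncomputable def w : Valuation D.R ℝ≥0 := D.v.onQuot le_rfl

theorem w_cl (g : A3) : D.w (D.cl g) = D.v g := rfl

theorem cl_eq_zero {g : A3} : D.cl g = 0 ↔ ∀ᶠ b in D.U, D.ev b g = 0 :=
  Ideal.Quotient.eq_zero_iff_mem.trans D.v_zero

theorem cl_surj : Function.Surjective D.cl := Ideal.Quotient.mk_surjective

theorem cl_eq {g g' : A3} : D.cl g = D.cl g' ↔ ∀ᶠ b in D.U, D.ev b g = D.ev b g' := by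
  rw [← sub_eq_zero, ← map_sub, cl_eq_zero]
  simp only [map_sub, sub_eq_zero]

theorem sz : Sz D.w := by
  refine ⟨fun g hg => ?_, D.v_C⟩
  obtain ⟨g, rfl⟩ := D.cl_surj g
  exact D.v_ge fun h => hg (Ideal.Quotient.eq_zero_iff_mem.2 h)

theorem w_sq (a b : D.R) : D.w a ^ 2 ≤ D.w (a ^ 2 + b ^ 2) := by
  obtain ⟨a, rfl⟩ := D.cl_surj a
  obtain ⟨b, rfl⟩ := D.cl_surj b
  simpa only [← w_cl, map_add, map_pow] using D.v_sq a b

/-- The points lie on the cubic. -/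
def On (C : Co) : Prop := ∀ᶠ b in D.U, D.ev b (C.F (X 0) (X 1) (X 2)) = 0

/-- The first triple. -/
noncomputable def tri {C : Co} (h : D.On C) : Tri D.R :=
  ⟨C, D.cl (X 0), D.cl (X 1), D.cl (X 2), (C.map_F D.cl ..).symm.trans (D.cl_eq_zero.2 h)⟩

theorem tri_gen {C : Co} (h : D.On C) : (D.tri h).Gen := by
  refine eq_top_iff.2 fun g hg => ?_
  obtain ⟨g, rfl⟩ := D.cl_surj g
  clear hg
  induction g using MvPolynomial.induction_on with
  | C c => exact Subalgebra.algebraMap_mem _ c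
  | add p q hp hq => rw [map_add]; exact add_mem hp hq
  | mul_X p i hp =>
    rw [map_mul]
    refine mul_mem hp (Algebra.subset_adjoin ?_)
    fin_cases i <;> simp [tri]

theorem tri_big {C : Co} (h : D.On C) :
    1 < D.w (D.tri h).x ∨ 1 < D.w (D.tri h).y ∨ 1 < D.w (D.tri h).z := by
  obtain ⟨i, hi⟩ := D.v_X
  fin_cases i
  exacts [.inl hi, .inr (.inl hi), .inr (.inr hi)]

theorem exists_tri {C : Co} (h : D.On C) : ∃ τ : Tri D.R, τ.Good D.w ∧ τ.Gen := by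
  rcases (D.tri h).exists_good (D.tri_big h) with h1 | h1 | h1
  exacts [⟨_, h1, D.tri_gen h⟩, ⟨_, h1, (D.tri_gen h).rot⟩, ⟨_, h1, (D.tri_gen h).sw.rot⟩]

end Sq

end Pool.Agent.Lib.MP_8865d3_nt.Mk
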