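import Pool.Agent.Lib.MP_651af7_nt.Fc.FA
import Pool.Agent.Lib.MP_8865d3_nt.Mk.Sub
import Pool.Agent.Lib.MP_8865d3_nt.Mk.Val

/-! Adapted bases and the passage to the number field. -/

namespace Pool.Agent.Lib.MP_8865d3_nt.Mk

open Finset Module NumberField Filter Matrix Pool.Agent.Lib.MP_651af7_nt Av
open scoped NNReal

theorem adapt {F E : Type} [Field F] [AddCommGroup E] [Module F E] [FiniteDimensional F E]
    (W : ℕ → Submodule F E) (hW : Antitone W) (h0 : W 0 = ⊤) (J : ℕ) {N : ℕ}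
    (hN : finrank F E = N) : ∃ (b : Basis (Fin N) F E) (w : Fin N → ℕ), (∀ l, b l ∈ W (w l)) ∧
      (∀ l, w l ≤ J) ∧ ∑ n ∈ range J, finrank F (W (n + 1)) ≤ ∑ l, w l := by
  obtain ⟨b, w, h1, h2, h3, h4⟩ := Fc.fa_aux J (fun n => if n ≤ J then W n else ⊥) fun m n h => by
    dsimp only
    split_ifs with a b
    exacts [hW h, absurd (h.trans a) b, bot_le, le_rfl]
  rw [if_pos (Nat.zero_le J), h0] at h2
  have hc : b.card = N := by rw [← finrank_span_finset_eq_card h1, h2, finrank_top, hN]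
  let e := (Finset.equivFinOfCardEq hc).symm
  have h5 : ∀ x ∈ b, w x ≤ J := fun x hx => by
    by_contra h
    have := h3 x hx
    rw [if_neg h] at this
    exact h1.ne_zero hx this
  refine ⟨Basis.mk (v := fun l => (e l).1) (h1.comp e e.injective) ?_, fun l => w (e l),
    fun l => ?_, fun l => h5 _ (e l).2, ?_⟩
  · rw [← h2]
    exact Submodule.span_mono fun x hx => ⟨e.symm ⟨x, hx⟩, by simp⟩
  · have := h3 _ (e l).2
    rw [if_pos (h5 _ (e l).2)] at this
    rwa [Basis.mk_apply]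
  · rw [e.sum_comp fun x => w x, Finset.sum_coe_sort b w]
    refine le_trans (le_of_eq (sum_congr rfl fun n hn => ?_)) h4
    rw [if_pos (Nat.succ_le_of_lt (mem_range.1 hn))]

namespace Sq

variable {β : Type} (D : Sq β)

theorem h_big : Tendsto D.h D.U atTop := D.big

theorem int_fam {I : Type} [Fintype I] (B : I → A3) :
    ∃ c M : ℕ, 0 < c ∧ ∀ b l, ∃ z : ℤ, c * (D.q b : ℚ) ^ M * D.ev b (B l) = z := by
  classical
  choose c M hc h using fun l => D.exists_int (B l)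
  refine ⟨∏ l, c l, ∑ l, M l, prod_pos fun l _ => hc l, fun b l => ?_⟩
  obtain ⟨z, hz⟩ := h l b
  refine ⟨(∏ i ∈ univ.erase l, c i) * D.q b ^ (∑ i ∈ univ.erase l, M i) * z, ?_⟩
  rw [← mul_prod_erase _ _ (mem_univ l), ← add_sum_erase _ _ (mem_univ l)]
  push_cast
  rw [← hz]
  ring

theorem den_le {c : ℕ} (hc : 0 < c) (M : ℕ) {δ : ℝ} (hδ : 0 < δ) :
    ∀ᶠ b in D.U, (c * (D.q b : ℝ) ^ M) ≤ Real.exp (δ * D.h b) := by
  filter_upwards [D.small (δ / 2 / (M + 1)) (by positivity),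
    D.h_big.eventually_ge_atTop (Real.log c / (δ / 2)), D.h_big.eventually_ge_atTop 0]
    with b h1 h2 h3
  have h4 : (0 : ℝ) < D.q b := by exact_mod_cast D.q0 b
  rw [← Real.log_le_iff_le_exp (by positivity), Real.log_mul (by positivity) (by positivity),
    Real.log_pow]
  rw [div_le_iff₀ (half_pos hδ)] at h2
  have h5 := mul_le_mul_of_nonneg_left h1 (Nat.cast_nonneg (α := ℝ) M)
  have h6 : M * (δ / 2 / (M + 1) * D.h b) ≤ δ / 2 * D.h b := by
    rw [← mul_assoc]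
    refine mul_le_mul_of_nonneg_right ?_ h3
    rw [← mul_div_assoc, div_le_iff₀ (by positivity)]
    nlinarith
  change _ ≤ M * (_ * D.h b) at h5
  linarith

theorem le_pow {g : A3} {θ : ℝ≥0} (hθ : 1 < θ) {j : ℕ} (hg : D.v g ≤ θ ^ j) {δ : ℝ} (hδ : 0 < δ) :
    ∀ᶠ b in D.U, |(D.ev b g : ℝ)| ≤ Real.exp ((j * Real.log θ + δ) * D.h b) := by
  have h0 : 0 < θ := zero_lt_one.trans hθ
  obtain ⟨ρ, hρ⟩ : ∃ ρ : ℝ≥0, (ρ : ℝ) = Real.exp δ := ⟨⟨_, (Real.exp_pos δ).le⟩, rfl⟩
  have h1 := D.v_lt (θ := θ ^ j * ρ) (hg.trans_lt (lt_mul_of_one_lt_right (pow_pos h0 j) (by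
    rw [← NNReal.coe_lt_coe, hρ]; exact Real.one_lt_exp_iff.2 hδ)))
  rwa [NNReal.coe_mul, NNReal.coe_pow, hρ,
    Real.log_mul (by positivity) (Real.exp_pos δ).ne', Real.log_pow, Real.log_exp] at h1

variable (K : Type) [Field K] [NumberField K]

/-- The values in the ultrapower of `K`. -/
noncomputable def io : D.R →+* Up D.U K :=
  Ideal.Quotient.lift _ ((germ D.U).comp (RingHom.pi fun b => (Rat.castHom K).comp (D.ev b)))
    fun _ hg => germ_eq_zero.2 ((D.v_zero.1 hg).mono fun b hb => by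
      change ((D.ev b _ : ℚ) : K) = 0
      rw [hb, Rat.cast_zero])

theorem io_cl (g : A3) : D.io K (D.cl g) = germ D.U fun b => (D.ev b g : K) := rfl

omit [NumberField K] in
theorem smul_germ (c : K) (s : β → K) : c • germ D.U s = germ D.U fun b => c * s b := by
  rw [Algebra.smul_def, algebraMap_up, ← map_mul]
  rfl

theorem io_smul (c : ℚ) (g : D.R) : D.io K (c • g) = (c : K) • D.io K g := by
  obtain ⟨g, rfl⟩ := D.cl_surj g
  rw [← map_smul, io_cl, io_cl, smul_germ]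
  simp

theorem io_sum {I : Type} [Fintype I] (u : I → K) (B : I → A3) :
    ∑ l, u l • D.io K (D.cl (B l)) = germ D.U fun b => ∑ l, u l * (D.ev b (B l) : K) := by
  simp only [io_cl, smul_germ]
  exact As.germ_sum ..

theorem indep {I : Type} [Fintype I] {g : I → D.R} (hg : LinearIndependent ℚ g) :
    LinearIndependent K fun l => D.io K (g l) := by
  choose B hB using fun l => D.cl_surj (g l)
  obtain rfl : g = fun l => D.cl (B l) := funext fun l => (hB l).symm
  refine Fintype.linearIndependent_iff.2 fun u hu l =>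
    (Module.forall_dual_apply_eq_zero_iff ℚ _).1 fun π => ?_
  rw [io_sum, germ_eq_zero] at hu
  refine Fintype.linearIndependent_iff.1 hg (fun l => π (u l)) ?_ l
  simp only [← map_smul, ← map_sum]
  refine D.cl_eq_zero.2 (hu.mono fun b hb => ?_)
  have := congrArg π hb
  rw [map_zero, map_sum] at this
  rw [map_sum, ← this]
  refine sum_congr rfl fun l _ => ?_
  rw [map_smul, mul_comm (u l), ← Rat.smul_def, map_smul, smul_eq_mul, smul_eq_mul, mul_comm]

end Sq

variable {K β : Type} [Field K] {N : ℕ}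

/-- The forms that are small of order `n`. -/
def smallF (w : AbsoluteValue K ℝ) (𝓕 : Filter β) (t : β → Fin N → K) (m : β → ℝ) (n : ℕ) :
    Submodule K (Fin N → K) where
  carrier := {u | ∃ C : ℝ, ∀ᶠ b in 𝓕, w (u ⬝ᵥ t b) ≤ C * m b ^ n}
  zero_mem' := ⟨0, Eventually.of_forall fun b => by simp⟩
  add_mem' := fun ⟨C, h⟩ ⟨C', h'⟩ => ⟨C + C', (h.and h').mono fun b hb => by
    rw [add_dotProduct, add_mul]
    exact (w.add_le _ _).trans (add_le_add hb.1 hb.2)⟩
  smul_mem' := fun c u ⟨C, h⟩ => ⟨w c * C, h.mono fun b hb => by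
    rw [smul_dotProduct, smul_eq_mul, map_mul, mul_assoc]
    exact mul_le_mul_of_nonneg_left hb (w.nonneg c)⟩

theorem dot_le (w : AbsoluteValue K ℝ) {t : Fin N → K} (ht : ∀ l, w (t l) ≤ 1) (u : Fin N → K) :
    w (u ⬝ᵥ t) ≤ ∑ l, w (u l) :=
  (w.sum_le _ _).trans (sum_le_sum fun l _ => by
    rw [map_mul]; exact mul_le_of_le_one_right (w.nonneg _) (ht l))

/-- A basis of forms adapted to the powers of `f`. -/
theorem exists_forms (w : AbsoluteValue K ℝ) (𝓕 : Filter β) (t : β → Fin N → K)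
    (ht : ∀ b l, w (t b l) ≤ 1) (f : β → K) (hf : ∀ᶠ b in 𝓕, f b ≠ 0) (T : ℕ) (a : ℕ → ℕ)
    (h : ∀ n < T, ∃ u u' : Fin (a n) → Fin N → K, LinearIndependent K u ∧
      ∀ i, ∀ᶠ b in 𝓕, u i ⬝ᵥ t b = f b ^ (n + 1) * (u' i ⬝ᵥ t b)) :
    ∃ (G : Matrix (Fin N) (Fin N) K) (C : ℝ), G.det ≠ 0 ∧ ∀ᶠ b in 𝓕, (∀ l, (G *ᵥ t b) l ≠ 0) →
      ∑ l, Real.log (w ((G *ᵥ t b) l)) ≤
        C + (∑ n ∈ range T, a n : ℕ) * Real.log (min 1 (w (f b))) := by
  let m : β → ℝ := fun b => min 1 (w (f b))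
  have m0 : ∀ b, 0 ≤ m b := fun b => le_min zero_le_one (w.nonneg _)
  have m1 : ∀ b, m b ≤ 1 := fun b => min_le_left _ _
  obtain ⟨G, o, h1, -, h2⟩ := adapt (smallF w 𝓕 t m) (fun i j hij u ⟨C, hC⟩ =>
    ⟨|C|, hC.mono fun b hb => hb.trans (mul_le_mul (le_abs_self C)
      (pow_le_pow_of_le_one (m0 b) (m1 b) hij) (pow_nonneg (m0 b) _) (abs_nonneg C))⟩)
    (eq_top_iff.2 fun u _ => ⟨_, Eventually.of_forall fun b => by
      rw [pow_zero, mul_one]; exact dot_le w (ht b) u⟩) T (finrank_fin_fun K)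
  have h3 : ∑ n ∈ range T, a n ≤ ∑ l, o l := by
    refine le_trans (sum_le_sum fun n hn => ?_) h2
    obtain ⟨u, u', h3, h4⟩ := h n (mem_range.1 hn)
    rw [← Fintype.card_fin (a n), ← finrank_span_eq_card h3]
    refine Submodule.finrank_mono (Submodule.span_le.2 ?_)
    rintro _ ⟨i, rfl⟩
    refine ⟨∑ l, w (u i l) + ∑ l, w (u' i l), (h4 i).mono fun b hb => ?_⟩
    have a1 : 0 ≤ ∑ l, w (u i l) := sum_nonneg fun _ _ => w.nonneg _
    have a2 : 0 ≤ ∑ l, w (u' i l) := sum_nonneg fun _ _ => w.nonneg _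
    rcases le_total 1 (w (f b)) with c | c
    · simp only [m, min_eq_left c, one_pow, mul_one]
      linarith [dot_le w (ht b) (u i)]
    · simp only [m, min_eq_right c]
      rw [hb, map_mul, map_pow, mul_comm]
      exact mul_le_mul_of_nonneg_right (by linarith [dot_le w (ht b) (u' i)])
        (pow_nonneg (w.nonneg _) _)
  choose C hC using h1
  refine ⟨Matrix.of fun l => G l, ∑ l, Real.log (C l), ((Matrix.isUnit_iff_isUnit_det _).1
    (Matrix.linearIndependent_rows_iff_isUnit.1 G.linearIndependent)).ne_zero, ?_⟩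
  filter_upwards [hf, eventually_all.2 hC] with b h4 h5 h6
  have h7 : 0 < m b := lt_min one_pos (w.pos h4)
  have h8 : ∀ l, Real.log (w ((Matrix.of (fun l => G l) *ᵥ t b) l)) ≤
      Real.log (C l) + o l * Real.log (m b) := fun l => by
    have h8 := w.pos (h6 l)
    have h9 : 0 < C l := (mul_pos_iff_of_pos_right (pow_pos h7 _)).1 (h8.trans_le (h5 l))
    rw [← Real.log_pow, ← Real.log_mul h9.ne' (pow_pos h7 _).ne']
    exact Real.log_le_log h8 (h5 l)
  refine (sum_le_sum fun l _ => h8 l).trans ?_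
  rw [sum_add_distrib, ← sum_mul, ← Nat.cast_sum]
  exact add_le_add_right (mul_le_mul_of_nonpos_right (Nat.cast_le.2 h3)
    (Real.log_nonpos h7.le (m1 b))) _

end Pool.Agent.Lib.MP_8865d3_nt.Mk
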