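import Mathlib

/-! Dimensions of spaces of functions of bounded degree and bounded value. -/

namespace Pool.Agent.Lib.MP_8865d3_nt.Mk

open Finset Filter Module
open scoped NNReal

variable {R : Type} [CommRing R] [Algebra ℚ R]

/-- The span of `x^i y^j z^e`, `i, j ≤ A`, `e ≤ 1`. -/
def Wd (x y z : R) (A : ℕ) : Submodule ℚ R :=
  Submodule.span ℚ {g | ∃ i ≤ A, ∃ j ≤ A, ∃ e ≤ 1, g = x ^ i * y ^ j * z ^ e}

/-- The span of `x^i`, `i ≤ A`. -/
def Pd (x : R) (A : ℕ) : Submodule ℚ R := Submodule.span ℚ {g | ∃ i ≤ A, g = x ^ i}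

/-- The elements of value at most `b`. -/
def Vb (v : Valuation R ℝ≥0) (hv : ∀ q : ℚ, v (algebraMap ℚ R q) ≤ 1) (b : ℝ≥0) :
    Submodule ℚ R where
  carrier := {g | v g ≤ b}
  add_mem' := fun ha hb => v.map_add_le ha hb
  zero_mem' := by simp
  smul_mem' := fun c g hg => by
    change v _ ≤ b
    rw [Algebra.smul_def, map_mul]
    exact (mul_le_of_le_one_left' (hv c)).trans hg

instance finW (x y z : R) (A : ℕ) : Module.Finite ℚ (Wd x y z A) :=
  Module.Finite.span_of_finite _ (((Set.finite_Iic A).prod ((Set.finite_Iic A).prod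
    (Set.finite_Iic 1))).image (fun p : ℕ × ℕ × ℕ => x ^ p.1 * y ^ p.2.1 * z ^ p.2.2) |>.subset
      fun _ ⟨i, hi, j, hj, e, he, h⟩ => ⟨(i, j, e), ⟨hi, hj, he⟩, h.symm⟩)

instance finP (x : R) (A : ℕ) : Module.Finite ℚ (Pd x A) :=
  Module.Finite.span_of_finite _ (((Set.finite_Iic A).image fun i => x ^ i).subset
    fun _ ⟨i, hi, h⟩ => ⟨i, hi, h.symm⟩)

theorem rank_P (x : R) (A : ℕ) : finrank ℚ (Pd x A) ≤ A + 1 := by
  have e : {g | ∃ i ≤ A, g = x ^ i} = Set.range fun i : Fin (A + 1) => x ^ (i : ℕ) := by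
    ext g
    exact ⟨fun ⟨i, hi, h⟩ => ⟨⟨i, by omega⟩, h.symm⟩, fun ⟨i, h⟩ => ⟨i, by omega, h.symm⟩⟩
  rw [Pd, e]
  exact (finrank_range_le_card (R := ℚ) fun i : Fin (A + 1) => x ^ (i : ℕ)).trans (by simp)

theorem rank_sup (M N : Submodule ℚ R) [Module.Finite ℚ M] [Module.Finite ℚ N] :
    finrank ℚ ↥(M ⊔ N) ≤ finrank ℚ M + finrank ℚ N :=
  Submodule.finrank_add_le_finrank_add_finrank M N

theorem rank_P2 (x : R) (A : ℕ) : finrank ℚ (Pd x (2 * A)) ≤ 2 * finrank ℚ (Pd x A) := by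
  have h : Pd x (2 * A) ≤ Pd x A ⊔ (Pd x A).map (LinearMap.mulLeft ℚ (x ^ A)) :=
    Submodule.span_le.2 (by
      rintro _ ⟨i, hi, rfl⟩
      by_cases h : i ≤ A
      · exact Submodule.mem_sup_left (Submodule.subset_span ⟨i, h, rfl⟩)
      · refine Submodule.mem_sup_right ⟨x ^ (i - A), Submodule.subset_span ⟨_, by omega, rfl⟩, ?_⟩
        rw [LinearMap.mulLeft_apply, ← pow_add]
        congr 1
        omega)
  have h1 := (Submodule.finrank_mono h).trans (rank_sup _ _)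
  have h2 := Submodule.finrank_map_le (LinearMap.mulLeft ℚ (x ^ A)) (Pd x A)
  omega

variable {v : Valuation R ℝ≥0} {hv : ∀ q : ℚ, v (algebraMap ℚ R q) ≤ 1} {x y z : R}

instance finV (A : ℕ) (b : ℝ≥0) : Module.Finite ℚ ↥(Wd x y z A ⊓ Vb v hv b) :=
  Module.Finite.of_injective (Submodule.inclusion inf_le_left) (Submodule.inclusion_injective _)

theorem dim_step (hy : 0 < v y) (A : ℕ) (b : ℝ≥0) :
    finrank ℚ ↥(Wd x y z A ⊓ Vb v hv b) ≤
      finrank ℚ ↥(Wd x y z A ⊓ Vb v hv (b / v y)) + 2 * finrank ℚ (Pd x A) := by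
  set N := Wd x y z A ⊓ Vb v hv b
  set Y := (Wd x y z A).map (LinearMap.mulLeft ℚ y)
  set Q := Pd x A ⊔ (Pd x A).map (LinearMap.mulLeft ℚ z)
  have h1 : finrank ℚ Q ≤ 2 * finrank ℚ (Pd x A) := by
    have h1 : finrank ℚ Q ≤ _ := rank_sup (Pd x A) ((Pd x A).map (LinearMap.mulLeft ℚ z))
    have h2 := Submodule.finrank_map_le (LinearMap.mulLeft ℚ z) (Pd x A)
    omega
  have h2 : Wd x y z A ≤ Y ⊔ Q := Submodule.span_le.2 (by
    rintro _ ⟨i, hi, j, hj, e, he, rfl⟩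
    rcases j with _ | j
    · refine Submodule.mem_sup_right ?_
      have h : x ^ i ∈ Pd x A := Submodule.subset_span ⟨i, hi, rfl⟩
      rcases Nat.le_one_iff_eq_zero_or_eq_one.1 he with rfl | rfl
      · exact Submodule.mem_sup_left (by simpa using h)
      · exact Submodule.mem_sup_right ⟨_, h, by simp [mul_comm]⟩
    · refine Submodule.mem_sup_left ⟨_, Submodule.subset_span ⟨i, hi, j, by omega, e, he, rfl⟩, ?_⟩
      rw [LinearMap.mulLeft_apply]
      ring)
  have h3 : N ⊓ Y ≤ (Wd x y z A ⊓ Vb v hv (b / v y)).map (LinearMap.mulLeft ℚ y) := by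
    rintro _ ⟨h, g, hg, rfl⟩
    refine ⟨g, ⟨hg, ?_⟩, rfl⟩
    have h4 : v (y * g) ≤ b := h.2
    change v g ≤ b / v y
    rwa [le_div_iff₀ hy, mul_comm, ← map_mul]
  have h4 := (Submodule.finrank_mono h3).trans (Submodule.finrank_map_le _ _)
  have h5 := Submodule.finrank_sup_add_finrank_inf_eq N Y
  have h6 := (Submodule.finrank_mono
    (sup_le (inf_le_left.trans h2) le_sup_left : N ⊔ Y ≤ Y ⊔ Q)).trans (rank_sup Y Q)
  omega

theorem dim_le (h1 : ∀ g, g ≠ 0 → 1 ≤ v g) (hy : 0 < v y) (A m : ℕ) : ∀ b : ℝ≥0, b < v y ^ m →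
    finrank ℚ ↥(Wd x y z A ⊓ Vb v hv b) ≤ 2 * m * finrank ℚ (Pd x A) := by
  induction m with
  | zero =>
    intro b hb
    rw [(Submodule.eq_bot_iff (Wd x y z A ⊓ Vb v hv b)).2 fun g hg => not_not.1 fun h =>
      absurd ((h1 g h).trans hg.2) (by simpa using hb)]
    simp
  | succ m ih =>
    intro b hb
    have h2 := ih (b / v y) (by rwa [div_lt_iff₀ hy, ← pow_succ])
    have h3 := dim_step (x := x) (z := z) (hv := hv) hy A b
    rw [mul_add, add_mul]
    omega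

theorem W_mono {A B : ℕ} (h : A ≤ B) : Wd x y z A ≤ Wd x y z B :=
  Submodule.span_mono fun _ ⟨i, hi, j, hj, k⟩ => ⟨i, hi.trans h, j, hj.trans h, k⟩

/-- `z²` is a combination of `x^i y^j z^e`, `i, j ≤ 2`. -/
theorem W_mul (hz : z ^ 2 ∈ Wd x y z 2) {A B : ℕ} {g h : R} (hg : g ∈ Wd x y z A)
    (hh : h ∈ Wd x y z B) : g * h ∈ Wd x y z (A + B + 2) := by
  have k : ∀ {A : ℕ} {g : R} (i j : ℕ), g ∈ Wd x y z A → ∀ B, i ≤ B → j ≤ B →
      x ^ i * y ^ j * g ∈ Wd x y z (B + A) := fun {A g} i j hg B hi hj => by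
    induction hg using Submodule.span_induction with
    | mem g hg =>
      obtain ⟨a, ha, b, hb, e, he, rfl⟩ := hg
      exact Submodule.subset_span ⟨i + a, by omega, j + b, by omega, e, he, by ring⟩
    | zero => simp
    | add g g' _ _ h h' => rw [mul_add]; exact add_mem h h'
    | smul c g _ h => rw [mul_smul_comm]; exact Submodule.smul_mem _ c h
  induction hg using Submodule.span_induction with
  | mem g hg =>
    obtain ⟨i, hi, j, hj, e, he, rfl⟩ := hg
    induction hh using Submodule.span_induction with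
    | mem h hh =>
      obtain ⟨a, ha, b, hb, e', he', rfl⟩ := hh
      by_cases h2 : e + e' ≤ 1
      · exact Submodule.subset_span ⟨i + a, by omega, j + b, by omega, e + e', h2, by ring⟩
      · obtain rfl : e = 1 := by omega
        obtain rfl : e' = 1 := by omega
        have := k (i + a) (j + b) hz (A + B) (by omega) (by omega)
        convert this using 1
        ring
    | zero => simp
    | add h h' _ _ k k' => rw [mul_add]; exact add_mem k k'
    | smul c h _ k => rw [mul_smul_comm]; exact Submodule.smul_mem _ c k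
  | zero => simp
  | add g g' _ _ k k' => rw [add_mul]; exact add_mem k k'
  | smul c g _ k => rw [smul_mul_assoc]; exact Submodule.smul_mem _ c k

theorem W_one (A : ℕ) : (1 : R) ∈ Wd x y z A :=
  Submodule.subset_span ⟨0, A.zero_le, 0, A.zero_le, 0, zero_le_one, by simp⟩

theorem W_pow (hz : z ^ 2 ∈ Wd x y z 2) {A : ℕ} {g : R} (hg : g ∈ Wd x y z A) (n : ℕ) :
    g ^ n ∈ Wd x y z (n * (A + 2)) := by
  induction n with
  | zero => simpa using W_one 0
  | succ n ih =>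
    rw [pow_succ, Nat.succ_mul, ← add_assoc]
    exact W_mul hz ih hg

theorem val_rat (hv : ∀ q : ℚ, v (algebraMap ℚ R q) ≤ 1) {q : ℚ} (h : q ≠ 0) :
    v (algebraMap ℚ R q) = 1 := by
  refine (hv q).antisymm ?_
  have e : v (algebraMap ℚ R q) * v (algebraMap ℚ R q⁻¹) = 1 := by
    rw [← map_mul, ← map_mul, mul_inv_cancel₀ h, map_one, map_one]
  exact e.ge.trans (mul_le_of_le_one_right' (hv _))

/-- Elements with different values are independent. -/
theorem indep_of_val (hv : ∀ q : ℚ, v (algebraMap ℚ R q) ≤ 1) {ι : Type} {g : ι → R}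
    (h1 : ∀ i, v (g i) ≠ 0) (h2 : Function.Injective fun i => v (g i)) : LinearIndependent ℚ g := by
  classical
  refine linearIndependent_iff'.2 fun s c hc i hi => not_not.1 fun hne => ?_
  obtain ⟨m, hm, hmax⟩ := (s.filter fun i => c i ≠ 0).exists_max_image (fun i => v (g i))
    ⟨i, mem_filter.2 ⟨hi, hne⟩⟩
  have hm' := mem_filter.1 hm
  have e : ∀ i, c i ≠ 0 → v (c i • g i) = v (g i) := fun i h => by
    rw [Algebra.smul_def, map_mul, val_rat hv h, one_mul]
  have h3 : v (∑ i ∈ s.erase m, c i • g i) < v (g m) :=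
    v.map_sum_lt (h1 m) fun i hi => by
      by_cases h : c i = 0
      · rw [h, zero_smul, map_zero]
        exact zero_lt_iff.2 (h1 m)
      · rw [e i h]
        exact lt_of_le_of_ne (hmax i (mem_filter.2 ⟨mem_of_mem_erase hi, h⟩))
          (h2.ne (ne_of_mem_erase hi))
  rw [← add_sum_erase _ _ hm'.1] at hc
  rw [eq_neg_of_add_eq_zero_right hc, v.map_neg, e m hm'.2] at h3
  exact lt_irrefl _ h3

theorem exists_max {t : ℝ≥0} (ht : 1 < t) : ∃ m, t ^ m ≤ 2 ∧ 2 < t ^ (m + 1) := by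
  classical
  have h : ∃ m, 2 < t ^ (m + 1) := (pow_unbounded_of_one_lt 2 ht).imp fun m hm =>
    hm.trans_le (pow_le_pow_right₀ ht.le m.le_succ)
  refine ⟨Nat.find h, ?_, Nat.find_spec h⟩
  rcases e : Nat.find h with _ | m
  · simp
  · exact not_lt.1 (Nat.find_min h (by omega))

theorem strip (hz : z ^ 2 ∈ Wd x y z 2) {X Y : R}
    {A₁ A₂ J L : ℕ} (hX : X ∈ Wd x y z A₁) (hY : Y ∈ Wd x y z A₂) (h1 : 1 < v X) (h2 : 1 < v Y)
    (hr : ∀ m n, v X ^ m = v Y ^ n → m = 0) (hI : v X ^ (A₂ + 2) * v Y ^ (A₁ + 2) ≤ 2 ^ J)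
    (hL : v X ^ L ≤ 2 ∨ v Y ^ L ≤ 2) : ∃ A, L ≤ A ∧
      finrank ℚ (Pd x (2 * A)) ≤ (4 * J + 5) * finrank ℚ ↥(Wd x y z A ⊓ Vb v hv 4) := by
  obtain ⟨m₁, a1, a2⟩ := exists_max h1
  obtain ⟨m₂, a3, a4⟩ := exists_max h2
  have k : ∀ {t : ℝ≥0} {A m : ℕ}, 1 < t → 2 < t ^ (m + 1) → t ^ (A + 2) ≤ 2 ^ J →
      A + 2 ≤ (m + 1) * J := fun {t A m} ht h h' =>
    (pow_le_pow_iff_right₀ ht).1 (h'.trans (by
      rw [pow_mul]
      exact pow_le_pow_left₀ (by positivity) h.le J))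
  have b1 := k h2 a4 ((le_mul_of_one_le_left' (one_le_pow₀ h1.le)).trans hI)
  have b2 := k h1 a2 ((le_mul_of_one_le_right' (one_le_pow₀ h2.le)).trans hI)
  have hJ : 1 ≤ J := Nat.pos_of_ne_zero fun e => by simp [e] at b1
  obtain ⟨g, hg⟩ : ∃ g, g = (m₁ + 1) * (m₂ + 1) := ⟨_, rfl⟩
  have b3 : L ≤ g := by
    rcases hL with h | h
    · have := (pow_lt_pow_iff_right₀ h1).1 (h.trans_lt a2)
      nlinarith
    · have := (pow_lt_pow_iff_right₀ h2).1 (h.trans_lt a4)
      nlinarith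
  refine ⟨2 * J * g + 2, by nlinarith, ?_⟩
  have hm : ∀ p : Fin (m₁ + 1) × Fin (m₂ + 1),
      X ^ (p.1 : ℕ) * Y ^ (p.2 : ℕ) ∈ Wd x y z (2 * J * g + 2) ⊓ Vb v hv 4 := fun p => by
    have c1 := p.1.2
    have c2 := p.2.2
    refine ⟨W_mono ?_ (W_mul hz (W_pow hz hX _) (W_pow hz hY _)), ?_⟩
    · have d1 := Nat.mul_le_mul c1.le b1
      have d2 := Nat.mul_le_mul c2.le b2
      nlinarith
    · change v _ ≤ 4
      rw [map_mul, map_pow, map_pow, show (4 : ℝ≥0) = 2 * 2 by norm_num]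
      exact mul_le_mul' ((pow_le_pow_right₀ h1.le (by omega)).trans a1)
        ((pow_le_pow_right₀ h2.le (by omega)).trans a3)
  have p1 : 0 < v X := zero_lt_one.trans h1
  have p2 : 0 < v Y := zero_lt_one.trans h2
  have key : ∀ i j i' j' : ℕ, i' ≤ i → v X ^ i * v Y ^ j = v X ^ i' * v Y ^ j' →
      i = i' ∧ j = j' := fun i j i' j' h e => by
    obtain ⟨a, rfl⟩ := Nat.exists_eq_add_of_le h
    rw [pow_add, mul_assoc, mul_right_inj' (pow_pos p1 _).ne'] at e
    have h3 : j ≤ j' := (pow_le_pow_iff_right₀ h2).1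
      ((le_mul_of_one_le_left' (one_le_pow₀ h1.le)).trans e.le)
    obtain ⟨b, rfl⟩ := Nat.exists_eq_add_of_le h3
    rw [pow_add, mul_comm, mul_right_inj' (pow_pos p2 _).ne'] at e
    obtain rfl := hr a b e
    obtain rfl : 0 = b := pow_right_injective₀ p2 h2.ne' ((pow_zero _).trans
      ((pow_zero _).symm.trans e))
    exact ⟨rfl, rfl⟩
  have hli : LinearIndependent ℚ fun p : Fin (m₁ + 1) × Fin (m₂ + 1) =>
      (⟨_, hm p⟩ : ↥(Wd x y z (2 * J * g + 2) ⊓ Vb v hv 4)) := by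
    refine LinearIndependent.of_comp (Submodule.subtype _) (indep_of_val hv (fun p => ?_)
      fun p p' e => ?_)
    · simp only [Function.comp_apply, Submodule.subtype_apply, map_mul, map_pow]
      positivity
    · simp only [Function.comp_apply, Submodule.subtype_apply, map_mul, map_pow] at e
      rcases le_total (p'.1 : ℕ) p.1 with h | h
      · exact Prod.ext (Fin.ext (key _ _ _ _ h e).1) (Fin.ext (key _ _ _ _ h e).2)
      · exact Prod.ext (Fin.ext (key _ _ _ _ h e.symm).1.symm)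
          (Fin.ext (key _ _ _ _ h e.symm).2.symm)
  have h5 := hli.fintype_card_le_finrank
  rw [Fintype.card_prod, Fintype.card_fin, Fintype.card_fin, ← hg] at h5
  have h6 := rank_P x (2 * (2 * J * g + 2))
  have h7 : 1 ≤ g := by nlinarith
  have h8 := Nat.mul_le_mul_left (4 * J + 5) h5
  nlinarith

theorem flat (hx : v x ≤ 1) (A : ℕ) :
    finrank ℚ (Pd x (2 * A)) ≤ 2 * finrank ℚ ↥(Wd x y z A ⊓ Vb v hv 4) := by
  have h : Pd x A ≤ Wd x y z A ⊓ Vb v hv 4 := Submodule.span_le.2 (by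
    rintro _ ⟨i, hi, rfl⟩
    refine ⟨Submodule.subset_span ⟨i, hi, 0, A.zero_le, 0, zero_le_one, by simp⟩, ?_⟩
    change v _ ≤ 4
    rw [map_pow]
    exact (pow_le_one₀ zero_le hx).trans (by norm_num))
  exact (rank_P2 x A).trans (Nat.mul_le_mul_left 2 (Submodule.finrank_mono h))

end Pool.Agent.Lib.MP_8865d3_nt.Mk
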