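import Pool.Agent.Lib.MP_8865d3_nt.Mk.Core

/-! The main inequality. -/

namespace Pool.Agent.Lib.MP_8865d3_nt.Mk

open Finset Module NumberField Filter MvPolynomial
open scoped NNReal

theorem log_norm_nonneg (p : Fin 3 → ℤ) : 0 ≤ Real.log ‖p‖ := by
  by_cases h : p = 0
  · simp [h]
  · obtain ⟨i, hi⟩ := Function.ne_iff.1 h
    refine Real.log_nonneg (le_trans ?_ (norm_le_pi_norm p i))
    rw [Int.norm_eq_abs]
    exact_mod_cast Int.one_le_abs hi

section

variable {K : Type} [Field K] [NumberField K]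

/-- The trivial bound at one place. -/
theorem triv_one (w : FinitePlace K) (f : MvPolynomial (Fin 3) K) : ∃ c : ℝ, 0 ≤ c ∧
    ∀ (p : Fin 3 → ℤ) (q : ℕ), 0 < q → eval (fun i => (p i / q : K)) f ≠ 0 →
      Real.log (w (eval (fun i => (p i / q : K)) f))⁻¹ ≤
        c * (Real.log ‖p‖ + (Real.log q + 1)) := by
  obtain ⟨C, h0, hC⟩ := MP_651af7_nt.Rt.ht_poly f
  obtain ⟨t, ht⟩ : ∃ t : ℝ, t = Height.totalWeight K := ⟨_, rfl⟩
  have t0 : 0 ≤ t := ht ▸ Nat.cast_nonneg _
  refine ⟨C * (1 + 3 * t), by positivity, fun p q hq hf => ?_⟩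
  have a1 := log_norm_nonneg p
  have a2 : 0 ≤ Real.log q := Real.log_natCast_nonneg q
  have h1 := Fa.log_max_le (v := w.1) (Or.inr w.2) (eval (fun i => (p i / q : K)) f)⁻¹
  rw [Height.logHeight₁_inv, map_inv₀] at h1
  have h2 : ∀ i, Height.logHeight₁ (p i / q : K) ≤ t * Real.log ‖p‖ + t * Real.log q := fun i => by
    rw [div_eq_mul_inv, ht]
    refine (Height.logHeight₁_mul_le _ _).trans (add_le_add ?_ ?_)
    · refine MP_651af7_nt.Av.logHeight₁_intCast_le _ a1 (le_trans ?_ (Real.le_exp_log _))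
      rw [← Int.norm_eq_abs]
      exact norm_le_pi_norm p i
    · rw [Height.logHeight₁_inv, ← Int.cast_natCast (R := K)]
      refine MP_651af7_nt.Av.logHeight₁_intCast_le _ a2 (le_trans ?_ (Real.le_exp_log _))
      simp
  have h3 := hC fun i => (p i / q : K)
  rw [Fin.sum_univ_three] at h3
  refine (Real.log_le_log (inv_pos.2 (w.1.pos hf)) (le_max_left _ 1)).trans
    (h1.trans (h3.trans ?_))
  rw [mul_assoc]
  refine mul_le_mul_of_nonneg_left ?_ h0
  have := h2 0
  have := h2 1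
  have := h2 2
  nlinarith

/-- The rational components of a polynomial. -/
theorem exists_comp (f : MvPolynomial (Fin 3) K) :
    ∃ φ : Free.ChooseBasisIndex ℤ (𝓞 K) → A3, ∀ (x : Fin 3 → ℚ) j,
      aeval x (φ j) = (integralBasis K).repr (eval (fun i => (x i : K)) f) j := by
  induction f using MvPolynomial.induction_on with
  | C a => exact ⟨fun j => C ((integralBasis K).repr a j), fun x j => by simp⟩
  | add f g hf hg =>
    obtain ⟨φ, hφ⟩ := hf
    obtain ⟨ψ, hψ⟩ := hg
    exact ⟨φ + ψ, fun x j => by simp only [Pi.add_apply, map_add, hφ, hψ, Finsupp.add_apply]⟩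
  | mul_X f i hf =>
    obtain ⟨φ, hφ⟩ := hf
    refine ⟨fun j => φ j * X i, fun x j => ?_⟩
    rw [map_mul, map_mul, aeval_X, eval_X, hφ, mul_comm (eval _ _), ← Rat.smul_def, map_smul,
      Finsupp.smul_apply, smul_eq_mul, mul_comm]

theorem repr_le (j : Free.ChooseBasisIndex ℤ (𝓞 K)) : ∃ c : ℝ, 0 ≤ c ∧ ∀ a : K,
    |((integralBasis K).repr a j : ℝ)| ≤ c * house a := by
  refine ⟨‖LinearMap.toContinuousLinearMap ((canonicalEmbedding.latticeBasis K).coord j)‖,
    ContinuousLinearMap.opNorm_nonneg _, fun a => le_trans (le_of_eq ?_) (ContinuousLinearMap.le_opNorm _ _)⟩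
  rw [LinearMap.coe_toContinuousLinearMap', Basis.coord_apply,
    canonicalEmbedding.integralBasis_repr_apply, Complex.norm_ratCast]

end

theorem main (C : Co) (K : Type) [Field K] [NumberField K] (S : Finset (FinitePlace K))
    (f : FinitePlace K → MvPolynomial (Fin 3) K) {ε : ℝ} (hε : 0 < ε) :
    ∃ c₁ c₂ : ℝ, ∀ (p : Fin 3 → ℤ) (q : ℕ) (H : ℝ), 0 < q →
      C.F (p 0 / q : ℚ) (p 1 / q) (p 2 / q) = 0 → 1 ≤ H →
      (∀ w ∈ S, eval (fun i => (p i / q : K)) (f w) ≠ 0 ∧
        house (eval (fun i => (p i / q : K)) (f w)) ≤ H) →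
      ∑ w ∈ S, Real.log (w (eval (fun i => (p i / q : K)) (f w)))⁻¹ ≤
        finrank ℚ K * Real.log H + ε * Real.log ‖p‖ + c₁ * Real.log q + c₂ := by
  by_contra hc
  push Not at hc
  choose p q H hq hF hH hf hlt using fun m : ℕ => hc m m
  choose c c0 hc using fun w => triv_one w (f w)
  obtain ⟨s, hs⟩ : ∃ s : ℝ, s = ∑ w ∈ S, c w + 1 := ⟨_, rfl⟩
  have s0 : 0 < s := hs ▸ add_pos_of_nonneg_of_pos (sum_nonneg fun w _ => c0 w) one_pos
  obtain ⟨n, hn⟩ : ∃ n : ℝ, n = finrank ℚ K := ⟨_, rfl⟩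
  have n1 : 1 ≤ n := hn ▸ Nat.one_le_cast.2 finrank_pos
  rw [← hn] at hlt
  have a1 := fun m => log_norm_nonneg (p m)
  have a2 : ∀ m, 0 ≤ Real.log (q m) := fun m => Real.log_natCast_nonneg _
  have a3 := fun m => Real.log_nonneg (hH m)
  have k1 : ∀ m : ℕ, Real.log (H m) + m * (Real.log (q m) + 1) ≤
      s * (Real.log ‖p m‖ + (Real.log (q m) + 1)) := fun m => by
    have h1 := (hlt m).le.trans (sum_le_sum fun w hw => hc w (p m) (q m) (hq m) (hf m w hw).1)
    rw [← sum_mul] at h1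
    have h2 := mul_le_mul_of_nonneg_right n1 (a3 m)
    have h3 := mul_nonneg hε.le (a1 m)
    have := a1 m
    have := a2 m
    rw [hs]
    linarith
  have k2 : ∀ δ : ℝ, 0 < δ → ∀ᶠ m in atTop, Real.log (q m) + 1 ≤ δ * Real.log ‖p m‖ := by
    intro δ hδ
    filter_upwards [(tendsto_natCast_atTop_atTop (R := ℝ)).eventually_ge_atTop (s + s / δ)]
      with m hm
    have h1 := mul_le_mul_of_nonneg_right hm (add_nonneg (a2 m) zero_le_one)
    have h2 : s / δ * (Real.log (q m) + 1) ≤ s * Real.log ‖p m‖ := by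
      have := k1 m
      have := a3 m
      linarith
    rw [div_mul_eq_mul_div, div_le_iff₀ hδ, mul_assoc] at h2
    exact (le_of_mul_le_mul_left h2 s0).trans_eq (mul_comm _ _)
  have hU := Ultrafilter.of_le (atTop : Filter ℕ)
  let D : Sq ℕ := ⟨Ultrafilter.of atTop, p, q, hq, tendsto_atTop.2 fun B => by
    filter_upwards [hU (k2 (1 / (|B| + 1)) (by positivity))] with m hm
    have h1 : 1 ≤ 1 / (|B| + 1) * Real.log ‖p m‖ := le_trans (by linarith [a2 m]) hm
    rw [one_div, ← div_eq_inv_mul, one_le_div (by positivity)] at h1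
    linarith [le_abs_self B],
    fun δ hδ => ((k2 δ hδ).filter_mono hU).mono fun m hm => le_trans (by linarith) hm⟩
  have k3 : ∀ᶠ m in D.U, 0 < Real.log ‖p m‖ := D.big.eventually_gt_atTop 0
  obtain ⟨r, hr, hl⟩ := (isCompact_Icc (a := (0 : ℝ)) (b := 2 * s)).ultrafilter_le_nhds
    (D.U.map fun m => Real.log (H m) / Real.log ‖p m‖) (le_principal_iff.2 (by
      change ∀ᶠ m in (D.U : Filter ℕ), Real.log (H m) / Real.log ‖p m‖ ∈ Set.Icc 0 (2 * s)
      filter_upwards [k3, hU (k2 1 one_pos)] with m h1 h2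
      refine ⟨div_nonneg (a3 m) h1.le, (div_le_iff₀ h1).2 ?_⟩
      have h3 := mul_le_mul_of_nonneg_left (show _ ≤ 1 * Real.log ‖p m‖ from h2) s0.le
      have h4 : 0 ≤ (m : ℝ) * (Real.log (q m) + 1) :=
        mul_nonneg m.cast_nonneg (add_nonneg (a2 m) zero_le_one)
      have := k1 m
      linarith))
  change Tendsto _ (D.U : Filter ℕ) _ at hl
  obtain ⟨η, hη⟩ : ∃ η : ℝ, η = ε / (2 * n + 1) := ⟨_, rfl⟩
  have η0 : 0 < η := hη ▸ div_pos hε (by linarith)
  have e1 : (2 * n + 1) * η = ε := by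
    rw [hη]
    exact mul_div_cancel₀ _ (by linarith)
  choose φ hφ using fun w => exists_comp (f w)
  have e2 : ∀ m w j, D.ev m (φ w j) =
      (integralBasis K).repr (eval (fun i => (p m i / q m : K)) (f w)) j := fun m w j => by
    simpa only [Rat.cast_div, Rat.cast_intCast, Rat.cast_natCast, Sq.ev] using
      hφ w (fun i => (p m i : ℚ) / q m) j
  have e3 : ∀ m w, ∑ j, integralBasis K j * (D.ev m (φ w j) : K) =
      eval (fun i => (p m i / q m : K)) (f w) := fun m w => by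
    refine Eq.trans (sum_congr rfl fun j _ => ?_) ((integralBasis K).sum_repr _)
    rw [e2, Rat.smul_def, mul_comm]
  have k4 := D.core K (C := C) (Eventually.of_forall fun m => by
      rw [C.map_F]
      simpa [Sq.ev] using hF m) S (θ := ⟨Real.exp (r + η), (Real.exp_pos _).le⟩)
    (NNReal.one_lt_coe.1 (Real.one_lt_exp_iff.2 (add_pos_of_nonneg_of_pos hr.1 η0)))
    (fun _ => integralBasis K) (fun w => φ w.1) (fun w j => by
      obtain ⟨b, b0, hb⟩ := repr_le j
      refine NNReal.coe_le_coe.1 (D.v_le (c := b) ?_)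
      filter_upwards [k3, hl.eventually_lt_const (lt_add_of_pos_right r η0)] with m h1 h2
      rw [e2]
      refine (hb _).trans (mul_le_mul_of_nonneg_left ((hf m w.1 w.2).2.trans ?_) b0)
      exact (Real.le_exp_log _).trans (Real.exp_le_exp.2 ((div_lt_iff₀ h1).1 h2).le))
    (fun w => Eventually.of_forall fun m => by
      rw [e3]
      exact (hf m w.1 w.2).1) η0
  obtain ⟨m, h1, h2, h3⟩ := (k3.and ((hl.eventually_const_lt (sub_lt_self r η0)).and k4)).exists
  simp only [e3, ← hn] at h3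
  have h4 := hlt m
  simp only [Real.log_inv, sum_neg_distrib] at h4
  rw [← sum_coe_sort S] at h4
  rw [lt_div_iff₀ h1] at h2
  have h5 := mul_le_mul_of_nonneg_left h2.le (zero_le_one.trans n1)
  have h6 := mul_nonneg (Nat.cast_nonneg (α := ℝ) m) (a2 m)
  have h7 : (0 : ℝ) ≤ m := m.cast_nonneg
  change _ ≤ (n * Real.log (Real.exp (r + η)) + η) * Real.log ‖p m‖ at h3
  rw [Real.log_exp] at h3
  rw [← e1] at h4
  linarith

end Pool.Agent.Lib.MP_8865d3_nt.Mk
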