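import Pool.Agent.Lib.MP_8865d3_nt.Mk.MarkA

/-! The part of a Markoff number supported on a finite set of primes. -/

open MvPolynomial NumberField

namespace Pool.Agent.Lib.MP_8865d3_nt.Mk

variable {K : Type} [Field K] [NumberField K]

theorem fp_int (w : FinitePlace K) (n : ℤ) : w n ≤ 1 :=
  IsNonarchimedean.apply_intCast_le_one (f := w) fun a b => w.add_le a b

theorem gauss_eq (g : GaussianInt) : g = g.re + g.im * ⟨0, 1⟩ := by
  ext <;> simp

theorem fp_gauss (φ : GaussianInt →+* K) (w : FinitePlace K) (g : GaussianInt) : w (φ g) ≤ 1 := by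
  have h1 : w (φ ⟨0, 1⟩) * w (φ ⟨0, 1⟩) = 1 := by
    rw [← map_mul, ← map_mul, show (⟨0, 1⟩ : GaussianInt) * ⟨0, 1⟩ = -1 from rfl, map_neg,
      map_neg_eq_map, map_one, map_one]
  have h2 : w (φ ⟨0, 1⟩) = 1 := (mul_self_eq_one_iff.1 h1).resolve_right fun e => by
    linarith [apply_nonneg w (φ ⟨0, 1⟩)]
  rw [gauss_eq g, map_add, map_mul, map_intCast, map_intCast]
  refine (w.add_le _ _).trans (max_le (fp_int w _) ?_)
  rw [map_mul, h2, mul_one]
  exact fp_int w _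

theorem house_gauss (φ : GaussianInt →+* K) (g : GaussianInt) {H : ℝ} (hH : 0 ≤ H)
    (h : (g.norm : ℝ) ≤ H ^ 2) : house (φ g) ≤ H := by
  refine (pi_norm_le_iff_of_nonneg hH).2 fun σ => ?_
  have h1 : σ (φ ⟨0, 1⟩) ^ 2 = Complex.I ^ 2 := by
    rw [sq, ← map_mul, ← map_mul, show (⟨0, 1⟩ : GaussianInt) * ⟨0, 1⟩ = -1 from rfl,
      Complex.I_sq, map_neg, map_neg, map_one, map_one]
  refine abs_le_of_sq_le_sq' (le_of_eq_of_le ?_ h) hH |>.2
  rw [canonicalEmbedding.apply_at, Complex.sq_norm, Zsqrtd.norm_def]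
  conv_lhs => rw [gauss_eq g]
  rw [map_add, map_mul, map_intCast, map_intCast, map_add, map_mul, map_intCast, map_intCast]
  rcases sq_eq_sq_iff_eq_or_eq_neg.1 h1 with e | e <;> rw [e] <;> simp [Complex.normSq_apply]

theorem sum_part (T : Finset ℕ) : ∃ S : Finset (FinitePlace K), ∀ s : ℕ, s ≠ 0 →
    (∀ p, p.Prime → p ∣ s → p ∈ T) →
    ∑ w ∈ S, -Real.log (w s) = Module.finrank ℚ K * Real.log s := by
  classical
  have hf : ∀ p : ℕ, p ≠ 0 → (Function.mulSupport fun w : FinitePlace K => w p).Finite :=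
    fun p hp => FinitePlace.hasFiniteMulSupport (Nat.cast_ne_zero.2 hp)
  have hT : (⋃ p ∈ T.erase 0, Function.mulSupport fun w : FinitePlace K => w p).Finite :=
    Set.Finite.biUnion (Finset.finite_toSet _) fun p hp => hf p (Finset.mem_erase.1 hp).1
  refine ⟨hT.toFinset, fun s hs h => ?_⟩
  have h1 : ∀ w : FinitePlace K, w ∉ hT.toFinset → w s = 1 := fun w hw => by
    induction s using Nat.recOnMul with
    | zero => exact absurd rfl hs
    | one => rw [Nat.cast_one, map_one]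
    | prime p hp =>
      by_contra n
      exact hw (hT.mem_toFinset.2 (Set.mem_biUnion
        (Finset.mem_coe.2 (Finset.mem_erase.2 ⟨hs, h p hp dvd_rfl⟩)) n))
    | mul a b ha hb =>
      rw [Nat.cast_mul, map_mul, ha (left_ne_zero_of_mul hs) fun p hp k => h p hp (k.mul_right _),
        hb (right_ne_zero_of_mul hs) fun p hp k => h p hp (k.mul_left _), one_mul]
  have h2 := FinitePlace.prod_eq_inv_abs_norm (K := K) (Nat.cast_ne_zero.2 hs)
  rw [finprod_eq_prod_of_mulSupport_subset (s := hT.toFinset) _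
    fun w hw => by_contra fun n => hw (h1 w n),
    show (s : K) = algebraMap ℚ K s from (map_natCast _ s).symm, Algebra.norm_algebraMap,
    map_natCast] at h2
  rw [Finset.sum_neg_distrib, ← Real.log_prod
    fun w _ => (FinitePlace.pos_iff.2 (Nat.cast_ne_zero.2 hs)).ne', h2]
  simp

theorem Gd.star {z u G : GaussianInt} {m t : ℤ} (h : Gd z u G m t) :
    Gd (star z) (star u) (star G) m t := by
  obtain ⟨h1, h2, v, h3⟩ := h
  refine ⟨star_ne_zero.2 h1, by rwa [Zsqrtd.norm_conj], Star.star v, ?_⟩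
  rw [← star_pow, ← star_pow, ← star_mul', h3, star_mul']

theorem Gd.loc {u G : GaussianInt} {z m t : ℤ} (h : Gd z u G m t) (φ : GaussianInt →+* K)
    (hφ : Function.Injective φ) (w : FinitePlace K) (hu : w 2 ≤ w (φ u)) {s : ℕ}
    (hs : (s : ℤ) ∣ z) (hz : z ≠ 0) :
    2 * -Real.log (w s) + 2 * Real.log (w 2) ≤ -Real.log (w (φ G)) := by
  obtain ⟨h1, -, v, h3⟩ := h
  obtain ⟨c, rfl⟩ := hs
  have k0 : 0 < w 2 := FinitePlace.pos_iff.2 two_ne_zero
  have k1 : 0 < w (φ G) := FinitePlace.pos_iff.2 ((map_ne_zero_iff φ hφ).2 h1)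
  have k2 : 0 < w s := FinitePlace.pos_iff.2 (by exact_mod_cast left_ne_zero_of_mul hz)
  have k3 := congrArg (fun a => w (φ a)) h3
  simp only [map_mul, map_pow, Int.cast_mul, map_intCast, Int.cast_natCast, map_natCast] at k3
  have k4 : w (φ G) * w 2 ^ 2 ≤ w s ^ 2 := by
    refine (mul_le_mul_of_nonneg_left (pow_le_pow_left₀ k0.le hu 2) k1.le).trans (k3.trans_le ?_)
    refine (mul_le_of_le_one_right (sq_nonneg _) (fp_gauss φ w v)).trans ?_
    exact pow_le_pow_left₀ (mul_nonneg k2.le (apply_nonneg w _))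
      (mul_le_of_le_one_right k2.le (fp_int w c)) 2
  have k5 := Real.log_le_log (by positivity) k4
  rw [Real.log_mul k1.ne' (by positivity), Real.log_pow, Real.log_pow] at k5
  push_cast at k5
  linarith

theorem two_le {x y : ℤ} (h : IsCoprime x y) (φ : GaussianInt →+* K) (w : FinitePlace K) :
    w 2 ≤ w (φ (x - ⟨0, 1⟩ * y)) ∨ w 2 ≤ w (φ (star (x - ⟨0, 1⟩ * y))) := by
  obtain ⟨a, b, h⟩ := h
  have k : (2 : GaussianInt) = ⟨a, b⟩ * (x - ⟨0, 1⟩ * y) +
      ⟨a, -b⟩ * star (x - ⟨0, 1⟩ * y : GaussianInt) := by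
    ext
    · simp
      linear_combination -2 * h
    · simp
      ring
  have k1 := congrArg φ k
  rw [map_ofNat, map_add, map_mul, map_mul] at k1
  refine (le_max_iff.1 ((congrArg w k1).trans_le (w.add_le _ _))).imp (fun l => l.trans ?_)
    fun l => l.trans ?_ <;> rw [map_mul] <;>
    exact mul_le_of_le_one_left (apply_nonneg w _) (fp_gauss φ w _)

omit [NumberField K] in
theorem eval_gauss (φ : GaussianInt →+* K) (x y z : ℤ) (G : MvPolynomial (Fin 3) GaussianInt) :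
    eval ![(x : K), y, z] (map φ G) = φ (eval ![(x : GaussianInt), y, z] G) := by
  rw [eval_map, ← eval₂_id, eval₂_comp_left, RingHom.comp_id]
  congr 1
  funext i
  fin_cases i <;> simp

theorem markoff_of (φ : GaussianInt →+* K) (hφ : Function.Injective φ)
    (hyp : ∀ (S : Finset (FinitePlace K)) (f : S → MvPolynomial (Fin 3) K) (ε : ℝ), 0 < ε →
      ∃ C : ℝ, ∀ x y z : ℤ, 0 < x → 0 < y → x ≤ z → y ≤ z → z ^ 2 + x ^ 2 + y ^ 2 = 3 * z * x * y →
        ∀ H : ℝ, 1 ≤ H → (∀ w, eval ![(x : K), y, z] (f w) ≠ 0 ∧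
          house (eval ![(x : K), y, z] (f w)) ≤ H) →
        ∑ w : S, -Real.log (w.1 (eval ![(x : K), y, z] (f w))) ≤
          Module.finrank ℚ K * Real.log H + ε * Real.log z + C)
    (T : Finset ℕ) {ε : ℝ} (hε : 0 < ε) : ∃ C : ℝ, ∀ x y z s : ℕ, 0 < x → 0 < y → 0 < z →
      x ^ 2 + y ^ 2 + z ^ 2 = 3 * x * y * z → s ∣ z → (∀ p, p.Prime → p ∣ s → p ∈ T) →
      (s : ℝ) ≤ C * (z : ℝ) ^ (1 / 2 + ε) := by
  classical
  obtain ⟨S, hS⟩ := sum_part (K := K) T
  obtain ⟨L, hL⟩ := exists_nat_gt (6 / ε)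
  have hL0 : (0 : ℝ) < L := (by positivity : 0 < 6 / ε).trans hL
  obtain ⟨V, hV⟩ := mark_fun L
  choose C hC using fun ψ : S → (V ∪ V.image (map (starRingEnd GaussianInt)) : Finset _) =>
    hyp S (fun w => map φ (ψ w).1) ε hε
  refine ⟨Real.exp (Real.log 12 + ∑ ψ, |C ψ| + |∑ w : S, Real.log (w.1 2)|),
    fun x₀ y₀ z s h1 h2 h3 h4 hs hT => ?_⟩
  obtain ⟨x, y, k1, k2, k3, k4, k5⟩ := mark_max z (by omega) (x₀ + y₀ + 1) x₀ y₀ (by omega)
    (by omega) (by omega) (by zify at h4; linear_combination h4)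
  have hc := (mark_cop (x + y + z + 1).toNat x y z (by omega) k1 k2 (by omega) k5).1
  have z1 : (1 : ℝ) ≤ z := Nat.one_le_cast.2 h3
  have z0 : (0 : ℝ) < z := by linarith
  set ρ : ℝ := (z : ℝ) ^ (3 / L : ℝ) with hρ
  have ρ1 : 1 ≤ ρ := Real.one_le_rpow z1 (by positivity)
  have t1 : ρ < ((⌊ρ⌋ + 1 : ℤ) : ℝ) := by
    push_cast
    exact Int.lt_floor_add_one ρ
  have t2 : ((⌊ρ⌋ + 1 : ℤ) : ℝ) ≤ 2 * ρ := by
    push_cast
    linarith [Int.floor_le ρ]
  generalize ⌊ρ⌋ + 1 = t at t1 t2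
  have t3 : 1 ≤ t := by exact_mod_cast (ρ1.trans t1.le)
  obtain ⟨G, hG, g1⟩ := hV x y z t k1 k2 k3 k4 k5 t3 (by
    have := pow_lt_pow_left₀ t1 (by linarith) (Nat.cast_pos.1 hL0).ne'
    rw [hρ, ← Real.rpow_natCast, ← Real.rpow_mul z0.le, div_mul_cancel₀ _ hL0.ne',
      show (3 : ℝ) = (3 : ℕ) by norm_num, Real.rpow_natCast] at this
    exact_mod_cast this)
  have g2 := g1.star
  rw [star_intCast, ← starRingEnd_apply (x := eval _ G), ← eval₂_id, eval₂_comp_left,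
    RingHom.comp_id, ← eval_map, show starRingEnd GaussianInt ∘ ![(x : GaussianInt), y, (z : ℤ)] =
      ![(x : GaussianInt), y, (z : ℤ)] from funext fun i => by fin_cases i <;> simp] at g2
  have key : ∀ w : S, ∃ G' : (V ∪ V.image (map (starRingEnd GaussianInt)) : Finset _), ∃ u,
      w.1 2 ≤ w.1 (φ u) ∧ Gd (z : ℤ) u (eval ![(x : GaussianInt), y, (z : ℤ)] G'.1) z t :=
    fun w => (two_le hc φ w.1).elim (fun l => ⟨⟨G, Finset.mem_union_left _ hG⟩, _, l, g1⟩)
      fun l => ⟨⟨_, Finset.mem_union_right _ (Finset.mem_image_of_mem _ hG)⟩, _, l, g2⟩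
  choose ψ u l1 l2 using key
  have hH : (1 : ℝ) ≤ 12 * z * ρ ^ 2 := by nlinarith [one_le_pow₀ (n := 2) ρ1]
  have m1 := hC ψ x y z k1 k2 k3 k4 k5 _ hH fun w => by
    rw [eval_gauss]
    refine ⟨(map_ne_zero_iff φ hφ).2 (l2 w).1, house_gauss φ _ (by linarith) ?_⟩
    have l3 : ((eval ![(x : GaussianInt), y, (z : ℤ)] (ψ w).1).norm : ℝ) ≤ 9 * z ^ 2 * t ^ 4 := by
      exact_mod_cast (l2 w).2.1
    have l4 := pow_le_pow_left₀ (by linarith) t2 4
    nlinarith [mul_le_mul_of_nonneg_left l4 (sq_nonneg (z : ℝ))]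
  have s0 : s ≠ 0 := fun e => h3.ne' (zero_dvd_iff.1 (e ▸ hs))
  have m2 := Finset.sum_le_sum fun w (_ : w ∈ Finset.univ) =>
    (l2 w).loc φ hφ w.1 (l1 w) (Int.natCast_dvd_natCast.2 hs) (by omega)
  simp only [eval_gauss] at m1
  rw [Finset.sum_add_distrib, ← Finset.mul_sum, ← Finset.mul_sum,
    Finset.sum_coe_sort S fun w => -Real.log (w s), hS s s0 hT] at m2
  rw [Real.log_mul (by positivity) (by positivity), Real.log_mul (by norm_num) z0.ne',
    Real.log_pow, hρ, Real.log_rpow z0, Int.cast_natCast] at m1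
  have n1 : (1 : ℝ) ≤ Module.finrank ℚ K := Nat.one_le_cast.2 Module.finrank_pos
  have a1 := (le_abs_self _).trans (Finset.single_le_sum (f := fun ψ => |C ψ|)
    (fun _ _ => abs_nonneg _) (Finset.mem_univ ψ))
  have a2 := neg_abs_le (∑ w : S, Real.log (w.1 2))
  have a3 := abs_nonneg (∑ w : S, Real.log (w.1 2))
  have a4 : 0 ≤ ∑ ψ, |C ψ| := Finset.sum_nonneg fun _ _ => abs_nonneg _
  have a5 := Real.log_nonneg z1
  have a6 : 0 ≤ Real.log 12 := Real.log_nonneg (by norm_num)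
  have a7 : 3 / L * Real.log z ≤ ε / 2 * Real.log z := mul_le_mul_of_nonneg_right (by
    rw [div_lt_iff₀ hε] at hL
    rw [div_le_iff₀ hL0]
    linarith) a5
  rw [Real.rpow_def_of_pos z0, ← Real.exp_add, ← Real.log_le_iff_le_exp
    (Nat.cast_pos.2 (Nat.pos_of_ne_zero s0))]
  refine le_of_mul_le_mul_left ?_ (by linarith : 0 < 2 * (Module.finrank ℚ K : ℝ))
  push_cast at m1
  generalize (Module.finrank ℚ K : ℝ) = n at m1 m2 n1 ⊢
  have b1 := mul_le_mul_of_nonneg_left a7 (by linarith : 0 ≤ n)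
  have b2 := le_mul_of_one_le_left (mul_nonneg hε.le a5) n1
  have b3 := le_mul_of_one_le_left a3 n1
  have b4 := le_mul_of_one_le_left a4 n1
  have b5 := mul_nonneg (by linarith : 0 ≤ n) a6
  have b6 := m2.trans m1
  linarith

end Pool.Agent.Lib.MP_8865d3_nt.Mk
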