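import Pool.Agent.Lib.MP_8865d3_nt.Mk.Main
import Pool.Agent.Lib.MP_8865d3_nt.Mk.MarkB

/-! The part of a Markoff number that is composed of given primes. -/

namespace Pool.Agent.Lib.MP_8865d3_nt.Mk

open Finset MvPolynomial NumberField

theorem exists_gauss : ∃ φ : GaussianInt →+* CyclotomicField 4 ℚ, Function.Injective φ := by
  obtain ⟨ζ, h⟩ := (CyclotomicField.isCyclotomicExtension 4 ℚ).exists_isPrimitiveRoot
    (Set.mem_singleton 4) (by norm_num)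
  replace h := h.pow (by norm_num) (show 4 = 2 * 2 from rfl)
  refine ⟨Zsqrtd.lift ⟨ζ, by rw [← sq, h.eq_neg_one_of_two_right]; simp⟩,
    Zsqrtd.lift_injective _ fun n hn => ?_⟩
  nlinarith [mul_self_nonneg n]

/-- The Markoff cubic. -/
def coM : Co := ⟨1, 1, 1, -3, 0, 0, 0, 0, 0, 0, 0, one_ne_zero, one_ne_zero, one_ne_zero, by norm_num⟩

theorem markoff_dvd (T : Finset ℕ) {ε : ℝ} (hε : 0 < ε) : ∃ C : ℝ, ∀ x y z s : ℕ, 0 < x → 0 < y →
    0 < z → x ^ 2 + y ^ 2 + z ^ 2 = 3 * x * y * z → s ∣ z → (∀ p, p.Prime → p ∣ s → p ∈ T) →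
    (s : ℝ) ≤ C * (z : ℝ) ^ (1 / 2 + ε) := by
  classical
  obtain ⟨φ, hφ⟩ := exists_gauss
  refine markoff_of φ hφ (fun S f ε hε => ?_) T hε
  obtain ⟨c₁, c₂, h⟩ := main coM _ S (fun w => if h : w ∈ S then f ⟨w, h⟩ else 0) hε
  refine ⟨c₂, fun x y z h1 h2 h3 h4 h5 H hH hf => ?_⟩
  have e : (fun i => (((![x, y, z] : Fin 3 → ℤ) i : CyclotomicField 4 ℚ) / (1 : ℕ))) =
      ![(x : CyclotomicField 4 ℚ), y, z] := funext fun i => by fin_cases i <;> simp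
  have k := h ![x, y, z] 1 H one_pos (by
    have : ((z : ℚ) ^ 2 + x ^ 2 + y ^ 2) = 3 * z * x * y := by exact_mod_cast h5
    simp only [Co.F, coM, Matrix.cons_val, smul_eq_mul, Nat.cast_one, div_one]
    linear_combination this) hH fun w hw => by
      rw [e, dif_pos hw]
      exact hf ⟨w, hw⟩
  have n : ‖(![x, y, z] : Fin 3 → ℤ)‖ = z := by
    have z0 : (0 : ℝ) ≤ z := by exact_mod_cast h1.le.trans h3
    refine le_antisymm ((pi_norm_le_iff_of_nonneg z0).2 fun i => ?_)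
      ((le_abs_self _).trans (norm_le_pi_norm (![x, y, z] : Fin 3 → ℤ) 2))
    rw [Int.norm_eq_abs, ← Int.cast_abs, Int.cast_le]
    fin_cases i <;> simp only [Matrix.cons_val, Fin.reduceFinMk, abs_le] <;> omega
  rw [e, n, Nat.cast_one, Real.log_one, mul_zero, add_zero, ← sum_coe_sort S] at k
  refine le_of_eq_of_le (sum_congr rfl fun w _ => ?_) k
  rw [Real.log_inv, dif_pos w.2]

theorem markoff (S : Finset ℕ) (hS : ∀ p ∈ S, p.Prime) {ε : ℝ} (hε : 0 < ε) :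
    ∃ C : ℝ, ∀ x y z : ℕ, 0 < z → x ^ 2 + y ^ 2 + z ^ 2 = 3 * x * y * z →
      ∏ p ∈ S, (p : ℝ) ^ z.factorization p ≤ C * (z : ℝ) ^ (1 / 2 + ε) := by
  obtain ⟨C, hC⟩ := markoff_dvd S hε
  refine ⟨C, fun x y z hz h => ?_⟩
  have h0 : 0 < 3 * x * y * z := h ▸ by positivity
  have k := hC x y z (∏ p ∈ S, p ^ z.factorization p) (Nat.pos_of_ne_zero fun e => by simp [e] at h0)
    (Nat.pos_of_ne_zero fun e => by simp [e] at h0) hz h
    (Finset.prod_dvd_of_isRelPrime (fun p hp q hq n => Nat.coprime_iff_isRelPrime.1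
      (Nat.coprime_pow_primes _ _ (hS p hp) (hS q hq) n)) fun p _ => Nat.ordProj_dvd z p)
    fun p hp l => by
      obtain ⟨q, hq, l⟩ := (Prime.dvd_finsetProd_iff hp.prime _).1 l
      rwa [(Nat.prime_dvd_prime_iff_eq hp (hS q hq)).1 (hp.dvd_of_dvd_pow l)]
  exact_mod_cast k

/-- The greatest prime factor of a Markoff number tends to infinity. -/
theorem markoff_fin (B : ℕ) : {z : ℕ | 0 < z ∧ (∃ x y : ℕ, x ^ 2 + y ^ 2 + z ^ 2 = 3 * x * y * z) ∧
    ∀ p, p.Prime → p ∣ z → p ≤ B}.Finite := by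
  obtain ⟨C, hC⟩ := markoff_dvd (range (B + 1)) (ε := 1 / 4) (by norm_num)
  obtain ⟨N, hN⟩ := exists_nat_ge (C ^ 4)
  refine (Set.finite_Iic N).subset ?_
  rintro z ⟨hz, ⟨x, y, h⟩, hp⟩
  have h0 : 0 < 3 * x * y * z := h ▸ by positivity
  have k := hC x y z z (Nat.pos_of_ne_zero fun e => by simp [e] at h0)
    (Nat.pos_of_ne_zero fun e => by simp [e] at h0) hz h dvd_rfl
    fun p h1 h2 => mem_range.2 (Nat.lt_succ_of_le (hp p h1 h2))
  have z0 : (0 : ℝ) < z := Nat.cast_pos.2 hz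
  have k1 := pow_le_pow_left₀ z0.le k 4
  rw [mul_pow, ← Real.rpow_natCast (_ ^ _), ← Real.rpow_mul z0.le,
    show (1 / 2 + 1 / 4 : ℝ) * (4 : ℕ) = (3 : ℕ) by norm_num, Real.rpow_natCast, pow_succ'] at k1
  exact Nat.cast_le.1 ((le_of_mul_le_mul_right k1 (pow_pos z0 3)).trans hN)

end Pool.Agent.Lib.MP_8865d3_nt.Mk
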