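import Mathlib

/-! Descent of Markoff triples with Gaussian factors. -/

open MvPolynomial

namespace Pool.Agent.Lib.MP_8865d3_nt.Mk

/-- The data carried along the descent, as Gaussian integers. -/
def Car (z u j g r : GaussianInt) (m a b c : ℤ) : Prop :=
  0 < a ∧ 0 < b ∧ 0 < c ∧ c ^ 2 + a ^ 2 + b ^ 2 = 3 * c * a * b ∧ j.re = 0 ∧ j * j = -1 ∧
    z ∣ g * u ∧ z ∣ r * u ∧ g * (a + j * b) = c * r ∧ g.norm = m * c

theorem j_cases {j : GaussianInt} (h : j.re = 0) (h' : j * j = -1) : j = ⟨0, 1⟩ ∨ j = ⟨0, -1⟩ := by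
  have h1 := congrArg Zsqrtd.re h'
  simp only [Zsqrtd.re_mul, h, Zsqrtd.re_neg, Zsqrtd.re_one] at h1
  have h2 : j.im * j.im = 1 := by linarith
  rcases Int.eq_one_or_neg_one_of_mul_eq_one h2 with e | e
  · exact Or.inl (Zsqrtd.ext h e)
  · exact Or.inr (Zsqrtd.ext h e)

theorem norm_lin {j : GaussianInt} (h : j.re = 0) (h' : j * j = -1) (a b : ℤ) :
    ((a : GaussianInt) + j * b).norm = a ^ 2 + b ^ 2 := by
  rcases j_cases h h' with rfl | rfl <;> simp [Zsqrtd.norm_def] <;> ring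

theorem pos_of_mul_pos_of_pos_left' {a b : ℤ} (h : 0 < a * b) (ha : 0 < a) : 0 < b :=
  (mul_pos_iff_of_pos_left ha).1 h

variable {z u j g r : GaussianInt} {m a b c : ℤ}

theorem Car.swap (h : Car z u j g r m a b c) : Car z u (-j) g (-j * r) m b a c := by
  obtain ⟨h1, h2, h3, h4, h5, h6, h7, h8, h9, h0⟩ := h
  refine ⟨h2, h1, h3, by linarith, by simp [h5], by rw [neg_mul_neg, h6], h7,
    mul_assoc (-j) r u ▸ h8.mul_left _, ?_, h0⟩
  linear_combination (-j) * h9 + g * b * h6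

theorem Car.left (h : Car z u j g r m a b c) :
    Car z u (-j) g (3 * b * g - r) m (3 * c * b - a) b c := by
  obtain ⟨h1, h2, h3, h4, h5, h6, h7, h8, h9, h0⟩ := h
  refine ⟨pos_of_mul_pos_of_pos_left' (a := a) (by nlinarith) h1, h2, h3, by linear_combination h4,
    by simp [h5], by rw [neg_mul_neg, h6], h7, ?_, ?_, h0⟩
  · rw [sub_mul, mul_assoc]
    exact (h7.mul_left _).sub h8
  · push_cast
    linear_combination -h9

theorem Car.top (h : Car z u j g r m a b c) : Car z u (-j) r g m a b (3 * a * b - c) := by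
  obtain ⟨h1, h2, h3, h4, h5, h6, h7, h8, h9, h0⟩ := h
  have k : ((c : GaussianInt) ^ 2 + a ^ 2 + b ^ 2) = 3 * c * a * b := by exact_mod_cast h4
  refine ⟨h1, h2, pos_of_mul_pos_of_pos_left' (a := c) (by nlinarith) h3, by linear_combination h4,
    by simp [h5], by rw [neg_mul_neg, h6], h8, h7, ?_, ?_⟩
  · refine mul_left_cancel₀ (Int.cast_ne_zero.2 h3.ne' : (c : GaussianInt) ≠ 0) ?_
    push_cast
    linear_combination (-(a - j * b)) * h9 - g * b ^ 2 * h6 + g * k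
  · have k1 := congrArg Zsqrtd.norm h9
    rw [Zsqrtd.norm_mul, Zsqrtd.norm_mul, norm_lin h5 h6, h0, Zsqrtd.norm_intCast] at k1
    refine mul_left_cancel₀ (mul_ne_zero h3.ne' h3.ne') ?_
    linear_combination -k1 + m * c * h4

theorem Car.norm (h : Car z u j g r m a b c) :
    (r * (r - 3 * j * a * g) - g ^ 2).norm = m ^ 2 * a ^ 2 * (9 * a ^ 2 - 4) := by
  obtain ⟨h1, h2, h3, h4, h5, h6, h7, h8, h9, h0⟩ := h
  have k : ((c : GaussianInt) ^ 2 + a ^ 2 + b ^ 2) = 3 * c * a * b := by exact_mod_cast h4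
  have k1 : (c : GaussianInt) * c * (r * (r - 3 * j * a * g) - g ^ 2) =
      a * (g * g) * (((2 * a : ℤ) : GaussianInt) + j * ((2 * b - 3 * a * c : ℤ) : GaussianInt)) := by
    push_cast
    linear_combination (-(c * r + g * (a + j * b)) + 3 * j * a * g * c) * h9 +
      g ^ 2 * (b ^ 2 - 3 * a * b * c) * h6 - g ^ 2 * k
  have k2 := congrArg Zsqrtd.norm k1
  simp only [Zsqrtd.norm_mul, norm_lin h5 h6, h0, Zsqrtd.norm_intCast] at k2
  refine mul_left_cancel₀ (pow_ne_zero 4 h3.ne') ?_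
  linear_combination k2 + 4 * a ^ 2 * m ^ 2 * c ^ 2 * h4

theorem drop {a b c : ℤ} (h1 : 0 < a) (h2 : 0 < b) (h4 : c ^ 2 + a ^ 2 + b ^ 2 = 3 * c * a * b)
    (ha : a ≤ c) (hb : b ≤ c) {t : ℤ} (h0 : 1 ≤ t) (ta : t < a) (tb : t < b) :
    (3 * a * b - c) * t ≤ c := by
  have k : ∀ {a b : ℤ}, c ^ 2 + a ^ 2 + b ^ 2 = 3 * c * a * b → a ≤ b → b ≤ c → t < a →
      (3 * a * b - c) * t ≤ c := fun {a b} h4 l hb ta => by
    have k1 : (b - c) * (b - (3 * a * b - c)) < 0 := by nlinarith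
    have k2 : 3 * a * b - c < b := by
      by_contra n
      nlinarith
    nlinarith
  rcases le_total a b with l | l
  · exact k h4 l hb ta
  · have := k (a := b) (b := a) (by linarith) l ha tb
    linarith

/-- A good value: small norm and divisible by the square of half of `z`. -/
def Gd (z u G : GaussianInt) (m t : ℤ) : Prop :=
  G ≠ 0 ∧ G.norm ≤ 9 * m ^ 2 * t ^ 4 ∧ z ^ 2 ∣ G * u ^ 2

theorem Car.gd0 (h : Car z u j g r m a b c) (hm : 0 < m) {t : ℤ} (ht : c ≤ t) :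
    Gd z u (g ^ 2) m t := by
  obtain ⟨h1, h2, h3, h4, h5, h6, h7, h8, h9, h0⟩ := h
  refine ⟨pow_ne_zero 2 fun e => ?_, ?_, mul_pow g u 2 ▸ pow_dvd_pow_of_dvd h7 2⟩
  · rw [e, Zsqrtd.norm_zero] at h0
    exact (mul_pos hm h3).ne h0
  · rw [sq, Zsqrtd.norm_mul, h0]
    have k1 : c ^ 2 ≤ t ^ 2 := pow_le_pow_left₀ h3.le ht 2
    have k2 : 1 ≤ t ^ 2 := one_le_pow₀ (by omega)
    have k3 : c ^ 2 ≤ 9 * t ^ 4 := by nlinarith
    nlinarith [mul_le_mul_of_nonneg_left k3 (sq_nonneg m)]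

theorem Car.gd1 (h : Car z u j g r m a b c) (hm : 0 < m) {t : ℤ} (ht : a ≤ t) :
    Gd z u (r * (r - 3 * j * a * g) - g ^ 2) m t := by
  have k := h.norm
  obtain ⟨h1, h2, h3, h4, h5, h6, ⟨v, h7⟩, ⟨w, h8⟩, h9, h0⟩ := h
  refine ⟨fun e => ?_, ?_, w * (w - 3 * j * a * v) - v ^ 2, ?_⟩
  · rw [e, Zsqrtd.norm_zero] at k
    exact (mul_pos (mul_pos (pow_pos hm 2) (pow_pos h1 2)) (by nlinarith)).ne k
  · have k1 : a ^ 4 ≤ t ^ 4 := pow_le_pow_left₀ h1.le ht 4
    rw [k]
    nlinarith [mul_le_mul_of_nonneg_left k1 (sq_nonneg m), sq_nonneg (m * a)]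
  · linear_combination (r * u + z * w - 3 * j * a * g * u) * h8 -
      (3 * j * a * z * w + g * u + z * v) * h7

theorem descent (L : ℕ) : ∀ (j : GaussianInt) (g r a b c : MvPolynomial (Fin 3) GaussianInt),
    ∃ T : Finset (MvPolynomial (Fin 3) GaussianInt), ∀ (P : Fin 3 → GaussianInt)
      (z u : GaussianInt) (m a' b' c' t : ℤ), eval P a = a' → eval P b = b' → eval P c = c' →
      Car z u j (eval P g) (eval P r) m a' b' c' → 0 < m → 1 ≤ t → a' * b' * c' < t ^ L →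
      ∃ G ∈ T, Gd z u (eval P G) m t := by
  classical
  induction L with
  | zero =>
    refine fun j g r a b c => ⟨∅, fun P z u m a' b' c' t _ _ _ h _ _ l => ?_⟩
    have := mul_pos (mul_pos h.1 h.2.1) h.2.2.1
    rw [pow_zero] at l
    omega
  | succ L ih =>
    intro j g r a b c
    obtain ⟨T1, k1⟩ := ih (-j) r g a b (3 * a * b - c)
    obtain ⟨T2, k2⟩ := ih (-j) g (3 * b * g - r) (3 * c * b - a) b c
    obtain ⟨T3, k3⟩ := ih (- -j) g (3 * a * g - C (-j) * r) (3 * c * a - b) a c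
    refine ⟨{g ^ 2, r * (r - 3 * C j * a * g) - g ^ 2,
      C (-j) * r * (C (-j) * r - 3 * C (-j) * b * g) - g ^ 2} ∪ (T1 ∪ (T2 ∪ T3)),
      fun P z u m a' b' c' t ea eb ec h hm ht l => ?_⟩
    have e3 : eval P (3 : MvPolynomial (Fin 3) GaussianInt) = 3 := map_ofNat _ 3
    by_cases lc : c' ≤ t
    · exact ⟨g ^ 2, by simp, map_pow (eval P) g 2 ▸ h.gd0 hm lc⟩
    by_cases la : a' ≤ t
    · refine ⟨r * (r - 3 * C j * a * g) - g ^ 2, by simp, ?_⟩
      simpa only [map_sub, map_mul, map_pow, eval_C, e3, ea] using h.gd1 hm la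
    by_cases lb : b' ≤ t
    · refine ⟨C (-j) * r * (C (-j) * r - 3 * C (-j) * b * g) - g ^ 2, by simp, ?_⟩
      simpa only [map_sub, map_mul, map_pow, eval_C, e3, eb] using h.swap.gd1 hm lb
    rw [not_le] at la lb lc
    have h' := h
    obtain ⟨h1, h2, h3, h4, -⟩ := h'
    have fin : ∀ {x y w w' : ℤ}, 0 < x → 0 < y → w' * t ≤ w → x * y * w < t ^ (L + 1) →
        x * y * w' < t ^ L := fun {x y w w'} hx hy l1 l2 => by
      refine lt_of_mul_lt_mul_right (a := t) ?_ (by omega)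
      rw [← pow_succ, mul_assoc]
      exact (mul_le_mul_of_nonneg_left l1 (mul_pos hx hy).le).trans_lt l2
    by_cases m1 : a' ≤ c' ∧ b' ≤ c'
    · obtain ⟨G, hG, k⟩ := k1 P z u m a' b' (3 * a' * b' - c') t ea eb
        (by simp [ea, eb, ec, e3]) h.top hm ht (fin h1 h2 (drop h1 h2 h4 m1.1 m1.2 ht la lb) l)
      exact ⟨G, by simp [hG], k⟩
    by_cases m2 : b' ≤ a'
    · obtain ⟨G, hG, k⟩ := k2 P z u m (3 * c' * b' - a') b' c' t (by simp [ea, eb, ec, e3]) eb ec
        (by simpa only [map_sub, map_mul, e3, eb] using h.left) hm ht (by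
          have := fin h3 h2 (drop h3 h2 (c := a') (by linarith) (by omega) m2 ht lc lb)
            (by linarith)
          linarith)
      exact ⟨G, by simp [hG], k⟩
    · obtain ⟨G, hG, k⟩ := k3 P z u m (3 * c' * a' - b') a' c' t (by simp [ea, eb, ec, e3]) ea ec
        (by simpa only [map_sub, map_mul, e3, ea, eval_C] using h.swap.left) hm ht (by
          have := fin h3 h1 (drop h3 h1 (c := b') (by linarith) (by omega) (by omega) ht lc la)
            (by linarith)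
          linarith)
      exact ⟨G, by simp [hG], k⟩

theorem mark_step {a b c : ℤ} (h1 : 0 < a) (h2 : 0 < b)
    (h4 : c ^ 2 + a ^ 2 + b ^ 2 = 3 * c * a * b) (ha : a ≤ c) (hb : b ≤ c) :
    c = 1 ∨ (0 < 3 * a * b - c ∧ 3 * a * b - c < c) := by
  have k : ∀ {a b : ℤ}, 0 < a → c ^ 2 + a ^ 2 + b ^ 2 = 3 * c * a * b → a ≤ b → b ≤ c →
      c = 1 ∨ 3 * a * b - c < c := fun {a b} h1 h4 l hb => by
    have k1 : (b - c) * (b - (3 * a * b - c)) = a ^ 2 + 2 * b ^ 2 - 3 * a * b ^ 2 := by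
      linear_combination -h4
    have k2 : a ^ 2 ≤ b ^ 2 := pow_le_pow_left₀ h1.le l 2
    have k3 : b ^ 2 ≤ a * b ^ 2 := le_mul_of_one_le_left (sq_nonneg b) h1
    rcases hb.eq_or_lt with rfl | hb
    · have k4 : a = 1 := by
        by_contra n
        have : 2 * b ^ 2 ≤ a * b ^ 2 := mul_le_mul_of_nonneg_right (by omega) (sq_nonneg b)
        nlinarith
      subst k4
      exact Or.inl (by nlinarith)
    · refine Or.inr ?_
      by_contra n
      nlinarith
  have k0 : 0 < 3 * a * b - c := pos_of_mul_pos_of_pos_left' (a := c) (by nlinarith) (by omega)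
  rcases le_total a b with l | l
  · exact (k h1 h4 l hb).imp_right fun h => ⟨k0, h⟩
  · exact (k (a := b) (b := a) h2 (by linarith) l ha).imp_right fun h => ⟨k0, by linarith⟩

theorem mark_cop (n : ℕ) : ∀ a b c : ℤ, a + b + c < n → 0 < a → 0 < b → 0 < c →
    c ^ 2 + a ^ 2 + b ^ 2 = 3 * c * a * b → IsCoprime a b ∧ IsCoprime a c ∧ IsCoprime b c := by
  induction n with
  | zero => intro a b c; omega
  | succ n ih =>
    have k : ∀ a b c : ℤ, a + b + c < n + 1 → 0 < a → 0 < b →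
        c ^ 2 + a ^ 2 + b ^ 2 = 3 * c * a * b → a ≤ c → b ≤ c →
        IsCoprime a b ∧ IsCoprime a c ∧ IsCoprime b c := fun a b c l h1 h2 h4 ha hb => by
      rcases mark_step h1 h2 h4 ha hb with rfl | ⟨k1, k2⟩
      · obtain rfl : a = 1 := by omega
        exact ⟨isCoprime_one_left, isCoprime_one_left, isCoprime_one_right⟩
      · obtain ⟨l1, l2, l3⟩ := ih a b _ (by omega) h1 h2 k1 (by linear_combination h4)
        refine ⟨l1, ?_, ?_⟩
        · have := l2.neg_right.add_mul_left_right (3 * b)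
          rwa [show -(3 * a * b - c) + a * (3 * b) = c by ring] at this
        · have := l3.neg_right.add_mul_left_right (3 * a)
          rwa [show -(3 * a * b - c) + b * (3 * a) = c by ring] at this
    intro a b c l h1 h2 h3 h4
    push_cast at l
    by_cases m1 : a ≤ c ∧ b ≤ c
    · exact k a b c l h1 h2 h4 m1.1 m1.2
    by_cases m2 : b ≤ a
    · obtain ⟨l1, l2, l3⟩ := k c b a (by omega) h3 h2 (by linarith) (by omega) m2
      exact ⟨l3.symm, l2.symm, l1.symm⟩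
    · obtain ⟨l1, l2, l3⟩ := k c a b (by omega) h3 h1 (by linarith) (by omega) (by omega)
      exact ⟨l3, l1.symm, l2.symm⟩

/-- Every Markoff number is the largest member of a triple. -/
theorem mark_max (c : ℤ) (h3 : 0 < c) (n : ℕ) : ∀ a b : ℤ, a + b < n → 0 < a → 0 < b →
    c ^ 2 + a ^ 2 + b ^ 2 = 3 * c * a * b → ∃ a b : ℤ, 0 < a ∧ 0 < b ∧ a ≤ c ∧ b ≤ c ∧
      c ^ 2 + a ^ 2 + b ^ 2 = 3 * c * a * b := by
  induction n with
  | zero => intro a b; omega
  | succ n ih =>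
    intro a b l h1 h2 h4
    push_cast at l
    by_cases m1 : a ≤ c ∧ b ≤ c
    · exact ⟨a, b, h1, h2, m1.1, m1.2, h4⟩
    by_cases m2 : b ≤ a
    · obtain ⟨k1, k2⟩ := (mark_step (c := a) h3 h2 (by linarith) (by omega) m2).resolve_left
        (by omega)
      exact ih _ b (by omega) k1 h2 (by linear_combination h4)
    · obtain ⟨k1, k2⟩ := (mark_step (c := b) h3 h1 (by linarith) (by omega) (by omega)).resolve_left
        (by omega)
      exact ih a _ (by omega) h1 k1 (by linear_combination h4)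

/-- The function with a double zero along one half of `z = 0`, from a finite list. -/
theorem mark_fun (L : ℕ) : ∃ T : Finset (MvPolynomial (Fin 3) GaussianInt), ∀ x y z t : ℤ,
    0 < x → 0 < y → x ≤ z → y ≤ z → z ^ 2 + x ^ 2 + y ^ 2 = 3 * z * x * y → 1 ≤ t → z ^ 3 < t ^ L →
    ∃ G ∈ T, Gd z (x - ⟨0, 1⟩ * y) (eval ![(x : GaussianInt), y, z] G) z t := by
  obtain ⟨T, hT⟩ := descent L ⟨0, 1⟩ (X 2)
    (X 0 + C ⟨0, 1⟩ * X 1) (X 0) (X 1) (X 2)
  refine ⟨T, fun x y z t h1 h2 l1 l2 h4 ht l => hT _ _ _ z x y z t (by simp) (by simp) (by simp)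
    ⟨h1, h2, by omega, h4, rfl, rfl, ?_, ⟨3 * x * y - z, ?_⟩, by simp, by simp⟩ (by omega) ht ?_⟩
  · simp
  · have k : ((z : GaussianInt) ^ 2 + x ^ 2 + y ^ 2) = 3 * z * x * y := by exact_mod_cast h4
    have k' : (⟨0, 1⟩ : GaussianInt) * ⟨0, 1⟩ = -1 := rfl
    simp only [map_add, map_mul, eval_X, eval_C, Matrix.cons_val_zero, Matrix.cons_val_one]
    linear_combination k - (y : GaussianInt) ^ 2 * k'
  · refine lt_of_le_of_lt ?_ l
    have := mul_le_mul l1 l2 h2.le (by omega)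
    nlinarith

end Pool.Agent.Lib.MP_8865d3_nt.Mk
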