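import Mathlib

/-! Triples on a cubic surface with a triangle at infinity, and the descent. -/

namespace Pool.Agent.Lib.MP_8865d3_nt.Mk

open scoped NNReal

/-- The coefficients of the cubic. -/
structure Co where
  (a b c d l m n e f g k : ℚ)
  ha : a ≠ 0
  hb : b ≠ 0
  hc : c ≠ 0
  hd : d ≠ 0

variable {R : Type} [CommRing R] [Algebra ℚ R]

namespace Co

variable (C : Co)

/-- The cubic. -/
def F (x y z : R) : R := C.a • x ^ 2 + C.b • y ^ 2 + C.c • z ^ 2 + C.d • (x * y * z) +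
  C.l • (y * z) + C.m • (x * z) + C.n • (x * y) + C.e • x + C.f • y + C.g • z + C.k • 1

/-- Exchange of the first two variables. -/
def sw : Co := ⟨C.b, C.a, C.c, C.d, C.m, C.l, C.n, C.f, C.e, C.g, C.k, C.hb, C.ha, C.hc, C.hd⟩

/-- Exchange of the last two variables. -/
def rot : Co := ⟨C.a, C.c, C.b, C.d, C.l, C.n, C.m, C.e, C.g, C.f, C.k, C.ha, C.hc, C.hb, C.hd⟩

/-- The second root in the last variable. -/
def vt (x y z : R) : R := -(C.c⁻¹ • (C.d • (x * y) + C.l • y + C.m • x + C.g • 1)) - z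

theorem F_sw (x y z : R) : C.sw.F y x z = C.F x y z := by
  simp only [F, sw, Algebra.smul_def]; ring

theorem F_rot (x y z : R) : C.rot.F x z y = C.F x y z := by
  simp only [F, rot, Algebra.smul_def]; ring

theorem inv_c : algebraMap ℚ R C.c * algebraMap ℚ R C.c⁻¹ = 1 := by
  rw [← map_mul, mul_inv_cancel₀ C.hc, map_one]

theorem F_vt (x y z : R) : C.F x y (C.vt x y z) = C.F x y z := by
  simp only [F, vt, Algebra.smul_def]
  linear_combination (algebraMap ℚ R C.d * (x * y) + algebraMap ℚ R C.l * y + algebraMap ℚ R C.m * x +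
    algebraMap ℚ R C.g) *
    (algebraMap ℚ R C.c⁻¹ * (algebraMap ℚ R C.d * (x * y) + algebraMap ℚ R C.l * y + algebraMap ℚ R C.m * x +
    algebraMap ℚ R C.g) + 2 * z) *
      C.inv_c (R := R)

theorem mul_vt (x y z : R) : C.c • (z * C.vt x y z) =
    C.a • x ^ 2 + C.b • y ^ 2 + C.n • (x * y) + C.e • x + C.f • y + C.k • 1 - C.F x y z := by
  simp only [F, vt, Algebra.smul_def]
  linear_combination (-z * (algebraMap ℚ R C.d * (x * y) + algebraMap ℚ R C.l * y + algebraMap ℚ R C.m * x +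
    algebraMap ℚ R C.g)) * C.inv_c (R := R)

theorem vt_vt (x y z : R) : C.vt x y (C.vt x y z) = z := by
  simp only [vt]; ring

theorem map_F {R' : Type} [CommRing R'] [Algebra ℚ R'] (φ : R →ₐ[ℚ] R') (x y z : R) :
    φ (C.F x y z) = C.F (φ x) (φ y) (φ z) := by
  simp only [F, map_add, map_smul, map_pow, map_mul, map_one]

theorem map_vt {R' : Type} [CommRing R'] [Algebra ℚ R'] (φ : R →ₐ[ℚ] R') (x y z : R) :
    φ (C.vt x y z) = C.vt (φ x) (φ y) (φ z) := by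
  simp only [vt, map_add, map_smul, map_neg, map_sub, map_mul, map_one]

end Co

variable (R) in
/-- A point of a cubic. -/
structure Tri where
  co : Co
  (x y z : R)
  eq : co.F x y z = 0

/-- A valuation that measures the size of integers. -/
structure Sz (v : Valuation R ℝ≥0) : Prop where
  ge : ∀ g, g ≠ 0 → 1 ≤ v g
  cst : ∀ c : ℚ, v (algebraMap ℚ R c) ≤ 1

namespace Sz

variable {v : Valuation R ℝ≥0} (h : Sz v)
include h

theorem smul_le (c : ℚ) (g : R) : v (c • g) ≤ v g := by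
  rw [Algebra.smul_def, map_mul]
  exact mul_le_of_le_one_left zero_le (h.cst c)

theorem smul_eq {c : ℚ} (hc : c ≠ 0) (g : R) : v (c • g) = v g :=
  (h.smul_le c g).antisymm (by simpa [hc] using h.smul_le c⁻¹ (c • g))

theorem eq_zero {g : R} (hg : v g < 1) : g = 0 := by
  by_contra h0
  exact absurd (h.ge g h0) (not_le.2 hg)

end Sz

namespace Tri

variable (τ : Tri R)

/-- Exchange of the first two members. -/
def sw : Tri R := ⟨τ.co.sw, τ.y, τ.x, τ.z, (τ.co.F_sw ..).trans τ.eq⟩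

/-- Exchange of the last two members. -/
def rot : Tri R := ⟨τ.co.rot, τ.x, τ.z, τ.y, (τ.co.F_rot ..).trans τ.eq⟩

/-- The Vieta move followed by the exchange of the last two members. -/
def mv : Tri R := ⟨τ.co.rot, τ.x, τ.co.vt τ.x τ.y τ.z, τ.y,
  (τ.co.F_rot ..).trans ((τ.co.F_vt ..).trans τ.eq)⟩

/-- The members generate the ring. -/
def Gen : Prop := Algebra.adjoin ℚ {τ.x, τ.y, τ.z} = ⊤

/-- The last member is the largest and it is large. -/
structure Good (v : Valuation R ℝ≥0) : Prop where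
  x : v τ.x ≤ v τ.z
  y : v τ.y ≤ v τ.z
  z : 1 < v τ.z

variable {τ} {v : Valuation R ℝ≥0}

theorem Gen.sw (h : τ.Gen) : τ.sw.Gen := by
  rwa [Gen, Set.insert_comm] at h

theorem Gen.rot (h : τ.Gen) : τ.rot.Gen := by
  rwa [Gen, Set.pair_comm] at h

theorem Gen.mv (h : τ.Gen) : τ.mv.Gen := by
  refine eq_top_iff.2 (h.ge.trans (Algebra.adjoin_le ?_))
  have h1 : ∀ u ∈ ({τ.x, τ.co.vt τ.x τ.y τ.z, τ.y} : Set R),
      u ∈ Algebra.adjoin ℚ {τ.mv.x, τ.mv.y, τ.mv.z} := Algebra.subset_adjoin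
  rintro _ (rfl | rfl | rfl)
  · exact h1 _ (by simp)
  · exact h1 _ (by simp)
  · rw [← τ.co.vt_vt τ.x τ.y τ.z, Co.vt]
    exact sub_mem (neg_mem (Subalgebra.smul_mem _ (add_mem (add_mem (add_mem (Subalgebra.smul_mem _
      (mul_mem (h1 _ (by simp)) (h1 _ (by simp))) _) (Subalgebra.smul_mem _ (h1 _ (by simp)) _))
      (Subalgebra.smul_mem _ (h1 _ (by simp)) _)) (Subalgebra.smul_mem _ (one_mem _) _)) _))
      (h1 _ (by simp))

theorem Good.sw (h : τ.Good v) : τ.sw.Good v := ⟨h.y, h.x, h.z⟩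

theorem exists_good (τ : Tri R) (h : 1 < v τ.x ∨ 1 < v τ.y ∨ 1 < v τ.z) :
    τ.Good v ∨ τ.rot.Good v ∨ τ.sw.rot.Good v := by
  rcases le_total (v τ.x) (v τ.z) with h1 | h1 <;> rcases le_total (v τ.y) (v τ.z) with h2 | h2 <;>
    rcases le_total (v τ.x) (v τ.y) with h3 | h3
  all_goals first
    | exact .inl ⟨h1, h2, by rcases h with h | h | h <;> order⟩
    | exact .inr (.inl ⟨h3, h2, show 1 < v τ.y by rcases h with h | h | h <;> order⟩)
    | exact .inr (.inr ⟨h3, h1, show 1 < v τ.x by rcases h with h | h | h <;> order⟩)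
    | exact .inr (.inr ⟨h3, h2.trans h3, show 1 < v τ.x by rcases h with h | h | h <;> order⟩)
    | exact .inr (.inl ⟨h3, h1.trans h3, show 1 < v τ.y by rcases h with h | h | h <;> order⟩)

theorem Good.le (hv : Sz v) (h : τ.Good v) (h1 : v τ.x ≤ v τ.y) :
    v τ.z ≤ v τ.y ∨ v τ.z ≤ v τ.x * v τ.y := by
  by_contra hc
  obtain ⟨h2, h3⟩ := not_or.1 hc
  rw [not_le] at h2 h3
  have h0 : 0 < v τ.z := zero_lt_one.trans h.z
  have h4 : v τ.z < v τ.z ^ 2 := by rw [sq]; exact lt_mul_of_one_lt_left h0 h.z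
  have h5 : ∀ u, v u < v τ.z → ∀ c : ℚ, v (c • u ^ 2) < v τ.z ^ 2 := fun u hu c =>
    (hv.smul_le _ _).trans_lt (by rw [map_pow]; exact pow_lt_pow_left₀ hu zero_le two_ne_zero)
  have h6 : ∀ u, v u ≤ v τ.z → ∀ c : ℚ, v (c • u) < v τ.z ^ 2 := fun u hu c =>
    ((hv.smul_le _ _).trans hu).trans_lt h4
  have e : τ.co.c • τ.z ^ 2 = -(τ.co.a • τ.x ^ 2 + τ.co.b • τ.y ^ 2 + τ.co.d • (τ.x * τ.y * τ.z) +
      τ.co.l • (τ.y * τ.z) + τ.co.m • (τ.x * τ.z) + τ.co.n • (τ.x * τ.y) + τ.co.e • τ.x + τ.co.f • τ.y + τ.co.g • τ.z + τ.co.k • 1) := by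
    have := τ.eq
    rw [Co.F] at this
    linear_combination this
  have h7 := congrArg v e
  rw [hv.smul_eq τ.co.hc, map_pow, Valuation.map_neg] at h7
  have h8 : ∀ u, v u < v τ.z → ∀ c : ℚ, v (c • (u * τ.z)) < v τ.z ^ 2 := fun u hu c =>
    (hv.smul_le _ _).trans_lt (by rw [map_mul, sq]; exact mul_lt_mul_of_pos_right hu h0)
  refine h7.not_gt (v.map_add_lt (v.map_add_lt (v.map_add_lt (v.map_add_lt (v.map_add_lt
    (v.map_add_lt (v.map_add_lt (v.map_add_lt (v.map_add_lt (h5 _ (h1.trans_lt h2) _) (h5 _ h2 _))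
    ?_) (h8 _ h2 _)) (h8 _ (h1.trans_lt h2) _)) (h6 _ (by rw [map_mul]; exact h3.le) _))
    (h6 _ h.x _)) (h6 _ h.y _)) (h6 _ le_rfl _)) (h6 _ (by rw [map_one]; exact h.z.le) _))
  rw [hv.smul_eq τ.co.hd, map_mul, map_mul, sq]
  exact mul_lt_mul_of_pos_right h3 h0

theorem Good.one_lt (hv : Sz v) (h : τ.Good v) (h1 : v τ.x ≤ v τ.y) : 1 < v τ.y := by
  by_contra hc
  rw [not_lt] at hc
  rcases h.le hv h1 with h2 | h2
  · exact (h.z.trans_le (h2.trans hc)).false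
  · exact (h.z.trans_le (h2.trans (mul_le_one₀ (h1.trans hc) zero_le hc))).false

theorem Good.one_lt' (hv : Sz v) (h : τ.Good v) (h1 : v τ.x ≤ 1) : 1 < v τ.y := by
  rcases le_total (v τ.x) (v τ.y) with h2 | h2
  · exact h.one_lt hv h2
  · exact ((h.sw.one_lt hv h2).trans_le h1).false.elim

theorem Good.ge (hv : Sz v) (h : τ.Good v) : v τ.x * v τ.y ≤ v τ.z := by
  have h0 : 0 < v τ.z := zero_lt_one.trans h.z
  have h4 : v τ.z ≤ v τ.z ^ 2 := by rw [sq]; exact le_mul_of_one_le_left zero_le h.z.le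
  have h5 : ∀ u, v u ≤ v τ.z → ∀ c : ℚ, v (c • u ^ 2) ≤ v τ.z ^ 2 := fun u hu c =>
    (hv.smul_le _ _).trans (by rw [map_pow]; exact pow_le_pow_left₀ zero_le hu 2)
  have h6 : ∀ u, v u ≤ v τ.z → ∀ c : ℚ, v (c • u) ≤ v τ.z ^ 2 := fun u hu c =>
    ((hv.smul_le _ _).trans hu).trans h4
  have e : τ.co.d • (τ.x * τ.y * τ.z) = -(τ.co.a • τ.x ^ 2 + τ.co.b • τ.y ^ 2 + τ.co.c • τ.z ^ 2 +
      τ.co.l • (τ.y * τ.z) + τ.co.m • (τ.x * τ.z) + τ.co.n • (τ.x * τ.y) + τ.co.e • τ.x + τ.co.f • τ.y + τ.co.g • τ.z + τ.co.k • 1) := by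
    have := τ.eq
    rw [Co.F] at this
    linear_combination this
  have h7 := congrArg v e
  rw [hv.smul_eq τ.co.hd, map_mul, map_mul, Valuation.map_neg] at h7
  refine le_of_mul_le_mul_right ?_ h0
  rw [h7, ← sq]
  have h8 : ∀ u u', v u ≤ v τ.z → v u' ≤ v τ.z → ∀ c : ℚ, v (c • (u * u')) ≤ v τ.z ^ 2 :=
    fun u u' hu hu' c => (hv.smul_le _ _).trans (by rw [map_mul, sq]; exact mul_le_mul' hu hu')
  exact v.map_add_le (v.map_add_le (v.map_add_le (v.map_add_le (v.map_add_le (v.map_add_le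
    (v.map_add_le (v.map_add_le (v.map_add_le (h5 _ h.x _) (h5 _ h.y _)) (h5 _ le_rfl _))
    (h8 _ _ h.y le_rfl _)) (h8 _ _ h.x le_rfl _)) (h8 _ _ h.x h.y _)) (h6 _ h.x _)) (h6 _ h.y _))
    (h6 _ le_rfl _)) (h6 _ (by rw [map_one]; exact h.z.le) _)

theorem Good.eq (hv : Sz v) (h : τ.Good v) (hx : 1 ≤ v τ.x) (hy : 1 ≤ v τ.y) :
    v τ.z = v τ.x * v τ.y := by
  refine le_antisymm ?_ (h.ge hv)
  rcases le_total (v τ.x) (v τ.y) with h1 | h1
  · exact (h.le hv h1).elim (fun h2 => h2.trans (le_mul_of_one_le_left zero_le hx)) id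
  · rw [mul_comm]
    exact (h.sw.le hv h1).elim (fun h2 => h2.trans (le_mul_of_one_le_left zero_le hy)) id

/-- The size of the new member. -/
theorem Good.mv_le (hv : Sz v) (h : τ.Good v) (hx : 1 ≤ v τ.x) (h1 : v τ.x ≤ v τ.y) :
    v τ.x * v τ.mv.y ≤ v τ.y := by
  have hy := h.one_lt hv h1
  have h4 : v τ.y ≤ v τ.y ^ 2 := by rw [sq]; exact le_mul_of_one_le_left zero_le hy.le
  have h5 : ∀ u, v u ≤ v τ.y → ∀ c : ℚ, v (c • u ^ 2) ≤ v τ.y ^ 2 := fun u hu c =>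
    (hv.smul_le _ _).trans (by rw [map_pow]; exact pow_le_pow_left₀ zero_le hu 2)
  have h6 : ∀ u, v u ≤ v τ.y → ∀ c : ℚ, v (c • u) ≤ v τ.y ^ 2 := fun u hu c =>
    ((hv.smul_le _ _).trans hu).trans h4
  have h7 := congrArg v (τ.co.mul_vt τ.x τ.y τ.z)
  rw [τ.eq, sub_zero, hv.smul_eq τ.co.hc, map_mul, h.eq hv hx hy.le] at h7
  refine le_of_mul_le_mul_right ?_ (zero_lt_one.trans hy)
  rw [mul_right_comm, ← sq]
  exact h7.trans_le (v.map_add_le (v.map_add_le (v.map_add_le (v.map_add_le (v.map_add_le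
    (h5 _ h1 _) (h5 _ le_rfl _)) ((hv.smul_le _ _).trans (by
      rw [map_mul, sq]; exact mul_le_mul_left h1 _))) (h6 _ h1 _)) (h6 _ le_rfl _))
    (h6 _ (by rw [map_one]; exact hy.le) _))

theorem Good.mv (hv : Sz v) (h : τ.Good v) (hx : 1 ≤ v τ.x) (h1 : v τ.x ≤ v τ.y) :
    τ.mv.Good v :=
  ⟨h1, (le_mul_of_one_le_left zero_le hx).trans (h.mv_le hv hx h1), h.one_lt hv h1⟩

/-- The descent. -/
theorem desc (hv : Sz v) (Inv : Tri R → Prop) (hsw : ∀ τ, Inv τ → Inv τ.sw)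
    (hmv : ∀ τ, Inv τ → τ.Good v → 1 < v τ.x → v τ.x ≤ v τ.y → Inv τ.mv) (h0 : Inv τ)
    (g0 : τ.Good v) : (∃ τ, Inv τ ∧ τ.Good v ∧ v τ.x ≤ 1) ∨ ∀ L : ℕ, ∃ τ, Inv τ ∧ τ.Good v ∧
      1 < v τ.x ∧ 1 < v τ.y ∧ v τ.x ^ L ≤ 2 ∧ ∀ m n : ℕ, v τ.x ^ m = v τ.y ^ n → n = 0 := by
  refine or_iff_not_imp_left.2 fun hB L => ?_
  have hx : ∀ τ, Inv τ → τ.Good v → 1 < v τ.x := fun τ a b => not_le.1 fun c => hB ⟨τ, a, b, c⟩
  have hy : ∀ τ, Inv τ → τ.Good v → 1 < v τ.y := fun τ a b => hx τ.sw (hsw τ a) b.sw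
  have st : ∀ τ, Inv τ → τ.Good v → v τ.x ≤ v τ.y → Inv τ.mv ∧ τ.mv.Good v := fun τ a b c =>
    ⟨hmv τ a b (hx τ a b) c, b.mv hv (hx τ a b).le c⟩
  have rel : ∀ N m n : ℕ, m + n ≤ N → ∀ τ, Inv τ → τ.Good v → v τ.x ^ m = v τ.y ^ n → n = 0 := by
    intro N
    induction N with
    | zero => intro m n h _ _ _ _; omega
    | succ N ih =>
      have key : ∀ m n : ℕ, m + n ≤ N + 1 → ∀ τ, Inv τ → τ.Good v → v τ.x ≤ v τ.y →
          v τ.x ^ m = v τ.y ^ n → n = 0 := by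
        intro m n h τ a b c e
        by_contra hn
        obtain ⟨a', b'⟩ := st τ a b c
        have e1 : v τ.y = v τ.x * v τ.mv.y := b'.eq hv (hx τ a b).le (hy _ a' b').le
        have h0 : 0 < v τ.x ^ n := pow_pos (zero_lt_one.trans (hx τ a b)) n
        have hm : n ≤ m := by
          refine (pow_le_pow_iff_right₀ (hx τ a b)).1 ?_
          rw [e]
          exact pow_le_pow_left₀ zero_le c n
        obtain ⟨m, rfl⟩ := Nat.exists_eq_add_of_le hm
        rw [e1, mul_pow, pow_add] at e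
        exact hn (ih m n (by omega) _ a' b' (mul_left_cancel₀ h0.ne' e))
      intro m n h τ a b e
      rcases le_total (v τ.x) (v τ.y) with c | c
      · exact key m n h τ a b c e
      · obtain rfl := key n m (by omega) _ (hsw τ a) b.sw c e.symm
        by_contra hn
        exact (one_lt_pow₀ (hy τ a b) hn).ne (by rw [← e, pow_zero])
  by_contra hc
  have big : ∀ τ, Inv τ → τ.Good v → 2 < v τ.x ^ L := fun τ a b => not_le.1 fun c =>
    hc ⟨τ, a, b, hx τ a b, hy τ a b, c, fun m n => rel _ m n le_rfl τ a b⟩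
  have drop : ∀ j : ℕ, ∃ τ', Inv τ' ∧ τ'.Good v ∧ 2 ^ j * v τ'.z ^ L ≤ v τ.z ^ L := by
    intro j
    induction j with
    | zero => exact ⟨τ, h0, g0, by simp⟩
    | succ j ih =>
      have key : ∀ σ, Inv σ → σ.Good v → v σ.x ≤ v σ.y → 2 ^ j * v σ.z ^ L ≤ v τ.z ^ L →
          ∃ τ', Inv τ' ∧ τ'.Good v ∧ 2 ^ (j + 1) * v τ'.z ^ L ≤ v τ.z ^ L := fun σ a b c e => by
        refine ⟨σ.mv, (st σ a b c).1, (st σ a b c).2, le_trans ?_ e⟩
        rw [b.eq hv (hx σ a b).le (hy σ a b).le, mul_pow, pow_succ, mul_assoc]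
        exact mul_le_mul_right (mul_le_mul_left (big σ a b).le _) _
      obtain ⟨σ, a, b, e⟩ := ih
      rcases le_total (v σ.x) (v σ.y) with c | c
      · exact key σ a b c e
      · exact key _ (hsw σ a) b.sw c e
  obtain ⟨j, hj⟩ := pow_unbounded_of_one_lt (v τ.z ^ L) (one_lt_two (α := ℝ≥0))
  obtain ⟨σ, -, b, e⟩ := drop j
  exact (hj.trans_le ((le_mul_of_one_le_right zero_le (one_le_pow₀ b.z.le)).trans e)).false

/-- A small member is reached. -/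
theorem desc_small (hv : Sz v) (Inv : Tri R → Prop) (hsw : ∀ τ, Inv τ → Inv τ.sw)
    (hmv : ∀ τ, Inv τ → τ.Good v → 1 < v τ.x → v τ.x ≤ v τ.y → Inv τ.mv) (h0 : Inv τ)
    (g0 : τ.Good v) (L : ℕ) : ∃ τ, Inv τ ∧ τ.Good v ∧ v τ.x ^ L ≤ 2 := by
  rcases desc hv Inv hsw hmv h0 g0 with ⟨σ, a, b, c⟩ | h
  · exact ⟨σ, a, b, (pow_le_one₀ zero_le c).trans one_le_two⟩
  · obtain ⟨σ, a, b, -, -, c, -⟩ := h L
    exact ⟨σ, a, b, c⟩

end Tri

end Pool.Agent.Lib.MP_8865d3_nt.Mk
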